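import Mathlib

set_option autoImplicit false

namespace Pool.Agent.MoufangHaar

/-- Moufang loops, presented by multiplication, unit and inverse. -/
class MLoop (L : Type*) extends Mul L, One L, Inv L where
  one_mul' : ∀ x : L, 1 * x = x
  mul_one' : ∀ x : L, x * 1 = x
  inv_mul_cancel_left' : ∀ x y : L, x⁻¹ * (x * y) = y
  mul_inv_cancel_left' : ∀ x y : L, x * (x⁻¹ * y) = y
  moufang' : ∀ x y z : L, z * (x * (z * y)) = ((z * x) * z) * y

namespace MLoop

variable {L : Type*} [MLoop L]

theorem one_mul (x : L) : 1 * x = x := one_mul' x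
theorem mul_one (x : L) : x * 1 = x := mul_one' x
theorem inv_mul_left (x y : L) : x⁻¹ * (x * y) = y := inv_mul_cancel_left' x y
theorem mul_inv_left (x y : L) : x * (x⁻¹ * y) = y := mul_inv_cancel_left' x y
theorem moufang (x y z : L) : z * (x * (z * y)) = ((z * x) * z) * y := moufang' x y z

theorem mul_inv_self (x : L) : x * x⁻¹ = 1 := by
  have h := mul_inv_left x 1
  rwa [mul_one] at h

theorem inv_mul_self (x : L) : x⁻¹ * x = 1 := by
  have h := inv_mul_left x 1
  rwa [mul_one] at h

theorem mul_left_cancel {a x y : L} (h : a * x = a * y) : x = y := by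
  rw [← inv_mul_left a x, h, inv_mul_left]

theorem mul_mul_inv (a z : L) : (a * z) * z⁻¹ = a := by
  have h := moufang (z⁻¹ * a) z⁻¹ z
  rw [mul_inv_self, mul_one, mul_inv_left] at h
  exact h.symm

theorem inv_inv (x : L) : (x⁻¹)⁻¹ = x := by
  have h := mul_inv_left x ((x⁻¹)⁻¹)
  rw [mul_inv_self, mul_one] at h
  exact h.symm

theorem mul_inv_mul (a z : L) : (a * z⁻¹) * z = a := by
  have h := mul_mul_inv a z⁻¹
  rwa [inv_inv] at h

theorem mul_right_cancel {a x y : L} (h : x * a = y * a) : x = y := by
  rw [← mul_mul_inv x a, h, mul_mul_inv]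

theorem mul_inv_rev (x y : L) : (x * y)⁻¹ = y⁻¹ * x⁻¹ := by
  have h1 : (x * y)⁻¹ * x = y⁻¹ := by
    have h := inv_mul_left (x * y) y⁻¹
    rwa [mul_mul_inv] at h
  rw [← h1, mul_mul_inv]

/-- left translations are autotopism components: first type -/
theorem autL (z u v : L) : ((z * u) * z) * (z⁻¹ * v) = z * (u * v) := by
  have h := moufang u (z⁻¹ * v) z
  rw [mul_inv_left] at h
  exact h.symm

/-- second type -/
theorem autR (z x y : L) : (z * x) * (y * z) = (z * (x * y)) * z := by
  have h := autL z (x * y) y⁻¹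
  rw [mul_mul_inv, ← mul_inv_rev] at h
  have h2 := mul_inv_mul ((z * (x * y)) * z) (y * z)
  rw [h] at h2
  exact h2

theorem flex (z x : L) : (z * x) * z = z * (x * z) := by
  have h := moufang x 1 z
  rw [mul_one, mul_one] at h
  exact h.symm

end MLoop

/-- A multiplicative map between Moufang loops. -/
structure IsMHom {L Q : Type*} [MLoop L] [MLoop Q] (φ : L → Q) : Prop where
  map_mul : ∀ x y, φ (x * y) = φ x * φ y

namespace IsMHom

variable {L Q : Type*} [MLoop L] [MLoop Q] {φ : L → Q}

theorem map_one (h : IsMHom φ) : φ 1 = 1 := by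
  have h1 := h.map_mul 1 1
  rw [MLoop.mul_one] at h1
  have h2 : φ 1 * φ 1 = φ 1 * 1 := by rw [← h1, MLoop.mul_one]
  exact MLoop.mul_left_cancel h2

theorem map_inv (h : IsMHom φ) (x : L) : φ x⁻¹ = (φ x)⁻¹ := by
  have h1 := h.map_mul x x⁻¹
  rw [MLoop.mul_inv_self, h.map_one] at h1
  have h2 : φ x * φ x⁻¹ = φ x * (φ x)⁻¹ := by rw [← h1, MLoop.mul_inv_self]
  exact MLoop.mul_left_cancel h2

end IsMHom

/-- Topological Moufang loops. -/
class TopMLoop (L : Type*) [MLoop L] [TopologicalSpace L] : Prop where
  cont_mul : Continuous (fun p : L × L => p.1 * p.2)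
  cont_inv : Continuous (fun x : L => x⁻¹)

namespace TopMLoop

variable {L : Type*} [MLoop L] [TopologicalSpace L] [TopMLoop L]

theorem continuous_mul_left (a : L) : Continuous (fun x : L => a * x) :=
  (cont_mul (L := L)).comp (Continuous.prodMk_right a)

theorem continuous_mul_right (a : L) : Continuous (fun x : L => x * a) :=
  (cont_mul (L := L)).comp (Continuous.prodMk_left a)

theorem cmul {X : Type*} [TopologicalSpace X] {f g : X → L} (hf : Continuous f)
    (hg : Continuous g) : Continuous (fun x => f x * g x) :=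
  (cont_mul (L := L)).comp (hf.prodMk hg)

theorem cinv {X : Type*} [TopologicalSpace X] {f : X → L} (hf : Continuous f) :
    Continuous (fun x => (f x)⁻¹) :=
  (cont_inv (L := L)).comp hf

end TopMLoop

/-- left translation as a homeomorphism -/
def lt {L : Type*} [MLoop L] [TopologicalSpace L] [TopMLoop L] (a : L) : L ≃ₜ L where
  toFun x := a * x
  invFun x := a⁻¹ * x
  left_inv x := MLoop.inv_mul_left a x
  right_inv x := MLoop.mul_inv_left a x
  continuous_toFun := TopMLoop.continuous_mul_left a
  continuous_invFun := TopMLoop.continuous_mul_left a⁻¹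

/-- right translation as a homeomorphism -/
def rt {L : Type*} [MLoop L] [TopologicalSpace L] [TopMLoop L] (a : L) : L ≃ₜ L where
  toFun x := x * a
  invFun x := x * a⁻¹
  left_inv x := MLoop.mul_mul_inv x a
  right_inv x := MLoop.mul_inv_mul x a
  continuous_toFun := TopMLoop.continuous_mul_right a
  continuous_invFun := TopMLoop.continuous_mul_right a⁻¹

end Pool.Agent.MoufangHaar
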