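import Mathlib
import Pool.Agent.Lib.MP_fd6bc6_al.Basic

set_option autoImplicit false

open MeasureTheory

namespace Pool.Agent.MoufangHaar

section Gen

variable {X : Type*} [TopologicalSpace X] [CompactSpace X] [MeasurableSpace X] [BorelSpace X]

theorem aesm (f : C(X, ℝ)) (μ : Measure X) : AEStronglyMeasurable f μ :=
  (f.continuous.stronglyMeasurable_of_hasCompactSupport
    (HasCompactSupport.of_compactSpace _)).aestronglyMeasurable

theorem integrable_cont (f : C(X, ℝ)) (μ : Measure X) [IsFiniteMeasure μ] : Integrable f μ :=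
  f.continuous.integrable_of_hasCompactSupport (HasCompactSupport.of_compactSpace _)

theorem continuous_integral_sup (μ : Measure X) [IsProbabilityMeasure μ] :
    Continuous (fun f : C(X, ℝ) => ∫ x, f x ∂μ) := by
  refine LipschitzWith.continuous (K := 1) (LipschitzWith.of_dist_le_mul fun f g => ?_)
  rw [Real.dist_eq, ← integral_sub (integrable_cont f μ) (integrable_cont g μ), NNReal.coe_one,
    one_mul, dist_eq_norm, ← Real.norm_eq_abs]
  have h := norm_integral_le_of_norm_le_const (μ := μ) (f := fun x => f x - g x)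
    (C := ‖f - g‖) (Filter.Eventually.of_forall fun x => by
      have := (f - g).norm_coe_le_norm x
      simpa using this)
  simpa using h

theorem continuous_param {Y : Type*} [TopologicalSpace Y] (μ : Measure X)
    [IsProbabilityMeasure μ] (F : Y → X → ℝ) (hF : Continuous (Function.uncurry F)) :
    Continuous (fun y => ∫ x, F y x ∂μ) := by
  let G : C(Y, C(X, ℝ)) := ContinuousMap.curry ⟨Function.uncurry F, hF⟩
  exact (continuous_integral_sup μ).comp G.continuous

variable [T2Space X]

/-- A compactness principle: approximate solutions of a system of linear equations for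
probability measures give an exact solution. -/
theorem exists_of_approx {ι : Type*} (f g : ι → C(X, ℝ))
    (h : ∀ (s : Finset ι) (ε : ℝ), 0 < ε → ∃ μ : ProbabilityMeasure X,
      ∀ i ∈ s, |∫ x, f i x ∂(μ : Measure X) - ∫ x, g i x ∂(μ : Measure X)| ≤ ε) :
    ∃ μ : ProbabilityMeasure X,
      ∀ i, ∫ x, f i x ∂(μ : Measure X) = ∫ x, g i x ∂(μ : Measure X) := by
  classical
  let K : ι × ℕ → Set (ProbabilityMeasure X) := fun p =>
    {μ | |∫ x, f p.1 x ∂(μ : Measure X) - ∫ x, g p.1 x ∂(μ : Measure X)| ≤ 1 / ((p.2 : ℝ) + 1)}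
  have hK : ∀ p, IsClosed (K p) := fun p => by
    have h1 := ProbabilityMeasure.continuous_integral_continuousMap (f p.1)
    have h2 := ProbabilityMeasure.continuous_integral_continuousMap (g p.1)
    exact isClosed_le (h1.sub h2).abs continuous_const
  have hfin : ∀ u : Finset (ι × ℕ), (⋂ p ∈ u, K p).Nonempty := by
    intro u
    obtain ⟨μ, hμ⟩ := h (u.image Prod.fst) (1 / (((u.sup Prod.snd : ℕ) : ℝ) + 1)) (by positivity)
    refine ⟨μ, ?_⟩
    simp only [Set.mem_iInter]
    intro p hp
    have h1 := hμ p.1 (Finset.mem_image_of_mem _ hp)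
    have h2 : p.2 ≤ u.sup Prod.snd := Finset.le_sup (f := Prod.snd) hp
    have h3 : (p.2 : ℝ) ≤ ((u.sup Prod.snd : ℕ) : ℝ) := by exact_mod_cast h2
    refine le_trans h1 ?_
    apply one_div_le_one_div_of_le (by positivity)
    linarith
  obtain ⟨μ, hμ⟩ := CompactSpace.iInter_nonempty hK hfin
  refine ⟨μ, fun i => ?_⟩
  simp only [Set.mem_iInter] at hμ
  have h0 : |∫ x, f i x ∂(μ : Measure X) - ∫ x, g i x ∂(μ : Measure X)| ≤ 0 := by
    refine le_of_forall_pos_le_add fun ε hε => ?_
    obtain ⟨n, hn⟩ := exists_nat_one_div_lt hε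
    have h2 : |∫ x, f i x ∂(μ : Measure X) - ∫ x, g i x ∂(μ : Measure X)|
        ≤ 1 / ((n : ℝ) + 1) := hμ (i, n)
    linarith
  have h1 := abs_nonpos_iff.mp h0
  linarith

/-- Positive normalised functionals are given by probability measures. -/
theorem exists_of_functional (Λ : C(X, ℝ) → ℝ) (hadd : ∀ f g, Λ (f + g) = Λ f + Λ g)
    (hsmul : ∀ (c : ℝ) f, Λ (c • f) = c * Λ f) (hmono : ∀ f g, f ≤ g → Λ f ≤ Λ g)
    (hone : Λ 1 = 1) :
    ∃ μ : Measure X, IsProbabilityMeasure μ ∧ ∀ f : C(X, ℝ), ∫ x, f x ∂μ = Λ f := by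
  let Λ' : CompactlySupportedContinuousMap X ℝ →ₚ[ℝ] ℝ :=
  { toFun := fun g => Λ ⟨g, g.continuous⟩
    map_add' := fun g g' => hadd _ _
    map_smul' := fun c g => hsmul _ _
    monotone' := fun g g' hgg' => hmono _ _ hgg' }
  have key : ∀ f : C(X, ℝ), ∫ x, f x ∂(RealRMK.rieszMeasure Λ') = Λ f := fun f =>
    RealRMK.integral_rieszMeasure Λ'
      ⟨⟨f, f.continuous⟩, HasCompactSupport.of_compactSpace _⟩
  refine ⟨RealRMK.rieszMeasure Λ', ?_, key⟩
  have h5 := key 1
  simp only [ContinuousMap.one_apply, integral_const, smul_eq_mul, mul_one, hone] at h5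
  constructor
  rw [Measure.real, ENNReal.toReal_eq_one_iff] at h5
  exact h5

theorem exists_regular (μ : Measure X) [IsProbabilityMeasure μ] :
    ∃ ν : Measure X, ν.Regular ∧ IsProbabilityMeasure ν ∧
      ∀ g : C(X, ℝ), ∫ x, g x ∂μ = ∫ x, g x ∂ν := by
  obtain ⟨ν, h1, h2, h3⟩ := Measure.exists_regular_eq_of_compactSpace μ
  have h4 : ∀ g : C(X, ℝ), ∫ x, g x ∂μ = ∫ x, g x ∂ν := fun g =>
    h3 (BoundedContinuousFunction.mkOfCompact g)
  refine ⟨ν, h1, ?_, h4⟩
  have h5 := h4 1
  simp only [ContinuousMap.one_apply, integral_const, smul_eq_mul, mul_one, probReal_univ] at h5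
  constructor
  have h6 : ν.real Set.univ = 1 := h5.symm
  rw [Measure.real, ENNReal.toReal_eq_one_iff] at h6
  exact h6

theorem map_homeo_eq_of_regular (ν : Measure X) [ν.Regular] [IsProbabilityMeasure ν]
    (e : X ≃ₜ X) (h : ∀ f : C(X, ℝ), ∫ x, f (e x) ∂ν = ∫ x, f x ∂ν) :
    ν.map e = ν := by
  have : (ν.map e).Regular := Measure.Regular.map e
  apply Measure.ext_of_integral_eq_on_compactlySupported
  intro f
  rw [integral_map e.continuous.measurable.aemeasurable]
  · exact h ⟨f, f.continuous⟩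
  · exact aesm ⟨f, f.continuous⟩ _

end Gen

/-- Integral form of two-sided invariance. -/
def HasInt (L : Type*) [MLoop L] [TopologicalSpace L] [MeasurableSpace L] : Prop :=
  ∃ μ : Measure L, IsProbabilityMeasure μ ∧ ∀ (a : L) (f : C(L, ℝ)),
    (∫ x, f (a * x) ∂μ = ∫ x, f x ∂μ) ∧ (∫ x, f (x * a) ∂μ = ∫ x, f x ∂μ)

/-- Existence of a Borel probability measure invariant under all translations. -/
def HasHaar (L : Type*) [MLoop L] [MeasurableSpace L] : Prop :=
  ∃ μ : Measure L, IsProbabilityMeasure μ ∧ ∀ a : L,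
    μ.map (fun x => a * x) = μ ∧ μ.map (fun x => x * a) = μ

section

variable {L : Type*} [MLoop L] [TopologicalSpace L] [TopMLoop L]

/-- composition with a left translation -/
def cl (f : C(L, ℝ)) (a : L) : C(L, ℝ) := ⟨fun x => f (a * x),
  f.continuous.comp (TopMLoop.continuous_mul_left a)⟩

/-- composition with a right translation -/
def cr (f : C(L, ℝ)) (a : L) : C(L, ℝ) := ⟨fun x => f (x * a),
  f.continuous.comp (TopMLoop.continuous_mul_right a)⟩

@[simp] theorem cl_apply (f : C(L, ℝ)) (a x : L) : cl f a x = f (a * x) := rfl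
@[simp] theorem cr_apply (f : C(L, ℝ)) (a x : L) : cr f a x = f (x * a) := rfl

end

section

variable {L : Type*} [MLoop L] [TopologicalSpace L] [CompactSpace L] [TopMLoop L]
  [MeasurableSpace L] [BorelSpace L]

theorem HasHaar.hasInt (h : HasHaar L) : HasInt L := by
  obtain ⟨μ, h1, h2⟩ := h
  refine ⟨μ, h1, fun a f => ⟨?_, ?_⟩⟩
  · conv_rhs => rw [← (h2 a).1]
    rw [integral_map (TopMLoop.continuous_mul_left a).measurable.aemeasurable (aesm f _)]
  · conv_rhs => rw [← (h2 a).2]
    rw [integral_map (TopMLoop.continuous_mul_right a).measurable.aemeasurable (aesm f _)]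

variable [T2Space L]

theorem HasInt.hasHaar (h : HasInt L) : HasHaar L := by
  obtain ⟨μ, h1, h2⟩ := h
  obtain ⟨ν, h3, h4, h5⟩ := exists_regular μ
  refine ⟨ν, h4, fun a => ⟨?_, ?_⟩⟩
  · refine map_homeo_eq_of_regular ν (lt a) fun f => ?_
    have e1 := (h2 a f).1
    have e2 := h5 (cl f a)
    simp only [cl_apply] at e2
    rw [h5 f, e2] at e1
    exact e1
  · refine map_homeo_eq_of_regular ν (rt a) fun f => ?_
    have e1 := (h2 a f).2
    have e2 := h5 (cr f a)
    simp only [cr_apply] at e2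
    rw [h5 f, e2] at e1
    exact e1

end

end Pool.Agent.MoufangHaar
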