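import Mathlib
import Pool.Agent.Lib.MP_fd6bc6_al.Meas

set_option autoImplicit false

open MeasureTheory

namespace Pool.Agent.MoufangHaar

section AT

variable {L Q : Type*} [MLoop L] [TopologicalSpace L] [MLoop Q]

/-- the homeomorphism preserves the fibres of the map -/
def Compat (φ : L → Q) (e : L ≃ₜ L) : Prop := ∀ x y, φ x = φ y ↔ φ (e x) = φ (e y)

/-- Autotopisms compatible with a map. -/
structure AT (φ : L → Q) where
  U : L ≃ₜ L
  V : L ≃ₜ L
  W : L ≃ₜ L
  mul : ∀ x y, U x * V y = W (x * y)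
  cU : Compat φ U
  cV : Compat φ V

theorem Compat.symm {φ : L → Q} {e : L ≃ₜ L} (h : Compat φ e) : Compat φ e.symm := by
  intro x y
  have := h (e.symm x) (e.symm y)
  simp only [Homeomorph.apply_symm_apply] at this
  exact this.symm

theorem Compat.trans {φ : L → Q} {e e' : L ≃ₜ L} (h : Compat φ e) (h' : Compat φ e') :
    Compat φ (e.trans e') := fun x y => (h x y).trans (h' _ _)

namespace AT

variable {φ : L → Q}

/-- inverse -/
def symm (T : AT φ) : AT φ where
  U := T.U.symm
  V := T.V.symm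
  W := T.W.symm
  mul x y := by
    rw [Homeomorph.eq_symm_apply, ← T.mul]
    simp
  cU := T.cU.symm
  cV := T.cV.symm

/-- composition, first argument acts first -/
def trans (T T' : AT φ) : AT φ where
  U := T.U.trans T'.U
  V := T.V.trans T'.V
  W := T.W.trans T'.W
  mul x y := by
    simp only [Homeomorph.trans_apply]
    rw [T'.mul, T.mul]
  cU := T.cU.trans T'.cU
  cV := T.cV.trans T'.cV

variable [TopMLoop L]

theorem compat_lt (hφ : IsMHom φ) (a : L) : Compat φ (lt a) := by
  intro x y
  change φ x = φ y ↔ φ (a * x) = φ (a * y)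
  rw [hφ.map_mul, hφ.map_mul]
  exact ⟨fun h => by rw [h], fun h => MLoop.mul_left_cancel h⟩

theorem compat_rt (hφ : IsMHom φ) (a : L) : Compat φ (rt a) := by
  intro x y
  change φ x = φ y ↔ φ (x * a) = φ (y * a)
  rw [hφ.map_mul, hφ.map_mul]
  exact ⟨fun h => by rw [h], fun h => MLoop.mul_right_cancel h⟩

/-- the autotopism with middle component the inverse of a left translation -/
def stdL (hφ : IsMHom φ) (a : L) : AT φ where
  U := (lt a).trans (rt a)
  V := (lt a).symm
  W := lt a
  mul x y := MLoop.autL a x y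
  cU := (compat_lt hφ a).trans (compat_rt hφ a)
  cV := (compat_lt hφ a).symm

/-- the autotopism with middle component a right translation -/
def stdR (hφ : IsMHom φ) (a : L) : AT φ where
  U := lt a
  V := rt a
  W := (lt a).trans (rt a)
  mul x y := MLoop.autR a x y
  cU := compat_lt hφ a
  cV := compat_rt hφ a

end AT

end AT

/-- A probability measure concentrated on the kernel of a map, invariant under the
translations by elements of the kernel. -/
structure KerHaar {L Q : Type*} [MLoop L] [TopologicalSpace L] [MeasurableSpace L] [MLoop Q]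
    (φ : L → Q) (m : Measure L) : Prop where
  prob : IsProbabilityMeasure m
  conc : ∀ᵐ x ∂m, φ x = 1
  left : ∀ n, φ n = 1 → ∀ f : C(L, ℝ), ∫ x, f (n * x) ∂m = ∫ x, f x ∂m
  right : ∀ n, φ n = 1 → ∀ f : C(L, ℝ), ∫ x, f (x * n) ∂m = ∫ x, f x ∂m

section

variable {L Q : Type*} [MLoop L] [TopologicalSpace L] [CompactSpace L] [T2Space L] [TopMLoop L]
  [MeasurableSpace L] [BorelSpace L] [MLoop Q] {φ : L → Q} {m : Measure L}

theorem swap_cont (m : Measure L) [IsProbabilityMeasure m] (F : L → L → ℝ)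
    (hF : Continuous (Function.uncurry F)) :
    ∫ x, (∫ y, F x y ∂m) ∂m = ∫ y, (∫ x, F x y ∂m) ∂m :=
  integral_integral_swap_of_hasCompactSupport hF (HasCompactSupport.of_compactSpace _)

/-- composition of a continuous function with a homeomorphism -/
def ch (f : C(L, ℝ)) (e : L ≃ₜ L) : C(L, ℝ) := ⟨fun x => f (e x), f.continuous.comp e.continuous⟩

theorem lemma2 (hφ : IsMHom φ) (hm : KerHaar φ m) (T : AT φ) (hU : φ (T.U 1) = 1)
    (hV : φ (T.V 1) = 1) (f : C(L, ℝ)) : ∫ k, f (T.V k) ∂m = ∫ k, f k ∂m := by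
  have := hm.prob
  set c0 := ∫ k, f (T.W k) ∂m with hc0
  have s1 : ∀ b, φ b = 1 → ∫ k, f (T.U b * T.V k) ∂m = c0 := by
    intro b hb
    have h := hm.left b hb (ch f T.W)
    simp only [ch, ContinuousMap.coe_mk] at h
    rw [hc0, ← h]
    simp only [T.mul]
  have s2 : ∀ b, φ b = 1 → ∫ k, f (b * T.V k) ∂m = c0 := by
    intro b hb
    have h := s1 (T.U.symm b) (by
      have := (T.cU (T.U.symm b) 1)
      rw [hφ.map_one, Homeomorph.apply_symm_apply, hU] at this
      exact this.mpr hb)
    rwa [Homeomorph.apply_symm_apply] at h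
  have s3 : ∫ k, f (T.V k) ∂m = c0 := by
    have h := s2 1 hφ.map_one
    simpa only [MLoop.one_mul] using h
  have s4 : ∫ b, (∫ k, f (b * T.V k) ∂m) ∂m = c0 := by
    have h : ∀ᵐ b ∂m, ∫ k, f (b * T.V k) ∂m = c0 := hm.conc.mono fun b hb => s2 b hb
    rw [integral_congr_ae h]
    simp
  have s5 : ∫ k, (∫ b, f (b * T.V k) ∂m) ∂m = ∫ k, f k ∂m := by
    have h : ∀ᵐ k ∂m, ∫ b, f (b * T.V k) ∂m = ∫ k, f k ∂m := hm.conc.mono fun k hk => by
      refine hm.right (T.V k) ?_ f
      have := (T.cV k 1).mp (by rw [hk, hφ.map_one])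
      rw [this, hV]
    rw [integral_congr_ae h]
    simp
  have hcont : Continuous (Function.uncurry fun b k => f (b * T.V k)) := by
    have h1 : Continuous (fun p : L × L => p.1 * T.V p.2) :=
      TopMLoop.cmul continuous_fst (T.V.continuous.comp continuous_snd)
    exact f.continuous.comp h1
  rw [s3, ← s4, swap_cont m _ hcont, s5]

theorem lemma4 (hφ : IsMHom φ) (hm : KerHaar φ m) (T : AT φ)
    (hV : φ (T.V 1) = 1) (f : C(L, ℝ)) : ∫ k, f (T.V k) ∂m = ∫ k, f k ∂m := by
  have := hm.prob
  set c := T.U 1 with hc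
  set c0 := ∫ k, f (c⁻¹ * T.W k) ∂m with hc0
  have s1 : ∀ b, φ b = 1 → ∫ k, f (c⁻¹ * (T.U b * T.V k)) ∂m = c0 := by
    intro b hb
    have h := hm.left b hb (ch (cl f c⁻¹) T.W)
    simp only [ch, cl, ContinuousMap.coe_mk] at h
    rw [hc0, ← h]
    simp only [T.mul]
  have s2 : ∀ b, φ b = 1 → ∫ k, f (c⁻¹ * ((c * b) * T.V k)) ∂m = c0 := by
    intro b hb
    have h := s1 (T.U.symm (c * b)) (by
      have := (T.cU (T.U.symm (c * b)) 1)
      rw [hφ.map_one, Homeomorph.apply_symm_apply, hφ.map_mul, hb, MLoop.mul_one] at this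
      exact this.mpr rfl)
    rwa [Homeomorph.apply_symm_apply] at h
  have s3 : ∫ k, f (T.V k) ∂m = c0 := by
    have h := s2 1 hφ.map_one
    simpa only [MLoop.mul_one, MLoop.inv_mul_left] using h
  have s4 : ∫ b, (∫ k, f (c⁻¹ * ((c * b) * T.V k)) ∂m) ∂m = c0 := by
    have h : ∀ᵐ b ∂m, ∫ k, f (c⁻¹ * ((c * b) * T.V k)) ∂m = c0 :=
      hm.conc.mono fun b hb => s2 b hb
    rw [integral_congr_ae h]
    simp
  have s5 : ∫ k, (∫ b, f (c⁻¹ * ((c * b) * T.V k)) ∂m) ∂m = ∫ k, f k ∂m := by
    have h : ∀ᵐ k ∂m, ∫ b, f (c⁻¹ * ((c * b) * T.V k)) ∂m = ∫ k, f k ∂m :=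
      hm.conc.mono fun k hk => by
        have hj : φ (T.V k) = 1 := by
          have := (T.cV k 1).mp (by rw [hk, hφ.map_one])
          rw [this, hV]
        let S : AT φ := ((AT.stdL hφ c).symm.trans (AT.stdR hφ (T.V k))).trans (AT.stdL hφ c)
        refine lemma2 hφ hm S ?_ ?_ f
        · change φ ((c * (T.V k * (c⁻¹ * (1 * c⁻¹)))) * c) = 1
          simp only [hφ.map_mul, hφ.map_inv, hj, hφ.map_one, MLoop.one_mul, MLoop.mul_inv_left,
            MLoop.inv_mul_self]
        · change φ (c⁻¹ * ((c * 1) * T.V k)) = 1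
          simp only [hφ.map_mul, hφ.map_inv, hj, hφ.map_one, MLoop.mul_one, MLoop.inv_mul_self]
    rw [integral_congr_ae h]
    simp
  have hcont : Continuous (Function.uncurry fun b k => f (c⁻¹ * ((c * b) * T.V k))) := by
    have h1 : Continuous (fun p : L × L => c⁻¹ * ((c * p.1) * T.V p.2)) :=
      (TopMLoop.continuous_mul_left c⁻¹).comp (TopMLoop.cmul
        ((TopMLoop.continuous_mul_left c).comp continuous_fst)
        (T.V.continuous.comp continuous_snd))
    exact f.continuous.comp h1
  rw [s3, ← s4, swap_cont m _ hcont, s5]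

/-- fibre averages -/
noncomputable def fib (m : Measure L) (f : C(L, ℝ)) (x : L) : ℝ := ∫ k, f (x * k) ∂m

theorem fib_congr (hφ : IsMHom φ) (hm : KerHaar φ m) (f : C(L, ℝ)) {x y : L} (h : φ x = φ y) :
    fib m f x = fib m f y := by
  let S : AT φ := (AT.stdL hφ y).symm.trans (AT.stdL hφ x)
  have h1 := lemma4 hφ hm S (by
    change φ (x⁻¹ * (y * 1)) = 1
    simp only [hφ.map_mul, hφ.map_inv, hφ.map_one, MLoop.mul_one, h, MLoop.inv_mul_self]) (cl f x)
  have h2 : ∀ k, (cl f x) (S.V k) = f (y * k) := fun k => by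
    change f (x * (x⁻¹ * (y * k))) = _
    rw [MLoop.mul_inv_left]
  simp only [h2, cl_apply] at h1
  exact h1.symm

theorem fib_left (hφ : IsMHom φ) (hm : KerHaar φ m) (f : C(L, ℝ)) (a x : L) :
    fib m (cl f a) x = fib m f (a * x) := by
  let S : AT φ := ((AT.stdL hφ x).symm.trans (AT.stdL hφ a).symm).trans (AT.stdL hφ (a * x))
  have h1 := lemma4 hφ hm S (by
    change φ ((a * x)⁻¹ * (a * (x * 1))) = 1
    rw [MLoop.mul_one, MLoop.inv_mul_self, hφ.map_one]) (cl f (a * x))
  have h2 : ∀ k, (cl f (a * x)) (S.V k) = f (a * (x * k)) := fun k => by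
    change f ((a * x) * ((a * x)⁻¹ * (a * (x * k)))) = _
    rw [MLoop.mul_inv_left]
  simp only [h2, cl_apply] at h1
  exact h1

theorem fib_right (hφ : IsMHom φ) (hm : KerHaar φ m) (f : C(L, ℝ)) (a x : L) :
    fib m (cr f a) x = fib m f (x * a) := by
  let S : AT φ := ((AT.stdL hφ x).symm.trans (AT.stdR hφ a)).trans (AT.stdL hφ (x * a))
  have h1 := lemma4 hφ hm S (by
    change φ ((x * a)⁻¹ * ((x * 1) * a)) = 1
    rw [MLoop.mul_one, MLoop.inv_mul_self, hφ.map_one]) (cl f (x * a))
  have h2 : ∀ k, (cl f (x * a)) (S.V k) = f ((x * k) * a) := fun k => by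
    change f ((x * a) * ((x * a)⁻¹ * ((x * k) * a))) = _
    rw [MLoop.mul_inv_left]
  simp only [h2, cl_apply] at h1
  exact h1

theorem fib_continuous (m : Measure L) [IsProbabilityMeasure m] (f : C(L, ℝ)) :
    Continuous (fib m f) := by
  refine continuous_param m (fun x k => f (x * k)) ?_
  exact f.continuous.comp (TopMLoop.cont_mul)

end

/-- Extension theorem: if the kernel and the image have invariant integrals, so does the
whole loop. -/
theorem extension {L Q : Type*} [MLoop L] [TopologicalSpace L] [CompactSpace L] [T2Space L]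
    [TopMLoop L] [MeasurableSpace L] [BorelSpace L] [MLoop Q] [TopologicalSpace Q] [T2Space Q]
    [MeasurableSpace Q] [BorelSpace Q] (φ : L → Q) (hφ : IsMHom φ) (hc : Continuous φ)
    (hs : Function.Surjective φ) (m : Measure L) (hm : KerHaar φ m) (hQ : HasInt Q) :
    HasInt L := by
  have hprob := hm.prob
  obtain ⟨μ, hμ, hinv⟩ := hQ
  have hquot : Topology.IsQuotientMap φ := hc.isClosedMap.isQuotientMap hc hs
  have : CompactSpace Q := by
    rw [← isCompact_univ_iff, ← hs.range_eq]
    exact isCompact_range hc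
  -- the descended function
  have hex : ∀ f : C(L, ℝ), ∃ g : C(Q, ℝ), ∀ x, g (φ x) = fib m f x := by
    intro f
    let g : Q → ℝ := fun q => fib m f (Function.surjInv hs q)
    have hg : ∀ x, g (φ x) = fib m f x := fun x =>
      fib_congr hφ hm f (Function.surjInv_eq hs (φ x))
    have hgc : Continuous g := by
      rw [hquot.continuous_iff]
      have : g ∘ φ = fib m f := funext hg
      rw [this]
      exact fib_continuous m f
    exact ⟨⟨g, hgc⟩, hg⟩
  choose G hG using hex
  obtain ⟨ν, hν, hint⟩ := exists_of_functional (X := L) (fun f => ∫ q, G f q ∂μ)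
    (fun f g => by
      have : ∀ q, G (f + g) q = G f q + G g q := fun q => by
        obtain ⟨x, rfl⟩ := hs q
        rw [hG, hG, hG]
        exact integral_add (integrable_cont (cl f x) m) (integrable_cont (cl g x) m)
      simp only [this]
      exact integral_add (integrable_cont (G f) μ) (integrable_cont (G g) μ))
    (fun c f => by
      have : ∀ q, G (c • f) q = c * G f q := fun q => by
        obtain ⟨x, rfl⟩ := hs q
        rw [hG, hG]
        exact integral_const_mul _ _
      simp only [this]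
      exact integral_const_mul _ _)
    (fun f g hfg => by
      refine integral_mono (integrable_cont (G f) μ) (integrable_cont (G g) μ) fun q => ?_
      obtain ⟨x, rfl⟩ := hs q
      change G f (φ x) ≤ G g (φ x)
      rw [hG, hG]
      exact integral_mono (integrable_cont (cl f x) m) (integrable_cont (cl g x) m)
        fun k => hfg _)
    (by
      have : ∀ q, G 1 q = 1 := fun q => by
        obtain ⟨x, rfl⟩ := hs q
        rw [hG]
        unfold fib
        simp
      simp [this])
  refine ⟨ν, hν, fun a f => ⟨?_, ?_⟩⟩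
  · have h1 := hint (cl f a)
    simp only [cl_apply] at h1
    rw [h1, hint f, ← (hinv (φ a) (G f)).1]
    congr 1
    funext q
    obtain ⟨x, rfl⟩ := hs q
    rw [hG, ← hφ.map_mul, hG, fib_left hφ hm]
  · have h1 := hint (cr f a)
    simp only [cr_apply] at h1
    rw [h1, hint f, ← (hinv (φ a) (G f)).2]
    congr 1
    funext q
    obtain ⟨x, rfl⟩ := hs q
    rw [hG, ← hφ.map_mul, hG, fib_right hφ hm]

end Pool.Agent.MoufangHaar
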