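import Mathlib
import Pool.Agent.Lib.MP_fd6bc6_al.Ext
import Pool.Agent.Lib.MP_fd6bc6_al.Mg.G016

set_option autoImplicit false

open MeasureTheory Topology

namespace Pool.Agent.MoufangHaar

section

variable {L : Type*} [MLoop L] [TopologicalSpace L] [CompactSpace L] [TopMLoop L]
  [MeasurableSpace L] [BorelSpace L]

/-- a left invariant probability measure is also right invariant (in integral form) -/
theorem hasInt_of_left (μ : Measure L) [IsProbabilityMeasure μ]
    (h : ∀ (a : L) (f : C(L, ℝ)), ∫ x, f (a * x) ∂μ = ∫ x, f x ∂μ) : HasInt L := by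
  have hinvm : Measurable (fun x : L => x⁻¹) := (TopMLoop.cont_inv (L := L)).measurable
  let ρ : Measure L := μ.map (fun x => x⁻¹)
  have hρ : IsProbabilityMeasure ρ := Measure.isProbabilityMeasure_map hinvm.aemeasurable
  have hρi : ∀ f : C(L, ℝ), ∫ x, f x ∂ρ = ∫ x, f x⁻¹ ∂μ := fun f =>
    integral_map hinvm.aemeasurable (aesm f _)
  have hρr : ∀ (a : L) (f : C(L, ℝ)), ∫ x, f (x * a) ∂ρ = ∫ x, f x ∂ρ := by
    intro a f
    have h1 := hρi (cr f a)
    simp only [cr_apply] at h1
    rw [h1, hρi f]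
    have h2 := h a⁻¹ (f.comp ⟨fun x => x⁻¹, TopMLoop.cont_inv⟩)
    simp only [ContinuousMap.comp_apply, ContinuousMap.coe_mk] at h2
    rw [← h2]
    congr 1
    funext x
    rw [MLoop.mul_inv_rev, MLoop.inv_inv]
  have hF : ∀ f : C(L, ℝ), Continuous (Function.uncurry fun x y => f (x * y)) := fun f =>
    f.continuous.comp TopMLoop.cont_mul
  have heq : ∀ f : C(L, ℝ), ∫ x, f x ∂μ = ∫ x, f x ∂ρ := by
    intro f
    have h1 : ∫ x, (∫ y, f (x * y) ∂μ) ∂ρ = ∫ y, (∫ x, f (x * y) ∂ρ) ∂μ :=
      integral_integral_swap_of_hasCompactSupport (hF f) (HasCompactSupport.of_compactSpace _)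
    simp only [h _ f, hρr _ f] at h1
    simpa using h1
  refine ⟨μ, inferInstance, fun a f => ⟨h a f, ?_⟩⟩
  have h1 := heq (cr f a)
  simp only [cr_apply] at h1
  rw [h1, hρr, heq]

/-- compact totally disconnected Moufang loops -/
theorem hasInt_of_td [T2Space L] [TotallyDisconnectedSpace L] : HasInt L := by
  obtain ⟨μ, hμ⟩ := exists_of_approx (X := L) (ι := L × C(L, ℝ))
    (fun p => cl p.2 p.1) (fun p => p.2) (by
      classical
      intro s ε hε
      obtain ⟨μ, hμ⟩ := approx_left (s.image Prod.snd) ε hε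
      refine ⟨μ, fun p hp => ?_⟩
      exact hμ p.2 (Finset.mem_image_of_mem _ hp) p.1)
  exact hasInt_of_left (μ : Measure L) fun a f => hμ (a, f)

/-- images -/
theorem hasInt_image {Q : Type*} [MLoop Q] [TopologicalSpace Q] [TopMLoop Q] [MeasurableSpace Q]
    [BorelSpace Q] (φ : L → Q) (hφ : IsMHom φ) (hc : Continuous φ)
    (hs : Function.Surjective φ) (h : HasInt L) : HasInt Q := by
  have : CompactSpace Q := by
    rw [← isCompact_univ_iff, ← hs.range_eq]
    exact isCompact_range hc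
  obtain ⟨μ, hμ, hinv⟩ := h
  have key : ∀ g : C(Q, ℝ), ∫ x, g x ∂(μ.map φ) = ∫ x, g (φ x) ∂μ := fun g =>
    integral_map hc.measurable.aemeasurable (aesm g _)
  refine ⟨μ.map φ, Measure.isProbabilityMeasure_map hc.measurable.aemeasurable, fun q f => ?_⟩
  obtain ⟨a, rfl⟩ := hs q
  have h0 := hinv a (f.comp ⟨φ, hc⟩)
  simp only [ContinuousMap.comp_apply, ContinuousMap.coe_mk] at h0
  have h1 := key (cl f (φ a))
  have h2 := key (cr f (φ a))
  simp only [cl_apply] at h1
  simp only [cr_apply] at h2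
  simp only [hφ.map_mul] at h0
  rw [h1, h2, key f]
  exact h0

variable [T2Space L]

/-- an invariant measure on the loop gives one on the kernel of a continuous map -/
theorem exists_kerHaar {Q : Type*} [MLoop Q] [TopologicalSpace Q] [T2Space Q]
    (φ : L → Q) (hφ : IsMHom φ) (hc : Continuous φ) (h : HasHaar L) :
    ∃ m : Measure L, KerHaar φ m ∧ m.Regular := by
  classical
  obtain ⟨μ, hμ, hinv⟩ := h
  -- neighbourhoods of the kernel have positive measure
  have hpos : ∀ V : Set Q, IsOpen V → (1 : Q) ∈ V → μ (φ ⁻¹' V) ≠ 0 := by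
    intro V hV h1V hz
    have hopen : ∀ x : L, IsOpen ((fun y => x⁻¹ * y) ⁻¹' (φ ⁻¹' V)) := fun x =>
      (hV.preimage hc).preimage (TopMLoop.continuous_mul_left x⁻¹)
    obtain ⟨c, hcov⟩ := isCompact_univ.elim_finite_subcover
      (fun x : L => (fun y => x⁻¹ * y) ⁻¹' (φ ⁻¹' V)) hopen (fun x _ => by
        refine Set.mem_iUnion.mpr ⟨x, ?_⟩
        change φ (x⁻¹ * x) ∈ V
        rw [MLoop.inv_mul_self, hφ.map_one]
        exact h1V)
    have hle : μ Set.univ ≤ ∑ x ∈ c, μ ((fun y => x⁻¹ * y) ⁻¹' (φ ⁻¹' V)) :=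
      (measure_mono hcov).trans (measure_biUnion_finset_le _ _)
    have hzero : ∀ x ∈ c, μ ((fun y => x⁻¹ * y) ⁻¹' (φ ⁻¹' V)) = 0 := fun x _ => by
      rw [← Measure.map_apply (TopMLoop.continuous_mul_left x⁻¹).measurable
        (hV.preimage hc).measurableSet, (hinv x⁻¹).1]
      exact hz
    rw [Finset.sum_eq_zero hzero, measure_univ] at hle
    simp at hle
  -- normalised restrictions
  let mV : Set Q → Measure L := fun V => (μ (φ ⁻¹' V))⁻¹ • μ.restrict (φ ⁻¹' V)
  have hprobV : ∀ V : Set Q, IsOpen V → (1 : Q) ∈ V → IsProbabilityMeasure (mV V) := by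
    intro V hV h1V
    constructor
    simp only [mV, Measure.smul_apply, Measure.restrict_apply_univ, smul_eq_mul]
    exact ENNReal.inv_mul_cancel (hpos V hV h1V) (measure_ne_top _ _)
  have hleftV : ∀ V : Set Q, IsOpen V → ∀ n, φ n = 1 → ∀ f : C(L, ℝ),
      ∫ x, f (n * x) ∂(mV V) = ∫ x, f x ∂(mV V) := by
    intro V hV n hn f
    simp only [mV, integral_smul_measure]
    congr 1
    have hpre : (fun y => n * y) ⁻¹' (φ ⁻¹' V) = φ ⁻¹' V := by
      ext y
      simp only [Set.mem_preimage, hφ.map_mul, hn, MLoop.one_mul]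
    have hmp : MeasurePreserving (fun y => n * y) μ μ :=
      ⟨(TopMLoop.continuous_mul_left n).measurable, (hinv n).1⟩
    have h2 := hmp.setIntegral_preimage_emb (lt n).measurableEmbedding f (φ ⁻¹' V)
    rw [hpre] at h2
    exact h2
  have hrightV : ∀ V : Set Q, IsOpen V → ∀ n, φ n = 1 → ∀ f : C(L, ℝ),
      ∫ x, f (x * n) ∂(mV V) = ∫ x, f x ∂(mV V) := by
    intro V hV n hn f
    simp only [mV, integral_smul_measure]
    congr 1
    have hpre : (fun y => y * n) ⁻¹' (φ ⁻¹' V) = φ ⁻¹' V := by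
      ext y
      simp only [Set.mem_preimage, hφ.map_mul, hn, MLoop.mul_one]
    have hmp : MeasurePreserving (fun y => y * n) μ μ :=
      ⟨(TopMLoop.continuous_mul_right n).measurable, (hinv n).2⟩
    have h2 := hmp.setIntegral_preimage_emb (rt n).measurableEmbedding f (φ ⁻¹' V)
    rw [hpre] at h2
    exact h2
  -- the system of equations
  let N : Set L := {x | φ x = 1}
  have hN : IsClosed N := isClosed_eq hc continuous_const
  let ι := (N × C(L, ℝ)) ⊕ (N × C(L, ℝ)) ⊕ {f : C(L, ℝ) // ∀ x ∈ N, f x = 0}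
  let F : ι → C(L, ℝ) := fun i => match i with
    | Sum.inl p => cl p.2 p.1.1
    | Sum.inr (Sum.inl p) => cr p.2 p.1.1
    | Sum.inr (Sum.inr f) => f.1
  let G : ι → C(L, ℝ) := fun i => match i with
    | Sum.inl p => p.2
    | Sum.inr (Sum.inl p) => p.2
    | Sum.inr (Sum.inr _) => 0
  obtain ⟨m, hm⟩ := exists_of_approx F G (by
    intro s ε hε
    -- choose a small neighbourhood
    have hch : ∃ V : Set Q, IsOpen V ∧ (1 : Q) ∈ V ∧ ∀ i ∈ s, ∀ f, i = Sum.inr (Sum.inr f) →
        ∀ x, φ x ∈ V → |f.1 x| ≤ ε := by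
      let K : ι → Set Q := fun i => match i with
        | Sum.inl _ => ∅
        | Sum.inr (Sum.inl _) => ∅
        | Sum.inr (Sum.inr f) => φ '' {x | ε ≤ |f.1 x|}
      have hK : ∀ i, IsClosed (K i) := by
        rintro (p | p | f)
        · exact isClosed_empty
        · exact isClosed_empty
        · exact ((isClosed_le continuous_const f.1.continuous.abs).isCompact.image hc).isClosed
      refine ⟨(⋃ i ∈ s, K i)ᶜ, ?_, ?_, ?_⟩
      · exact (s.finite_toSet.isClosed_biUnion fun i _ => hK i).isOpen_compl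
      · simp only [Set.mem_compl_iff, Set.mem_iUnion, not_exists]
        rintro (p | p | f) _ h
        · exact h
        · exact h
        · obtain ⟨x, hx, hx1⟩ := h
          have h0 : f.1 x = 0 := f.2 x hx1
          have hx' : ε ≤ |f.1 x| := hx
          rw [h0, abs_zero] at hx'
          linarith
      · rintro i hi f rfl x hx
        by_contra hlt
        push Not at hlt
        apply hx
        simp only [Set.mem_iUnion]
        exact ⟨_, hi, x, hlt.le, rfl⟩
    obtain ⟨V, hV, h1V, hVs⟩ := hch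
    have hp := hprobV V hV h1V
    refine ⟨⟨mV V, hp⟩, ?_⟩
    rintro (p | p | f) hi
    · change |∫ x, p.2 (p.1.1 * x) ∂(mV V) - ∫ x, p.2 x ∂(mV V)| ≤ ε
      rw [hleftV V hV p.1.1 p.1.2 p.2, sub_self, abs_zero]
      exact hε.le
    · change |∫ x, p.2 (x * p.1.1) ∂(mV V) - ∫ x, p.2 x ∂(mV V)| ≤ ε
      rw [hrightV V hV p.1.1 p.1.2 p.2, sub_self, abs_zero]
      exact hε.le
    · change |∫ x, f.1 x ∂(mV V) - ∫ x, (0 : ℝ) ∂(mV V)| ≤ ε
      rw [integral_zero, sub_zero]
      have hae : ∀ᵐ x ∂(mV V), ‖f.1 x‖ ≤ ε := by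
        have h3 : ∀ᵐ x ∂(μ.restrict (φ ⁻¹' V)), ‖f.1 x‖ ≤ ε := by
          rw [ae_restrict_iff' (hV.preimage hc).measurableSet]
          exact Filter.Eventually.of_forall fun x hx => hVs _ hi f rfl x hx
        exact Measure.ae_smul_measure h3 _
      have h4 := norm_integral_le_of_norm_le_const hae
      simpa using h4)
  obtain ⟨ν, hreg, hνp, hν⟩ := exists_regular (m : Measure L)
  refine ⟨ν, ⟨hνp, ?_, ?_, ?_⟩, hreg⟩
  · -- concentration
    rw [ae_iff]
    change ν Nᶜ = 0
    rw [hN.isOpen_compl.measure_eq_iSup_isCompact]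
    simp only [ENNReal.iSup_eq_zero]
    intro K hKN hK
    obtain ⟨f, hfN, hfK, hf01⟩ := exists_continuous_zero_one_of_isClosed hN hK.isClosed
      (Set.disjoint_left.mpr fun x hx hxK => hKN hxK hx)
    have hzero : ∫ x, f x ∂ν = 0 := by
      rw [← hν f]
      have := hm (Sum.inr (Sum.inr ⟨f, fun x hx => hfN hx⟩))
      change ∫ x, f x ∂(m : Measure L) = ∫ x, (0 : ℝ) ∂(m : Measure L) at this
      rw [this, integral_zero]
    have hle : ν.real K ≤ ∫ x, f x ∂ν := by
      rw [← integral_indicator_one hK.measurableSet]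
      refine integral_mono ((integrable_const (1 : ℝ)).indicator hK.measurableSet)
        (integrable_cont f ν) fun x => ?_
      by_cases hx : x ∈ K
      · simp only [Set.indicator_of_mem hx, Pi.one_apply]
        rw [hfK hx]
        rfl
      · simp only [Set.indicator_of_notMem hx]
        exact (hf01 x).1
    rw [hzero] at hle
    have h5 : ν.real K = 0 := le_antisymm hle measureReal_nonneg
    rwa [measureReal_eq_zero_iff] at h5
  · intro n hn f
    have h1 := hm (Sum.inl (⟨n, hn⟩, f))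
    change ∫ x, (cl f n) x ∂(m : Measure L) = ∫ x, f x ∂(m : Measure L) at h1
    rw [hν, hν] at h1
    exact h1
  · intro n hn f
    have h1 := hm (Sum.inr (Sum.inl (⟨n, hn⟩, f)))
    change ∫ x, (cr f n) x ∂(m : Measure L) = ∫ x, f x ∂(m : Measure L) at h1
    rw [hν, hν] at h1
    exact h1

end

end Pool.Agent.MoufangHaar
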