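import Mathlib
import Pool.Agent.Lib.MP_fd6bc6_al.Comp

set_option autoImplicit false

open MeasureTheory Topology

namespace Pool.Agent.MoufangHaar

/-- Positive normalised functionals. -/
structure Mean (X : Type*) [TopologicalSpace X] where
  toFun : C(X, ℝ) → ℝ
  add : ∀ f g, toFun (f + g) = toFun f + toFun g
  smul : ∀ (c : ℝ) f, toFun (c • f) = c * toFun f
  mono : ∀ f g, f ≤ g → toFun f ≤ toFun g
  one : toFun 1 = 1

namespace Mean

variable {X : Type*} [TopologicalSpace X]

instance : CoeFun (Mean X) (fun _ => C(X, ℝ) → ℝ) := ⟨Mean.toFun⟩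

theorem le_add (Λ : Mean X) (f g : C(X, ℝ)) (ε : ℝ) (h : ∀ x, f x ≤ g x + ε) :
    Λ f ≤ Λ g + ε := by
  have h1 := Λ.mono f (g + ε • 1) (fun x => by simpa using h x)
  rwa [Λ.add, Λ.smul, Λ.one, mul_one] at h1

theorem abs_sub_le (Λ : Mean X) (f g : C(X, ℝ)) (ε : ℝ) (h : ∀ x, |f x - g x| ≤ ε) :
    |Λ f - Λ g| ≤ ε := by
  rw [abs_le]
  have h1 := Λ.le_add f g ε fun x => by linarith [(abs_le.mp (h x)).2]
  have h2 := Λ.le_add g f ε fun x => by linarith [(abs_le.mp (h x)).1]
  constructor <;> linarith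

theorem const (Λ : Mean X) (c : ℝ) : Λ (ContinuousMap.const X c) = c := by
  have h : (ContinuousMap.const X c) = c • (1 : C(X, ℝ)) := by
    ext x
    simp
  rw [h, Λ.smul, Λ.one, mul_one]

/-- the mean of a probability measure -/
noncomputable def ofMeasure [CompactSpace X] [MeasurableSpace X] [BorelSpace X] (μ : Measure X)
    [IsProbabilityMeasure μ] : Mean X where
  toFun f := ∫ x, f x ∂μ
  add f g := integral_add (integrable_cont f μ) (integrable_cont g μ)
  smul c f := integral_const_mul _ _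
  mono f g hfg := integral_mono (integrable_cont f μ) (integrable_cont g μ) hfg
  one := by simp

theorem exists_measure [CompactSpace X] [T2Space X] [MeasurableSpace X] [BorelSpace X]
    (Λ : Mean X) : ∃ μ : Measure X, IsProbabilityMeasure μ ∧ ∀ f : C(X, ℝ), ∫ x, f x ∂μ = Λ f :=
  exists_of_functional Λ.toFun Λ.add Λ.smul Λ.mono Λ.one

/-- Evaluation of a mean on a continuous family. -/
theorem continuous_family [CompactSpace X] {Y : Type*} [TopologicalSpace Y] (Λ : Mean X)
    (F : C(Y, C(X, ℝ))) : Continuous (fun y => Λ (F y)) := by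
  rw [continuous_iff_continuousAt]
  intro y
  rw [ContinuousAt, Metric.tendsto_nhds]
  intro ε hε
  have h1 : ∀ᶠ z in 𝓝 y, dist (F z) (F y) < ε / 2 :=
    Metric.tendsto_nhds.mp F.continuous.continuousAt (ε / 2) (half_pos hε)
  filter_upwards [h1] with z hz
  rw [Real.dist_eq]
  have h2 := Λ.abs_sub_le (F z) (F y) (ε / 2) fun x => by
    have h3 := ContinuousMap.dist_apply_le_dist (f := F z) (g := F y) x
    rw [Real.dist_eq] at h3
    linarith
  linarith

end Mean

/-- Existence of an invariant mean. -/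
def HasMean (L : Type*) [MLoop L] [TopologicalSpace L] [TopMLoop L] : Prop :=
  ∃ Λ : Mean L, ∀ (a : L) (f : C(L, ℝ)), Λ (cl f a) = Λ f ∧ Λ (cr f a) = Λ f

theorem mean_of_approx {X : Type*} [TopologicalSpace X] [CompactSpace X] [T2Space X] {ι : Type*}
    (f g : ι → C(X, ℝ))
    (h : ∀ (s : Finset ι) (ε : ℝ), 0 < ε → ∃ Λ : Mean X, ∀ i ∈ s, |Λ (f i) - Λ (g i)| ≤ ε) :
    ∃ Λ : Mean X, ∀ i, Λ (f i) = Λ (g i) := by
  let : MeasurableSpace X := borel X
  have : BorelSpace X := ⟨rfl⟩
  obtain ⟨μ, hμ⟩ := exists_of_approx f g (by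
    intro s ε hε
    obtain ⟨Λ, hΛ⟩ := h s ε hε
    obtain ⟨μ, hp, hμ⟩ := Λ.exists_measure
    refine ⟨⟨μ, hp⟩, fun i hi => ?_⟩
    change |∫ x, f i x ∂μ - ∫ x, g i x ∂μ| ≤ ε
    rw [hμ, hμ]
    exact hΛ i hi)
  exact ⟨Mean.ofMeasure (μ : Measure X), hμ⟩

theorem hasInt_iff_hasMean {L : Type*} [MLoop L] [TopologicalSpace L] [TopMLoop L]
    [CompactSpace L] [T2Space L] [MeasurableSpace L] [BorelSpace L] : HasInt L ↔ HasMean L := by
  constructor
  · rintro ⟨μ, hp, hμ⟩
    exact ⟨Mean.ofMeasure μ, fun a f => hμ a f⟩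
  · rintro ⟨Λ, hΛ⟩
    obtain ⟨μ, hp, hμ⟩ := Λ.exists_measure
    refine ⟨μ, hp, fun a f => ⟨?_, ?_⟩⟩
    · have h1 := hμ (cl f a)
      simp only [cl_apply] at h1
      rw [h1, hμ, (hΛ a f).1]
    · have h1 := hμ (cr f a)
      simp only [cr_apply] at h1
      rw [h1, hμ, (hΛ a f).2]

/-- Images of loops with invariant means. -/
theorem HasMean.image {L Q : Type*} [MLoop L] [TopologicalSpace L] [TopMLoop L]
    [MLoop Q] [TopologicalSpace Q] [TopMLoop Q] (φ : L → Q) (hφ : IsMHom φ)
    (hc : Continuous φ) (hs : Function.Surjective φ) (h : HasMean L) : HasMean Q := by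
  obtain ⟨Λ, hΛ⟩ := h
  refine ⟨⟨fun f => Λ (f.comp ⟨φ, hc⟩), fun f g => Λ.add (f.comp ⟨φ, hc⟩) (g.comp ⟨φ, hc⟩),
    fun c f => Λ.smul c (f.comp ⟨φ, hc⟩),
    fun f g hfg => Λ.mono _ _ fun x => hfg _, Λ.one⟩, fun q f => ?_⟩
  obtain ⟨a, rfl⟩ := hs q
  constructor
  · change Λ ((cl f (φ a)).comp ⟨φ, hc⟩) = Λ (f.comp ⟨φ, hc⟩)
    rw [← (hΛ a (f.comp ⟨φ, hc⟩)).1]
    congr 1
    ext x
    change f (φ a * φ x) = f (φ (a * x))
    rw [hφ.map_mul]
  · change Λ ((cr f (φ a)).comp ⟨φ, hc⟩) = Λ (f.comp ⟨φ, hc⟩)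
    rw [← (hΛ a (f.comp ⟨φ, hc⟩)).2]
    congr 1
    ext x
    change f (φ x * φ a) = f (φ (x * a))
    rw [hφ.map_mul]

/-- products -/
instance prodMLoop {A B : Type*} [MLoop A] [MLoop B] : MLoop (A × B) where
  one_mul' x := Prod.ext (MLoop.one_mul x.1) (MLoop.one_mul x.2)
  mul_one' x := Prod.ext (MLoop.mul_one x.1) (MLoop.mul_one x.2)
  inv_mul_cancel_left' x y := Prod.ext (MLoop.inv_mul_left x.1 y.1) (MLoop.inv_mul_left x.2 y.2)
  mul_inv_cancel_left' x y := Prod.ext (MLoop.mul_inv_left x.1 y.1) (MLoop.mul_inv_left x.2 y.2)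
  moufang' x y z := Prod.ext (MLoop.moufang x.1 y.1 z.1) (MLoop.moufang x.2 y.2 z.2)

instance piMLoop {I : Type*} {K : I → Type*} [∀ i, MLoop (K i)] : MLoop (∀ i, K i) where
  one_mul' x := funext fun i => MLoop.one_mul (x i)
  mul_one' x := funext fun i => MLoop.mul_one (x i)
  inv_mul_cancel_left' x y := funext fun i => MLoop.inv_mul_left (x i) (y i)
  mul_inv_cancel_left' x y := funext fun i => MLoop.mul_inv_left (x i) (y i)
  moufang' x y z := funext fun i => MLoop.moufang (x i) (y i) (z i)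

instance prodTopMLoop {A B : Type*} [MLoop A] [MLoop B] [TopologicalSpace A]
    [TopologicalSpace B] [TopMLoop A] [TopMLoop B] : TopMLoop (A × B) where
  cont_mul := by
    refine Continuous.prodMk ?_ ?_
    · exact TopMLoop.cmul (continuous_fst.comp continuous_fst) (continuous_fst.comp continuous_snd)
    · exact TopMLoop.cmul (continuous_snd.comp continuous_fst) (continuous_snd.comp continuous_snd)
  cont_inv := by
    refine Continuous.prodMk ?_ ?_
    · exact TopMLoop.cinv continuous_fst
    · exact TopMLoop.cinv continuous_snd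

instance piTopMLoop {I : Type*} {K : I → Type*} [∀ i, MLoop (K i)]
    [∀ i, TopologicalSpace (K i)] [∀ i, TopMLoop (K i)] : TopMLoop (∀ i, K i) where
  cont_mul := continuous_pi fun i => TopMLoop.cmul
    ((continuous_apply i).comp continuous_fst) ((continuous_apply i).comp continuous_snd)
  cont_inv := continuous_pi fun i => TopMLoop.cinv (continuous_apply i)

/-- partial evaluation against a mean of the second of two variables -/
noncomputable def avg {A B : Type*} [TopologicalSpace A] [TopologicalSpace B] [CompactSpace B]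
    (Λ : Mean B) (F : C(A × B, ℝ)) : C(A, ℝ) :=
  ⟨fun a => Λ (F.curry a), Λ.continuous_family F.curry⟩

theorem HasMean.prod {A B : Type*} [MLoop A] [MLoop B] [TopologicalSpace A]
    [TopologicalSpace B] [TopMLoop A] [TopMLoop B] [CompactSpace B]
    (hA : HasMean A) (hB : HasMean B) : HasMean (A × B) := by
  obtain ⟨Λ, hΛ⟩ := hA
  obtain ⟨M, hM⟩ := hB
  refine ⟨⟨fun f => Λ (avg M f), fun f g => ?_, fun c f => ?_, fun f g hfg => ?_, ?_⟩,
    fun a f => ⟨?_, ?_⟩⟩
  · rw [← Λ.add]
    congr 1
    ext x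
    exact M.add (f.curry x) (g.curry x)
  · rw [← Λ.smul]
    congr 1
    ext x
    exact M.smul c (f.curry x)
  · exact Λ.mono _ _ fun x => M.mono _ _ fun y => hfg (x, y)
  · have h : avg M (1 : C(A × B, ℝ)) = 1 := by
      ext x
      exact M.one
    rw [h, Λ.one]
  · change Λ (avg M (cl f a)) = Λ (avg M f)
    rw [← (hΛ a.1 (avg M f)).1]
    congr 1
    ext x
    change M ((cl f a).curry x) = M (f.curry (a.1 * x))
    rw [← (hM a.2 (f.curry (a.1 * x))).1]
    rfl
  · change Λ (avg M (cr f a)) = Λ (avg M f)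
    rw [← (hΛ a.1 (avg M f)).2]
    congr 1
    ext x
    change M ((cr f a).curry x) = M (f.curry (x * a.1))
    rw [← (hM a.2 (f.curry (x * a.1))).2]
    rfl

/-- continuous functions on a product depend up to a small error on finitely many
coordinates -/
theorem exists_finset_coord {I : Type*} {K : I → Type*} [∀ i, TopologicalSpace (K i)]
    [∀ i, CompactSpace (K i)] (f : C(∀ i, K i, ℝ)) (ε : ℝ) (hε : 0 < ε) :
    ∃ F : Finset I, ∀ x y : ∀ i, K i, (∀ i ∈ F, x i = y i) → |f x - f y| ≤ ε := by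
  classical
  have h1 : ∀ x : ∀ i, K i, ∃ (F : Finset I) (u : ∀ i, Set (K i)),
      (∀ i ∈ F, IsOpen (u i) ∧ x i ∈ u i) ∧
      (F : Set I).pi u ⊆ {y | |f y - f x| < ε / 2} := by
    intro x
    have ho : IsOpen {y | |f y - f x| < ε / 2} :=
      isOpen_lt (f.continuous.sub continuous_const).abs continuous_const
    exact isOpen_pi_iff.mp ho x (by
      change |f x - f x| < ε / 2
      rw [sub_self, abs_zero]
      linarith)
  choose F u hu hsub using h1
  obtain ⟨c, hc⟩ := isCompact_univ.elim_finite_subcover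
    (fun x : ∀ i, K i => ((F x : Finset I) : Set I).pi (u x))
    (fun x => isOpen_set_pi (F x).finite_toSet fun i hi => (hu x i hi).1)
    (fun x _ => Set.mem_iUnion.mpr ⟨x, fun i hi => (hu x i hi).2⟩)
  refine ⟨c.biUnion F, fun x y hxy => ?_⟩
  have hx := hc (Set.mem_univ x)
  simp only [Set.mem_iUnion] at hx
  obtain ⟨z, hz, hxz⟩ := hx
  have hyz : y ∈ ((F z : Finset I) : Set I).pi (u z) := by
    intro i hi
    rw [← hxy i (Finset.mem_biUnion.mpr ⟨z, hz, hi⟩)]
    exact hxz i hi
  have h5 : |f x - f z| < ε / 2 := hsub z hxz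
  have h6 : |f y - f z| < ε / 2 := hsub z hyz
  rw [abs_lt] at h5 h6
  rw [abs_le]
  constructor <;> linarith [h5.1, h5.2, h6.1, h6.2]

section Pi

variable {I : Type*} {K : I → Type*} [∀ i, MLoop (K i)] [∀ i, TopologicalSpace (K i)]
  [∀ i, TopMLoop (K i)] [∀ i, CompactSpace (K i)]

/-- a mean invariant under translations supported on a finite set of coordinates -/
theorem exists_mean_finset (h : ∀ i, HasMean (K i)) (F : Finset I) :
    ∃ Λ : Mean (∀ i, K i), ∀ (a : ∀ i, K i), (∀ i, i ∉ F → a i = 1) → ∀ f : C(∀ i, K i, ℝ),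
      Λ (cl f a) = Λ f ∧ Λ (cr f a) = Λ f := by
  classical
  induction F using Finset.induction_on with
  | empty =>
    refine ⟨⟨fun f => f 1, fun f g => rfl, fun c f => rfl, fun f g hfg => hfg 1, rfl⟩, ?_⟩
    intro a ha f
    have ha1 : a = 1 := funext fun i => ha i (by simp)
    subst ha1
    constructor
    · change f (1 * 1) = f 1
      rw [MLoop.one_mul]
    · change f (1 * 1) = f 1
      rw [MLoop.one_mul]
  | insert j F hj ih =>
    obtain ⟨Λ, hΛ⟩ := ih
    obtain ⟨M, hM⟩ := h j
    -- the family of updated functions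
    let upd : C(K j × (∀ i, K i), ∀ i, K i) := ⟨fun p => Function.update p.2 j p.1,
      continuous_snd.update j continuous_fst⟩
    refine ⟨⟨fun f => M (avg Λ (f.comp upd)), fun f g => ?_, fun c f => ?_, fun f g hfg => ?_, ?_⟩,
      fun a ha f => ⟨?_, ?_⟩⟩
    · rw [← M.add]
      congr 1
      ext x
      exact Λ.add ((f.comp upd).curry x) ((g.comp upd).curry x)
    · rw [← M.smul]
      congr 1
      ext x
      exact Λ.smul c ((f.comp upd).curry x)
    · exact M.mono _ _ fun x => Λ.mono _ _ fun y => hfg _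
    · have h : avg Λ ((1 : C(∀ i, K i, ℝ)).comp upd) = 1 := by
        ext x
        exact Λ.one
      rw [h, M.one]
    · change M (avg Λ ((cl f a).comp upd)) = M (avg Λ (f.comp upd))
      rw [← (hM (a j) (avg Λ (f.comp upd))).1]
      congr 1
      ext t
      change Λ (((cl f a).comp upd).curry t) = Λ ((f.comp upd).curry (a j * t))
      let a' : ∀ i, K i := Function.update a j 1
      have ha' : ∀ i, i ∉ F → a' i = 1 := by
        intro i hi
        by_cases hij : i = j
        · subst hij
          simp [a']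
        · simp only [a', Function.update_of_ne hij]
          exact ha i (by simp [hij, hi])
      rw [← (hΛ a' ha' ((f.comp upd).curry (a j * t))).1]
      congr 1
      ext x
      change f (a * Function.update x j t) = f (Function.update (a' * x) j (a j * t))
      congr 1
      funext i
      by_cases hij : i = j
      · subst hij
        simp
      · simp [a', Function.update_of_ne hij]
    · change M (avg Λ ((cr f a).comp upd)) = M (avg Λ (f.comp upd))
      rw [← (hM (a j) (avg Λ (f.comp upd))).2]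
      congr 1
      ext t
      change Λ (((cr f a).comp upd).curry t) = Λ ((f.comp upd).curry (t * a j))
      let a' : ∀ i, K i := Function.update a j 1
      have ha' : ∀ i, i ∉ F → a' i = 1 := by
        intro i hi
        by_cases hij : i = j
        · subst hij
          simp [a']
        · simp only [a', Function.update_of_ne hij]
          exact ha i (by simp [hij, hi])
      rw [← (hΛ a' ha' ((f.comp upd).curry (t * a j))).2]
      congr 1
      ext x
      change f (Function.update x j t * a) = f (Function.update (x * a') j (t * a j))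
      congr 1
      funext i
      by_cases hij : i = j
      · subst hij
        simp
      · simp [a', Function.update_of_ne hij]

/-- arbitrary products -/
theorem HasMean.pi [∀ i, T2Space (K i)] (h : ∀ i, HasMean (K i)) : HasMean (∀ i, K i) := by
  classical
  let ι := (∀ i, K i) × C(∀ i, K i, ℝ) × Bool
  obtain ⟨Λ, hΛ⟩ := mean_of_approx (X := ∀ i, K i) (ι := ι)
    (fun p => if p.2.2 then cl p.2.1 p.1 else cr p.2.1 p.1) (fun p => p.2.1) (by
      intro s ε hε
      have hch : ∀ p : ι, ∃ F : Finset I, ∀ x y : ∀ i, K i, (∀ i ∈ F, x i = y i) →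
          |p.2.1 x - p.2.1 y| ≤ ε := fun p => exists_finset_coord p.2.1 ε hε
      choose F hF using hch
      let F0 : Finset I := s.biUnion F
      obtain ⟨Λ, hΛ⟩ := exists_mean_finset h F0
      refine ⟨Λ, fun p hp => ?_⟩
      let a' : ∀ i, K i := fun i => if i ∈ F0 then p.1 i else 1
      have ha' : ∀ i, i ∉ F0 → a' i = 1 := fun i hi => by simp [a', hi]
      have hinv := hΛ a' ha' p.2.1
      have hsub : ∀ i ∈ F p, i ∈ F0 := fun i hi => Finset.mem_biUnion.mpr ⟨p, hp, hi⟩
      by_cases hb : p.2.2 = true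
      · simp only [hb, if_true]
        rw [← hinv.1]
        refine Λ.abs_sub_le _ _ ε fun x => ?_
        refine hF p _ _ fun i hi => ?_
        change p.1 i * x i = a' i * x i
        simp [a', hsub i hi]
      · simp only [hb]
        change |Λ (cr p.2.1 p.1) - Λ p.2.1| ≤ ε
        rw [← hinv.2]
        refine Λ.abs_sub_le _ _ ε fun x => ?_
        refine hF p _ _ fun i hi => ?_
        change x i * p.1 i = x i * a' i
        simp [a', hsub i hi])
  refine ⟨Λ, fun a f => ⟨?_, ?_⟩⟩
  · have := hΛ (a, f, true)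
    simpa using this
  · have := hΛ (a, f, false)
    simpa using this

end Pi

end Pool.Agent.MoufangHaar
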