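import Mathlib
import Pool.Agent.Lib.MP_fd6bc6_al.Mean

set_option autoImplicit false

open MeasureTheory Topology

namespace Pool.Agent.MoufangHaar

/-- finite convex combinations of point evaluations -/
noncomputable def Mean.ofWeights {X κ : Type*} [TopologicalSpace X] [Fintype κ] (w : κ → ℝ)
    (hw : ∀ i, 0 ≤ w i) (hw1 : ∑ i, w i = 1) (z : κ → X) : Mean X where
  toFun f := ∑ i, w i * f (z i)
  add f g := by
    simp only [ContinuousMap.add_apply, mul_add, Finset.sum_add_distrib]
  smul c f := by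
    simp only [ContinuousMap.smul_apply, smul_eq_mul, Finset.mul_sum]
    refine Finset.sum_congr rfl fun i _ => by ring
  mono f g hfg := Finset.sum_le_sum fun i _ => mul_le_mul_of_nonneg_left (hfg _) (hw i)
  one := by
    simp only [ContinuousMap.one_apply, mul_one, hw1]

/-- means are approximated by finite convex combinations of point evaluations -/
theorem Mean.exists_weights {M : Type*} [TopologicalSpace M] [CompactSpace M] [T2Space M]
    (Λ : Mean M) (s : Finset C(M, ℝ)) (ε : ℝ) (hε : 0 < ε) :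
    ∃ (κ : Type) (_ : Fintype κ) (w : κ → ℝ) (z : κ → M), (∀ i, 0 ≤ w i) ∧ ∑ i, w i = 1 ∧
      ∀ g ∈ s, |∑ i, w i * g (z i) - Λ g| ≤ ε := by
  classical
  let : MeasurableSpace M := borel M
  have : BorelSpace M := ⟨rfl⟩
  obtain ⟨μ, hp, hμ⟩ := Λ.exists_measure
  let F : M → (s → ℝ) := fun m i => i.1 m
  have hint : ∀ i : s, Integrable (fun m => F m i) μ := fun i => integrable_cont i.1 μ
  have hFint : Integrable F μ := Integrable.of_eval hint
  have hmem : ∫ m, F m ∂μ ∈ closure (convexHull ℝ (Set.range F)) := by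
    refine Convex.integral_mem (convex_convexHull ℝ _).closure isClosed_closure ?_ hFint
    exact Filter.Eventually.of_forall fun m => subset_closure (subset_convexHull ℝ _ ⟨m, rfl⟩)
  obtain ⟨p, hp1, hp2⟩ := Metric.mem_closure_iff.mp hmem ε hε
  obtain ⟨κ, hκ, w, z, hw, hw1, hz, hsum⟩ := mem_convexHull_iff_exists_fintype.mp hp1
  choose y hy using hz
  refine ⟨κ, hκ, w, y, hw, hw1, fun g hg => ?_⟩
  have h1 : (∫ m, F m ∂μ) ⟨g, hg⟩ = Λ g := by
    rw [eval_integral hint]
    exact hμ g
  have h2 : p ⟨g, hg⟩ = ∑ i, w i * g (y i) := by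
    rw [← hsum, Finset.sum_apply]
    refine Finset.sum_congr rfl fun i _ => ?_
    rw [Pi.smul_apply, ← hy i, smul_eq_mul]
  have h3 := dist_le_pi_dist (∫ m, F m ∂μ) p ⟨g, hg⟩
  rw [Real.dist_eq, h1, h2, abs_sub_comm] at h3
  exact h3.trans hp2.le

/-- means lift along continuous surjections -/
theorem Mean.exists_lift {K M : Type*} [TopologicalSpace K] [CompactSpace K] [T2Space K]
    [TopologicalSpace M] [CompactSpace M] [T2Space M] (ρ : C(K, M))
    (hs : Function.Surjective ρ) (Λ : Mean M) :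
    ∃ Λ' : Mean K, ∀ g : C(M, ℝ), Λ' (g.comp ρ) = Λ g := by
  obtain ⟨Λ', hΛ'⟩ := mean_of_approx (X := K) (ι := C(M, ℝ)) (fun g => g.comp ρ)
    (fun g => ContinuousMap.const K (Λ g)) (by
      intro s ε hε
      obtain ⟨κ, hκ, w, z, hw, hw1, h⟩ := Λ.exists_weights s ε hε
      choose y hy using fun i => hs (z i)
      refine ⟨Mean.ofWeights w hw hw1 y, fun g hg => ?_⟩
      rw [Mean.const]
      have h1 := h g hg
      have h2 : Mean.ofWeights w hw hw1 y (g.comp ρ) = ∑ i, w i * g (z i) := by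
        change ∑ i, w i * g (ρ (y i)) = _
        simp only [hy]
      rw [h2]
      exact h1)
  refine ⟨Λ', fun g => ?_⟩
  rw [hΛ' g, Mean.const]

/-- functions with small oscillation on fibres almost factor -/
theorem exists_factor {K M : Type*} [TopologicalSpace K] [CompactSpace K]
    [TopologicalSpace M] [CompactSpace M] [T2Space M] (ρ : C(K, M))
    (hs : Function.Surjective ρ) (f : C(K, ℝ)) (ε : ℝ) (hε : 0 < ε)
    (h : ∀ x y, ρ x = ρ y → |f x - f y| < ε) :
    ∃ g : C(M, ℝ), ∀ x, |f x - g (ρ x)| ≤ ε := by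
  obtain ⟨g, hg⟩ := exists_continuous_forall_mem_convex_of_local_const
    (X := M) (E := ℝ) (t := fun m => {c | ∀ x, ρ x = m → |f x - c| ≤ ε}) (by
      intro m
      have : {c : ℝ | ∀ x, ρ x = m → |f x - c| ≤ ε} =
          ⋂ x : {x : K // ρ x = m}, Metric.closedBall (f x.1) ε := by
        ext c
        simp only [Set.mem_ofPred_eq, Set.mem_iInter, Metric.mem_closedBall, Real.dist_eq,
          Subtype.forall]
        refine forall_congr' fun x => forall_congr' fun hx => ?_
        rw [abs_sub_comm]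
      rw [this]
      exact convex_iInter fun x => convex_closedBall _ _) (by
      intro m
      obtain ⟨x₀, rfl⟩ := hs m
      refine ⟨f x₀, ?_⟩
      have hcl : IsClosed (ρ '' {x | ε ≤ |f x - f x₀|}) :=
        ((isClosed_le continuous_const
          (f.continuous.sub continuous_const).abs).isCompact.image ρ.continuous).isClosed
      have hnot : ρ x₀ ∉ ρ '' {x | ε ≤ |f x - f x₀|} := by
        rintro ⟨x, hx, hxx⟩
        have h1 : ε ≤ |f x - f x₀| := hx
        have h2 := h x x₀ hxx
        linarith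
      filter_upwards [hcl.isOpen_compl.mem_nhds hnot] with m hm
      intro x hx
      by_contra hlt
      push Not at hlt
      exact hm ⟨x, hlt.le, hx⟩)
  exact ⟨g, fun x => hg (ρ x) x rfl⟩

/-- functions on a compact loop are uniformly continuous for right multiplication by elements
near the unit -/
theorem exists_nhd_unit {K : Type*} [MLoop K] [TopologicalSpace K] [CompactSpace K] [TopMLoop K]
    (f : C(K, ℝ)) (ε : ℝ) (hε : 0 < ε) :
    ∃ U : Set K, IsOpen U ∧ (1 : K) ∈ U ∧ ∀ u ∈ U, ∀ x, |f x - f (x * u)| < ε := by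
  have h1 : ∀ᶠ u in 𝓝 (1 : K), ∀ x ∈ (Set.univ : Set K), |f x - f (x * u)| < ε := by
    refine isCompact_univ.eventually_forall_of_forall_eventually (x₀ := (1 : K))
      (P := fun u x => |f x - f (x * u)| < ε) fun x _ => ?_
    have hc : Continuous (fun z : K × K => |f z.2 - f (z.2 * z.1)|) :=
      ((f.continuous.comp continuous_snd).sub
        (f.continuous.comp (TopMLoop.cmul continuous_snd continuous_fst))).abs
    have ho : IsOpen {z : K × K | |f z.2 - f (z.2 * z.1)| < ε} := isOpen_lt hc continuous_const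
    refine ho.mem_nhds ?_
    change |f x - f (x * 1)| < ε
    rw [MLoop.mul_one, sub_self, abs_zero]
    exact hε
  obtain ⟨U, hU, hUo, h1U⟩ := eventually_nhds_iff.mp h1
  exact ⟨U, hUo, h1U, fun u hu x => hU u hu x (Set.mem_univ x)⟩

/-- Projective limits of loops with invariant means. -/
theorem HasMean.lim.{u, v} {K : Type u} [MLoop K] [TopologicalSpace K] [CompactSpace K] [T2Space K]
    [TopMLoop K]
    (h : ∀ U : Set K, IsOpen U → (1 : K) ∈ U → ∃ (M : Type v) (_ : MLoop M)
      (_ : TopologicalSpace M) (_ : T2Space M) (_ : TopMLoop M) (ρ : K → M),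
      HasMean M ∧ IsMHom ρ ∧ Continuous ρ ∧ Function.Surjective ρ ∧ ∀ x, ρ x = 1 → x ∈ U) :
    HasMean K := by
  classical
  let ι := K × C(K, ℝ) × Bool
  obtain ⟨Λ, hΛ⟩ := mean_of_approx (X := K) (ι := ι)
    (fun p => if p.2.2 then cl p.2.1 p.1 else cr p.2.1 p.1) (fun p => p.2.1) (by
      intro s ε hε
      have hε4 : 0 < ε / 4 := by linarith
      have hU : ∀ p : ι, ∃ U : Set K, IsOpen U ∧ (1 : K) ∈ U ∧
          ∀ u ∈ U, ∀ x, |p.2.1 x - p.2.1 (x * u)| < ε / 4 := fun p =>
        exists_nhd_unit p.2.1 (ε / 4) hε4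
      choose U hUo h1U hUf using hU
      obtain ⟨M, iM, tM, t2M, topM, ρ, hM, hρ, hc, hs, hker⟩ := h (⋂ p ∈ s, U p)
        (isOpen_biInter_finset fun p _ => hUo p) (by
          simp only [Set.mem_iInter]
          exact fun p _ => h1U p)
      have cM : CompactSpace M := by
        rw [← isCompact_univ_iff, ← hs.range_eq]
        exact isCompact_range hc
      obtain ⟨Λ, hΛ⟩ := hM
      obtain ⟨Λ', hΛ'⟩ := Λ.exists_lift ⟨ρ, hc⟩ hs
      refine ⟨Λ', fun p hp => ?_⟩
      have hosc : ∀ x y, ρ x = ρ y → |p.2.1 x - p.2.1 y| < ε / 4 := by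
        intro x y hxy
        have h1 : ρ (x⁻¹ * y) = 1 := by
          rw [hρ.map_mul, hρ.map_inv, hxy, MLoop.inv_mul_self]
        have h2 := hker _ h1
        simp only [Set.mem_iInter] at h2
        have h3 := hUf p (x⁻¹ * y) (h2 p hp) x
        rwa [MLoop.mul_inv_left] at h3
      obtain ⟨g, hg⟩ := exists_factor ⟨ρ, hc⟩ hs p.2.1 (ε / 4) hε4 hosc
      have e1 : |Λ' p.2.1 - Λ g| ≤ ε / 4 := by
        rw [← hΛ' g]
        exact Λ'.abs_sub_le _ _ _ fun x => hg x
      by_cases hb : p.2.2 = true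
      · simp only [hb, if_true]
        have e2 : |Λ' (cl p.2.1 p.1) - Λ g| ≤ ε / 4 := by
          rw [← (hΛ (ρ p.1) g).1, ← hΛ' (cl g (ρ p.1))]
          refine Λ'.abs_sub_le _ _ _ fun x => ?_
          change |p.2.1 (p.1 * x) - g (ρ p.1 * ρ x)| ≤ ε / 4
          rw [← hρ.map_mul]
          exact hg (p.1 * x)
        rw [abs_le] at e1 e2 ⊢
        constructor <;> linarith [e1.1, e1.2, e2.1, e2.2]
      · simp only [hb]
        change |Λ' (cr p.2.1 p.1) - Λ' p.2.1| ≤ ε
        have e2 : |Λ' (cr p.2.1 p.1) - Λ g| ≤ ε / 4 := by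
          rw [← (hΛ (ρ p.1) g).2, ← hΛ' (cr g (ρ p.1))]
          refine Λ'.abs_sub_le _ _ _ fun x => ?_
          change |p.2.1 (x * p.1) - g (ρ x * ρ p.1)| ≤ ε / 4
          rw [← hρ.map_mul]
          exact hg (x * p.1)
        rw [abs_le] at e1 e2 ⊢
        constructor <;> linarith [e1.1, e1.2, e2.1, e2.2])
  refine ⟨Λ, fun a f => ⟨?_, ?_⟩⟩
  · have := hΛ (a, f, true)
    simpa using this
  · have := hΛ (a, f, false)
    simpa using this

end Pool.Agent.MoufangHaar
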