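import Mathlib

set_option autoImplicit false
set_option linter.unusedSectionVars false

open Topology Uniformity

namespace Pool.Agent.MoufangHaar.DD

/-- The coboundary of a cochain; cochains are functions on lists of points. -/
def dd {X R : Type*} [AddCommGroup R] : (List X → R) → List X → R
  | _, [] => 0
  | φ, a :: l => φ l - dd (fun s => φ (a :: s)) l

/-- The prism operator between two self-maps. -/
def pr {X R : Type*} [AddCommGroup R] (f g : X → X) : (List X → R) → List X → R
  | _, [] => 0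
  | φ, a :: l => φ (f a :: g a :: l.map g) - pr f g (fun s => φ (f a :: s)) l

section alg

variable {X R : Type*} [AddCommGroup R]

@[simp] theorem dd_nil (φ : List X → R) : dd φ [] = 0 := rfl

theorem dd_cons (φ : List X → R) (a : X) (l : List X) :
    dd φ (a :: l) = φ l - dd (fun s => φ (a :: s)) l := rfl

@[simp] theorem pr_nil (f g : X → X) (φ : List X → R) : pr f g φ [] = 0 := rfl

theorem pr_cons (f g : X → X) (φ : List X → R) (a : X) (l : List X) :
    pr f g φ (a :: l) = φ (f a :: g a :: l.map g) - pr f g (fun s => φ (f a :: s)) l := rfl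

theorem dd_add (φ ψ : List X → R) (l : List X) :
    dd (fun s => φ s + ψ s) l = dd φ l + dd ψ l := by
  induction l generalizing φ ψ with
  | nil => simp
  | cons a l ih =>
    rw [dd_cons, dd_cons, dd_cons, ih]
    abel

theorem dd_neg (φ : List X → R) (l : List X) : dd (fun s => - φ s) l = - dd φ l := by
  induction l generalizing φ with
  | nil => simp
  | cons a l ih =>
    rw [dd_cons, dd_cons, ih]
    abel

theorem dd_sub (φ ψ : List X → R) (l : List X) :
    dd (fun s => φ s - ψ s) l = dd φ l - dd ψ l := by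
  induction l generalizing φ ψ with
  | nil => simp
  | cons a l ih =>
    rw [dd_cons, dd_cons, dd_cons, ih]
    abel

theorem dd_zero (l : List X) : dd (fun _ => (0 : R)) l = 0 := by
  induction l with
  | nil => simp
  | cons a l ih => rw [dd_cons, ih, sub_zero]

theorem dd_sum {ι : Type*} (s : Finset ι) (φ : ι → List X → R) (l : List X) :
    dd (fun t => ∑ i ∈ s, φ i t) l = ∑ i ∈ s, dd (φ i) l := by
  classical
  induction s using Finset.induction_on with
  | empty => simpa using dd_zero l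
  | insert i s hi ih =>
    simp only [Finset.sum_insert hi]
    rw [dd_add, ih]

theorem dd_map (g : X → X) (φ : List X → R) (l : List X) :
    dd (fun s => φ (s.map g)) l = dd φ (l.map g) := by
  induction l generalizing φ with
  | nil => simp
  | cons a l ih =>
    rw [dd_cons, List.map_cons, dd_cons]
    congr 1
    exact ih (fun s => φ (g a :: s))

theorem dd_dd (φ : List X → R) (l : List X) : dd (dd φ) l = 0 := by
  induction l generalizing φ with
  | nil => simp
  | cons a l ih =>
    rw [dd_cons]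
    have h : (fun s => dd φ (a :: s)) = fun s => φ s - dd (fun t => φ (a :: t)) s := rfl
    rw [h, dd_sub, ih]
    simp

theorem pr_sub (f g : X → X) (φ ψ : List X → R) (l : List X) :
    pr f g (fun s => φ s - ψ s) l = pr f g φ l - pr f g ψ l := by
  induction l generalizing φ ψ with
  | nil => simp
  | cons a l ih =>
    rw [pr_cons, pr_cons, pr_cons, ih]
    abel

/-- the prism identity -/
theorem prism (f g : X → X) (φ : List X → R) (l : List X) :
    φ (l.map g) - φ (l.map f) = dd (pr f g φ) l + pr f g (dd φ) l := by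
  induction l generalizing φ with
  | nil => simp
  | cons a l ih =>
    rw [dd_cons, pr_cons]
    have h1 : (fun s => pr f g φ (a :: s)) =
        fun s => φ (f a :: g a :: s.map g) - pr f g (fun t => φ (f a :: t)) s := rfl
    have h2 : (fun s => dd φ (f a :: s)) = fun s => φ s - dd (fun t => φ (f a :: t)) s := rfl
    rw [h1, h2, dd_sub, pr_sub, dd_cons, dd_cons]
    have h3 := dd_map g (fun s => φ (f a :: g a :: s)) l
    rw [h3]
    have h4 := ih (fun t => φ (f a :: t))
    simp only [List.map_cons] at h4 ⊢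
    have h5 : dd (pr f g (fun t => φ (f a :: t))) l =
      (φ (f a :: l.map g) - φ (f a :: l.map f)) - pr f g (dd (fun t => φ (f a :: t))) l := by
      rw [h4]; abel
    rw [show (dd fun s => pr f g (fun t => φ (f a :: t)) s) l
      = dd (pr f g (fun t => φ (f a :: t))) l from rfl, h5]
    rw [show pr f g (fun s => dd (fun t => φ (f a :: t)) s) l
      = pr f g (dd (fun t => φ (f a :: t))) l from rfl]
    abel

/-- the coboundary only depends on the values on sublists -/
theorem dd_congr_sub {φ ψ : List X → R} {l : List X}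
    (h : ∀ s : List X, s.Sublist l → φ s = ψ s) : dd φ l = dd ψ l := by
  induction l generalizing φ ψ with
  | nil => rfl
  | cons a l ih =>
    rw [dd_cons, dd_cons, h l (List.sublist_cons_self a l)]
    congr 1
    exact ih fun s hs => h _ (hs.cons_cons a)

end alg

/-- all pairs of entries of the list lie in the given set -/
def SmallL {X : Type*} (V : Set (X × X)) (l : List X) : Prop := ∀ a ∈ l, ∀ b ∈ l, (a, b) ∈ V

theorem SmallL.sub {X : Type*} {V : Set (X × X)} {l s : List X} (h : SmallL V l)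
    (hs : s.Sublist l) : SmallL V s := fun a ha b hb => h a (hs.subset ha) b (hs.subset hb)

section near

variable {X : Type*} [UniformSpace X] {R : Type*} [AddCommGroup R]

/-- two cochains agree near the diagonal -/
def Eqv (φ ψ : List X → R) : Prop := ∃ V ∈ 𝓤 X, ∀ l, SmallL V l → φ l = ψ l

theorem Eqv.mono {φ ψ φ' ψ' : List X → R} (h : Eqv φ ψ) (H : ∀ l, φ l = ψ l → φ' l = ψ' l) :
    Eqv φ' ψ' := by
  obtain ⟨V, hV, h⟩ := h
  exact ⟨V, hV, fun l hl => H l (h l hl)⟩

theorem Eqv.mono2 {φ ψ φ' ψ' φ'' ψ'' : List X → R} (h : Eqv φ ψ) (h' : Eqv φ' ψ')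
    (H : ∀ l, φ l = ψ l → φ' l = ψ' l → φ'' l = ψ'' l) : Eqv φ'' ψ'' := by
  obtain ⟨V, hV, h⟩ := h
  obtain ⟨W, hW, h'⟩ := h'
  exact ⟨V ∩ W, Filter.inter_mem hV hW, fun l hl => H l (h l fun a ha b hb => (hl a ha b hb).1)
    (h' l fun a ha b hb => (hl a ha b hb).2)⟩

theorem Eqv.of_eq {φ ψ : List X → R} (h : ∀ l, φ l = ψ l) : Eqv φ ψ :=
  ⟨Set.univ, Filter.univ_mem, fun l _ => h l⟩

theorem Eqv.symm {φ ψ : List X → R} (h : Eqv φ ψ) : Eqv ψ φ := by
  obtain ⟨V, hV, h⟩ := h
  exact ⟨V, hV, fun l hl => (h l hl).symm⟩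

theorem Eqv.trans {φ ψ χ : List X → R} (h : Eqv φ ψ) (h' : Eqv ψ χ) : Eqv φ χ := by
  obtain ⟨V, hV, h⟩ := h
  obtain ⟨W, hW, h'⟩ := h'
  exact ⟨V ∩ W, Filter.inter_mem hV hW, fun l hl => (h l fun a ha b hb => (hl a ha b hb).1).trans
    (h' l fun a ha b hb => (hl a ha b hb).2)⟩

theorem Eqv.add {φ ψ φ' ψ' : List X → R} (h : Eqv φ ψ) (h' : Eqv φ' ψ') :
    Eqv (fun l => φ l + φ' l) (fun l => ψ l + ψ' l) := by
  obtain ⟨V, hV, h⟩ := h
  obtain ⟨W, hW, h'⟩ := h'
  refine ⟨V ∩ W, Filter.inter_mem hV hW, fun l hl => ?_⟩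
  change φ l + φ' l = ψ l + ψ' l
  rw [h l fun a ha b hb => (hl a ha b hb).1, h' l fun a ha b hb => (hl a ha b hb).2]

theorem Eqv.sub {φ ψ φ' ψ' : List X → R} (h : Eqv φ ψ) (h' : Eqv φ' ψ') :
    Eqv (fun l => φ l - φ' l) (fun l => ψ l - ψ' l) := by
  obtain ⟨V, hV, h⟩ := h
  obtain ⟨W, hW, h'⟩ := h'
  refine ⟨V ∩ W, Filter.inter_mem hV hW, fun l hl => ?_⟩
  change φ l - φ' l = ψ l - ψ' l
  rw [h l fun a ha b hb => (hl a ha b hb).1, h' l fun a ha b hb => (hl a ha b hb).2]

theorem Eqv.sum {ι : Type*} (s : Finset ι) {φ ψ : ι → List X → R} (h : ∀ i ∈ s, Eqv (φ i) (ψ i)) :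
    Eqv (fun l => ∑ i ∈ s, φ i l) (fun l => ∑ i ∈ s, ψ i l) := by
  classical
  induction s using Finset.induction_on with
  | empty => exact Eqv.of_eq fun l => by simp
  | insert i s hi ih =>
    have h1 := (h i (Finset.mem_insert_self i s)).add
      (ih fun j hj => h j (Finset.mem_insert_of_mem hj))
    simpa only [Finset.sum_insert hi] using h1

theorem Eqv.dd {φ ψ : List X → R} (h : Eqv φ ψ) : Eqv (dd φ) (dd ψ) := by
  obtain ⟨V, hV, h⟩ := h
  exact ⟨V, hV, fun l hl => dd_congr_sub fun s hs => h s (hl.sub hs)⟩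

theorem Eqv.comp {φ ψ : List X → R} (h : Eqv φ ψ) {g : X → X} (hg : UniformContinuous g) :
    Eqv (fun l => φ (l.map g)) (fun l => ψ (l.map g)) := by
  obtain ⟨V, hV, h⟩ := h
  refine ⟨_, hg hV, fun l hl => h _ ?_⟩
  intro a ha b hb
  obtain ⟨x, hx, rfl⟩ := List.mem_map.mp ha
  obtain ⟨y, hy, rfl⟩ := List.mem_map.mp hb
  exact hl x hx y hy

/-- the prism of a cochain vanishing on small lists vanishes, if the prism lists are small -/
theorem pr_eq_zero (f g : X → X) {φ : List X → R} {l : List X}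
    (hl : ∀ s : List X, (∀ a ∈ s, ∃ b ∈ l, a = f b ∨ a = g b) → φ s = 0) :
    pr f g φ l = 0 := by
  induction l generalizing φ with
  | nil => rfl
  | cons a l ih =>
    rw [pr_cons, hl, ih, sub_zero]
    · intro s hs
      refine hl _ ?_
      intro c hc
      rcases List.mem_cons.mp hc with rfl | hc
      · exact ⟨a, List.mem_cons_self, Or.inl rfl⟩
      · obtain ⟨b, hb, h⟩ := hs c hc
        exact ⟨b, List.mem_cons_of_mem _ hb, h⟩
    · intro c hc
      rcases List.mem_cons.mp hc with rfl | hc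
      · exact ⟨a, List.mem_cons_self, Or.inl rfl⟩
      rcases List.mem_cons.mp hc with rfl | hc
      · exact ⟨a, List.mem_cons_self, Or.inr rfl⟩
      · obtain ⟨b, hb, rfl⟩ := List.mem_map.mp hc
        exact ⟨b, List.mem_cons_of_mem _ hb, Or.inr rfl⟩

/-- composition of a cocycle with close maps -/
theorem close {U W : Set (X × X)} (hW : W ∈ 𝓤 X) {f g : X → X} {φ : List X → R}
    (hφ : ∀ l, SmallL U l → dd φ l = 0)
    (h : ∀ x y, (x, y) ∈ W → (f x, f y) ∈ U ∧ (f x, g y) ∈ U ∧ (g x, f y) ∈ U ∧ (g x, g y) ∈ U) :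
    Eqv (fun l => φ (l.map g)) (fun l => φ (l.map f) + dd (pr f g φ) l) := by
  refine ⟨W, hW, fun l hl => ?_⟩
  have h1 := prism f g φ l
  have h2 : pr f g (dd φ) l = 0 := by
    refine pr_eq_zero f g ?_
    intro s hs
    refine hφ s ?_
    intro a ha b hb
    obtain ⟨x, hx, hax⟩ := hs a ha
    obtain ⟨y, hy, hby⟩ := hs b hb
    obtain ⟨h1, h2, h3, h4⟩ := h x y (hl x hx y hy)
    rcases hax with rfl | rfl <;> rcases hby with rfl | rfl <;> assumption
  rw [h2, add_zero] at h1
  change φ (l.map g) = φ (l.map f) + dd (pr f g φ) l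
  rw [← h1]
  abel

/-- composition of a cocycle with a map connected to the identity by chains of close maps -/
theorem chain [CompactSpace X] (h : C(X, X))
    (hch : ∀ V ∈ 𝓤 X, Relation.ReflTransGen (fun f g : C(X, X) => ∀ x, (f x, g x) ∈ V)
      (ContinuousMap.id X) h) {φ : List X → R}
    (hφ : Eqv (dd φ) (fun _ => 0)) :
    ∃ η : List X → R, η [] = 0 ∧ Eqv (fun l => φ (l.map h)) (fun l => φ l + dd η l) := by
  obtain ⟨U, hU, hφ⟩ := hφ
  obtain ⟨V, hV, hVs, hVU⟩ := comp_symm_mem_uniformity_sets hU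
  obtain ⟨V', hV', hVs', hVV⟩ := comp_symm_mem_uniformity_sets hV
  have key : ∀ f g : C(X, X), (∀ x, (f x, g x) ∈ V') →
      ∃ W ∈ 𝓤 X, ∀ x y, (x, y) ∈ W →
        (f x, f y) ∈ U ∧ (f x, g y) ∈ U ∧ (g x, f y) ∈ U ∧ (g x, g y) ∈ U := by
    intro f g hfg
    have hf := CompactSpace.uniformContinuous_of_continuous f.continuous
    have hg := CompactSpace.uniformContinuous_of_continuous g.continuous
    have e1 : V' ⊆ V := fun p hp => hVV ⟨p.2, hp, refl_mem_uniformity hV'⟩
    have e2 : V ⊆ U := fun p hp => hVU ⟨p.2, hp, refl_mem_uniformity hV⟩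
    refine ⟨_, Filter.inter_mem (hf hV') (hg hV'), fun x y hxy => ?_⟩
    obtain ⟨hx, hy⟩ := hxy
    refine ⟨e2 (e1 hx), e2 (hVV ⟨f y, hx, hfg y⟩), ?_, e2 (e1 hy)⟩
    exact e2 (hVV ⟨f x, hVs'.symm _ _ (hfg x), hx⟩)
  have hmain : ∀ h : C(X, X), Relation.ReflTransGen (fun f g : C(X, X) => ∀ x, (f x, g x) ∈ V')
      (ContinuousMap.id X) h →
      ∃ η : List X → R, η [] = 0 ∧ Eqv (fun l => φ (l.map h)) (fun l => φ l + dd η l) := by
    intro h hh
    induction hh with
    | refl =>
      refine ⟨fun _ => 0, rfl, Eqv.of_eq fun l => ?_⟩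
      rw [dd_zero, add_zero]
      congr 1
      exact List.map_id l
    | @tail f g _ hfg ih =>
      obtain ⟨η, hη, hE⟩ := ih
      obtain ⟨W, hW, hW'⟩ := key f g hfg
      have h1 := close hW hφ hW'
      refine ⟨fun l => η l + pr f g φ l, by simp [hη], ?_⟩
      refine h1.trans ?_
      refine (hE.add (Eqv.of_eq fun _ => rfl)).trans (Eqv.of_eq fun l => ?_)
      rw [dd_add, add_assoc]
  exact hmain h (hch V' hV')

/-- the sum over an orbit -/
def nn (σ : X → X) (q : ℕ) (φ : List X → R) (l : List X) : R :=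
  ∑ k ∈ Finset.range q, φ (l.map (σ^[k]))

theorem nn_eqv {σ : X → X} (hσ : UniformContinuous σ) (q : ℕ) {φ ψ : List X → R}
    (h : Eqv φ ψ) : Eqv (nn σ q φ) (nn σ q ψ) := by
  have h1 := Eqv.sum (Finset.range q) (φ := fun k l => φ (l.map (σ^[k])))
    (ψ := fun k l => ψ (l.map (σ^[k]))) fun k _ => h.comp (UniformContinuous.iterate σ k hσ)
  exact h1

theorem nn_dd (σ : X → X) (q : ℕ) (φ : List X → R) (l : List X) :
    nn σ q (dd φ) l = dd (nn σ q φ) l := by
  unfold nn
  have h1 := dd_sum (Finset.range q) (fun k (l : List X) => φ (l.map (σ^[k]))) l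
  rw [show (dd fun l => ∑ k ∈ Finset.range q, φ (l.map (σ^[k]))) l =
    dd (fun t => ∑ i ∈ Finset.range q, (fun k (l : List X) => φ (l.map (σ^[k]))) i t) l from rfl,
    h1]
  refine Finset.sum_congr rfl fun k _ => ?_
  exact (dd_map (σ^[k]) φ l).symm

theorem nn_map {σ : X → X} {q : ℕ} (hq : ∀ x, σ^[q] x = x) (φ : List X → R) (l : List X) :
    nn σ q φ (l.map σ) = nn σ q φ l := by
  unfold nn
  have h : ∀ k, φ ((l.map σ).map (σ^[k])) = φ (l.map (σ^[k+1])) := fun k => by
    rw [List.map_map]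
    rfl
  simp only [h]
  have h1 := Finset.sum_range_succ (fun k => φ (l.map (σ^[k]))) q
  have h2 := Finset.sum_range_succ' (fun k => φ (l.map (σ^[k]))) q
  have h3 : φ (l.map (σ^[q])) = φ (l.map (σ^[0])) := by
    congr 1
    refine List.map_congr_left fun a _ => ?_
    rw [hq a]
    rfl
  rw [h1, h3] at h2
  exact (add_right_cancel h2).symm

theorem nn_sub (σ : X → X) (q : ℕ) (φ ψ : List X → R) (l : List X) :
    nn σ q (fun l => φ l - ψ l) l = nn σ q φ l - nn σ q ψ l := by
  unfold nn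
  exact Finset.sum_sub_distrib ..

theorem nn_add (σ : X → X) (q : ℕ) (φ ψ : List X → R) (l : List X) :
    nn σ q (fun l => φ l + ψ l) l = nn σ q φ l + nn σ q ψ l := by
  unfold nn
  exact Finset.sum_add_distrib ..

/-- every class has an invariant representative -/
def Repr (σ : X → X) (R : Type*) [AddCommGroup R] : Prop :=
  ∀ φ : List X → R, φ [] = 0 → Eqv (dd φ) (fun _ => 0) →
    ∃ ψ η : List X → R, η [] = 0 ∧ Eqv (fun l => ψ (l.map σ)) ψ ∧ Eqv φ (fun l => ψ l + dd η l)

/-- the ladder -/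
theorem ladder {σ : X → X} (hσ : UniformContinuous σ) {q : ℕ} (hq : ∀ x, σ^[q] x = x)
    (hR : ∀ r : R, q • r = 0) (hrep : Repr σ R) {z y w : List X → R} (hy0 : y [] = 0)
    (hw0 : w [] = 0) (hzy : Eqv (nn σ q y) z) (hyw : Eqv (dd y) (fun l => w l - w (l.map σ)))
    (hv : ∃ v : List X → R, v [] = 0 ∧ Eqv (fun l => v (l.map σ)) v ∧ Eqv (dd w) (dd v)) :
    ∃ u : List X → R, u [] = 0 ∧ Eqv (fun l => u (l.map σ)) u ∧ Eqv z (dd u) := by
  obtain ⟨v, hv0, hvσ, hwv⟩ := hv
  -- first step
  have h1 : Eqv (dd (fun l => w l - v l)) (fun _ => 0) := by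
    refine hwv.mono fun l h => ?_
    rw [dd_sub, h, sub_self]
  obtain ⟨ψ, η, hη0, hψ, hE⟩ := hrep _ (by simp [hw0, hv0]) h1
  have h2 : Eqv (fun l => w l - w (l.map σ)) (dd (fun l => η l - η (l.map σ))) := by
    have e1 := hE.sub (hE.comp hσ)
    have e2 : Eqv (fun l => w l - w (l.map σ))
        (fun l => (ψ l + dd η l) - (ψ (l.map σ) + dd η (l.map σ))) := by
      refine e1.mono2 hvσ fun l h h' => ?_
      change (w l - v l) - (w (l.map σ) - v (l.map σ)) = _ at h
      rw [← h, h']
      abel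
    refine e2.mono2 hψ fun l h h' => ?_
    rw [h, dd_sub, dd_map, h']
    abel
  -- second step
  have h3 : Eqv (dd (fun l => y l - (η l - η (l.map σ)))) (fun _ => 0) := by
    refine (hyw.trans h2).mono fun l h => ?_
    rw [dd_sub, h, sub_self]
  obtain ⟨ψ', η', hη0', hψ', hE'⟩ := hrep _ (by simp [hy0, hη0]) h3
  refine ⟨nn σ q η', ?_, Eqv.of_eq fun l => nn_map hq η' l, ?_⟩
  · unfold nn
    simp [hη0']
  · have e1 := nn_eqv hσ q hE'
    have e2 : Eqv (nn σ q ψ') (fun _ => 0) := by
      have e3 : ∀ k, Eqv (fun l => ψ' (l.map (σ^[k]))) ψ' := by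
        intro k
        induction k with
        | zero => exact Eqv.of_eq fun l => congrArg ψ' (List.map_id l)
        | succ k ih =>
          refine (Eqv.of_eq fun l => ?_).trans ((hψ'.comp (UniformContinuous.iterate σ k hσ)).trans ih)
          rw [List.map_map]
          congr 1
          refine List.map_congr_left fun a _ => ?_
          exact Function.iterate_succ_apply' σ k a
      have e4 := Eqv.sum (Finset.range q) (φ := fun k l => ψ' (l.map (σ^[k])))
        (ψ := fun _ l => ψ' l) fun k _ => e3 k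
      refine Eqv.trans e4 (Eqv.of_eq fun l => ?_)
      rw [Finset.sum_const, Finset.card_range, hR]
    have e5 : Eqv (nn σ q (fun l => y l - (η l - η (l.map σ)))) z := by
      refine Eqv.trans (Eqv.of_eq fun l => ?_) hzy
      rw [nn_sub, nn_sub]
      have : nn σ q (fun l => η (l.map σ)) l = nn σ q η (l.map σ) := by
        unfold nn
        refine Finset.sum_congr rfl fun k _ => ?_
        change η ((l.map (σ^[k])).map σ) = η ((l.map σ).map (σ^[k]))
        rw [List.map_map, List.map_map]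
        congr 1
        refine List.map_congr_left fun a _ => ?_
        exact (Function.iterate_succ_apply' σ k a).symm.trans (Function.iterate_succ_apply σ k a)
      rw [this, nn_map hq, sub_self, sub_zero]
    refine e5.symm.trans (e1.trans ?_)
    refine e2.mono fun l h => ?_
    have h' : nn σ q (fun l => ψ' l + dd η' l) l = nn σ q ψ' l + nn σ q (dd η') l :=
      nn_add σ q ψ' (dd η') l
    rw [h', h, zero_add, nn_dd]

end near

end Pool.Agent.MoufangHaar.DD
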