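import Mathlib
import Pool.Agent.Lib.MP_fd6bc6_al.Mean
import Pool.Agent.Lib.MP_fd6bc6_al.Mg.G017

set_option autoImplicit false
set_option linter.unusedSectionVars false

open MeasureTheory Topology Uniformity

namespace Pool.Agent.MoufangHaar

/-- composites of left and right translations -/
inductive TM {L : Type*} [MLoop L] : (L → L) → Prop
  | id : TM (fun x => x)
  | left (a : L) {g : L → L} : TM g → TM (fun x => a * g x)
  | right (a : L) {g : L → L} : TM g → TM (fun x => g x * a)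

/-- left nuclear elements -/
def LN {L : Type*} [MLoop L] (c : L) : Prop := ∀ x y : L, (c * x) * y = c * (x * y)

section alg

variable {L : Type*} [MLoop L]

theorem autR' (a u v : L) : (u * a⁻¹) * ((a * v) * a) = (u * v) * a := by
  have h := MLoop.autL a⁻¹ v⁻¹ u⁻¹
  have h2 := congrArg (fun x : L => x⁻¹) h
  simp only [MLoop.mul_inv_rev, MLoop.inv_inv] at h2
  rw [← h2, MLoop.flex]

theorem TM.comp {f g : L → L} (hf : TM f) (hg : TM g) : TM (fun x => f (g x)) := by
  induction hf with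
  | id => exact hg
  | left a _ ih => exact TM.left a ih
  | right a _ ih => exact TM.right a ih

theorem TM.third {g : L → L} (hg : TM g) :
    ∃ f h : L → L, TM f ∧ TM h ∧ ∀ x y, g (x * y) = f x * h y := by
  induction hg with
  | id => exact ⟨_, _, TM.id, TM.id, fun _ _ => rfl⟩
  | @left a g0 _ ih =>
    obtain ⟨f, h, hf, hh, H⟩ := ih
    refine ⟨_, _, TM.right a (TM.left a hf), TM.left a⁻¹ hh, fun x y => ?_⟩
    change a * g0 (x * y) = _
    rw [H, MLoop.autL]
  | @right a g0 _ ih =>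
    obtain ⟨f, h, hf, hh, H⟩ := ih
    refine ⟨_, _, TM.right a⁻¹ hf, TM.right a (TM.left a hh), fun x y => ?_⟩
    change g0 (x * y) * a = _
    rw [H, autR']

theorem TM.first {f : L → L} (hf : TM f) :
    ∃ g h : L → L, TM g ∧ TM h ∧ ∀ x y, g (x * y) = f x * h y := by
  induction hf with
  | id => exact ⟨_, _, TM.id, TM.id, fun _ _ => rfl⟩
  | @left a f0 _ ih =>
    obtain ⟨g, h, hg, hh, H⟩ := ih
    refine ⟨_, _, TM.right a (TM.left a hg), TM.right a hh, fun x y => ?_⟩
    change (a * g (x * y)) * a = (a * f0 x) * (h y * a)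
    rw [H, MLoop.autR]
  | @right a f0 _ ih =>
    obtain ⟨g, h, hg, hh, H⟩ := ih
    refine ⟨_, _, TM.right a⁻¹ hg, TM.right a⁻¹ (TM.left a⁻¹ hh), fun x y => ?_⟩
    change g (x * y) * a⁻¹ = (f0 x * a) * ((a⁻¹ * h y) * a⁻¹)
    have h1 := autR' a⁻¹ (f0 x) (h y)
    rw [MLoop.inv_inv] at h1
    rw [H, h1]

/-- powers of an element -/
def npw (n : L) (k : ℕ) : L := (fun x => n * x)^[k] 1

theorem npw_mul (n : L) (k : ℕ) : ∀ x : L, npw n k * x = (fun x => n * x)^[k] x := by
  have key : ∀ k, (∀ x : L, npw n k * x = (fun x => n * x)^[k] x) ∧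
      (∀ x : L, npw n (k + 1) * x = (fun x => n * x)^[k + 1] x) := by
    intro k
    induction k with
    | zero =>
      refine ⟨fun x => MLoop.one_mul x, fun x => ?_⟩
      change (n * 1) * x = n * x
      rw [MLoop.mul_one]
    | succ k ih =>
      refine ⟨ih.2, fun x => ?_⟩
      have h1 := MLoop.moufang (npw n k) x n
      rw [ih.1] at h1
      have h2 : npw n (k + 1 + 1) = (n * npw n k) * n := by
        have h3 : n * npw n k = npw n (k + 1) := by
          unfold npw
          rw [Function.iterate_succ_apply']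
        rw [h3, ih.2 n]
        unfold npw
        rw [Function.iterate_succ_apply (fun x => n * x) (k + 1) 1]
        change _ = (fun x => n * x)^[k + 1] n
        rw [MLoop.mul_one]
      rw [h2, ← h1]
      rw [← Function.iterate_succ_apply (fun x => n * x) k x]
      rw [Function.iterate_succ_apply' (fun x => n * x) (k + 1) x]
  exact (key k).1

theorem LN.conj {d : L} (hd : LN d) (b : L) :
    LN (b * (d * b⁻¹)) ∧ ∀ x, b * (d * x) = (b * (d * b⁻¹)) * (b * x) := by
  let S : L → L := fun w => (b * (d * (b⁻¹ * (w * b⁻¹)))) * b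
  have h1 : ∀ x y, (b * (d * (b⁻¹ * x))) * y = S (x * y) := by
    intro x y
    have h2 := MLoop.autR b (d * (b⁻¹ * x)) (y * b⁻¹)
    rw [MLoop.mul_inv_mul, hd] at h2
    have h3 := MLoop.autR b (b⁻¹ * x) (y * b⁻¹)
    rw [MLoop.mul_inv_mul, MLoop.mul_inv_left] at h3
    rw [h2]
    change _ = (b * (d * (b⁻¹ * ((x * y) * b⁻¹)))) * b
    rw [h3, MLoop.mul_mul_inv, MLoop.inv_mul_left]
  have h2 : ∀ x, b * (d * (b⁻¹ * x)) = S x := fun x => by
    have h := h1 x 1
    rwa [MLoop.mul_one, MLoop.mul_one] at h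
  have h3 : ∀ y, (b * (d * b⁻¹)) * y = S y := fun y => by
    have h := h1 1 y
    rwa [MLoop.mul_one, MLoop.one_mul] at h
  refine ⟨fun x y => ?_, fun x => ?_⟩
  · rw [h3, h3, ← h2 x, h1]
  · rw [h3, ← h2, MLoop.inv_mul_left]

theorem LN.inv {c : L} (hc : LN c) : LN c⁻¹ := by
  intro x y
  have h1 := hc (c⁻¹ * x) y
  rw [MLoop.mul_inv_left] at h1
  rw [h1, MLoop.inv_mul_left]

theorem LN.right {c : L} (hc : LN c) (x y : L) : (x * y) * c = x * (y * c) := by
  have h1 := hc.inv y⁻¹ x⁻¹
  have h2 := congrArg (fun x : L => x⁻¹) h1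
  simp only [MLoop.mul_inv_rev, MLoop.inv_inv] at h2
  exact h2.symm

/-- translations move the nuclear elements by conjugation -/
theorem TM.nuclear {c : L} (hc : LN c) {g : L → L} (hg : TM g) :
    ∃ d a : L, d * a = a * c ∧ LN d ∧ ∀ x, g (c * x) = d * g x := by
  induction hg with
  | id => exact ⟨c, 1, by rw [MLoop.mul_one, MLoop.one_mul], hc, fun _ => rfl⟩
  | @left b g0 _ ih =>
    obtain ⟨d, a, hda, hd, H⟩ := ih
    obtain ⟨h1, h2⟩ := hd.conj b
    refine ⟨b * (d * b⁻¹), b * a, ?_, h1, fun x => ?_⟩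
    · rw [← h2, hda, hc.right]
    · change b * g0 (c * x) = (b * (d * b⁻¹)) * (b * g0 x)
      rw [H, h2]
  | @right b g0 _ ih =>
    obtain ⟨d, a, hda, hd, H⟩ := ih
    refine ⟨d, a, hda, hd, fun x => ?_⟩
    change g0 (c * x) * b = d * (g0 x * b)
    rw [H, hd]

end alg

section top

variable {L : Type*} [MLoop L] [TopologicalSpace L] [TopMLoop L]

theorem TM.continuous {g : L → L} (hg : TM g) : Continuous g := by
  induction hg with
  | id => exact continuous_id
  | left a _ ih => exact (TopMLoop.continuous_mul_left a).comp ih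
  | right a _ ih => exact (TopMLoop.continuous_mul_right a).comp ih

end top

section unif

variable {L : Type*} [MLoop L] [UniformSpace L] [CompactSpace L] [T2Space L] [TopMLoop L]

/-- a small quotient gives uniformly close translations -/
theorem close_of_quot {V : Set (L × L)} (hV : V ∈ 𝓤 L) :
    ∃ U ∈ 𝓝 (1 : L), ∀ c d : L, c * d⁻¹ ∈ U → ∀ y, (c * y, d * y) ∈ V := by
  have h1 : ∀ᶠ u in 𝓝 (1 : L), ∀ p ∈ (Set.univ : Set (L × L)),
      ((u * p.1) * p.2, p.1 * p.2) ∈ V := by
    refine IsCompact.eventually_forall_of_forall_eventually isCompact_univ fun p _ => ?_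
    have hc : Continuous (fun q : L × (L × L) => ((q.1 * q.2.1) * q.2.2, q.2.1 * q.2.2)) := by
      refine Continuous.prodMk ?_ ?_
      · exact TopMLoop.cmul (TopMLoop.cmul continuous_fst (continuous_fst.comp continuous_snd))
          (continuous_snd.comp continuous_snd)
      · exact TopMLoop.cmul (continuous_fst.comp continuous_snd)
          (continuous_snd.comp continuous_snd)
    have h2 : V ∈ 𝓝 (((1 : L) * p.1) * p.2, p.1 * p.2) := by
      rw [MLoop.one_mul]
      exact nhds_le_uniformity _ hV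
    exact hc.continuousAt.eventually h2
  obtain ⟨U, hU, hUV⟩ := Filter.eventually_iff_exists_mem.mp h1
  refine ⟨U, hU, fun c d hcd y => ?_⟩
  have h2 := hUV _ hcd (d, y) (Set.mem_univ _)
  simp only [MLoop.mul_inv_mul] at h2
  exact h2

/-- close points have small quotients -/
theorem quot_of_close {U : Set L} (hU : U ∈ 𝓝 (1 : L)) :
    ∃ V ∈ 𝓤 L, ∀ c d : L, (c, d) ∈ V → c * d⁻¹ ∈ U := by
  refine ⟨{p : L × L | p.1 * p.2⁻¹ ∈ U}, ?_, fun c d h => h⟩
  rw [compactSpace_uniformity, Filter.mem_iSup]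
  intro x
  have hc : Continuous (fun p : L × L => p.1 * p.2⁻¹) :=
    TopMLoop.cmul continuous_fst (TopMLoop.cinv continuous_snd)
  have h2 : U ∈ 𝓝 (x * x⁻¹) := by
    rw [MLoop.mul_inv_self]
    exact hU
  exact hc.continuousAt.eventually h2

/-- translations are connected to the identity -/
theorem TM.chain [ConnectedSpace L] {g : L → L} (hg : TM g) (V : Set (L × L)) (hV : V ∈ 𝓤 L) :
    Relation.ReflTransGen (fun f g : C(L, L) => ∀ x, (f x, g x) ∈ V)
      (ContinuousMap.id L) ⟨g, hg.continuous⟩ := by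
  have near : ∀ (F : L → L → L) (hF : Continuous (fun p : L × L => F p.1 p.2)) (a : L),
      ∀ᶠ b in 𝓝 a, ∀ x, (F a x, F b x) ∈ V ∧ (F b x, F a x) ∈ V := by
    intro F hF a
    have h1 : ∀ᶠ b in 𝓝 a, ∀ x ∈ (Set.univ : Set L), (F a x, F b x) ∈ V ∧ (F b x, F a x) ∈ V := by
      refine IsCompact.eventually_forall_of_forall_eventually isCompact_univ fun x _ => ?_
      have hc1 : Continuous (fun q : L × L => (F a q.2, F q.1 q.2)) :=
        ((hF.comp (Continuous.prodMk_right a)).comp continuous_snd).prodMk hF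
      have hc2 : Continuous (fun q : L × L => (F q.1 q.2, F a q.2)) :=
        hF.prodMk ((hF.comp (Continuous.prodMk_right a)).comp continuous_snd)
      have hv : V ∈ 𝓝 (F a x, F a x) := nhds_le_uniformity _ hV
      have e1 : ∀ᶠ q in 𝓝 (a, x), (F a q.2, F q.1 q.2) ∈ V :=
        (hc1.continuousAt (x := (a, x))).eventually (p := fun q => q ∈ V) hv
      have e2 : ∀ᶠ q in 𝓝 (a, x), (F q.1 q.2, F a q.2) ∈ V :=
        (hc2.continuousAt (x := (a, x))).eventually (p := fun q => q ∈ V) hv
      exact e1.and e2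
    filter_upwards [h1] with b hb x using hb x (Set.mem_univ x)
  induction hg with
  | id => exact Relation.ReflTransGen.refl
  | @left a g0 hg0 ih =>
    have hc : ∀ b : L, Continuous (fun x => b * g0 x) := fun b =>
      (TopMLoop.continuous_mul_left b).comp hg0.continuous
    have h2 := PreconnectedSpace.induction₂' (α := L)
      (fun b c => Relation.ReflTransGen (fun f g : C(L, L) => ∀ x, (f x, g x) ∈ V)
        ⟨fun x => b * g0 x, hc b⟩ ⟨fun x => c * g0 x, hc c⟩) (by
        intro b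
        filter_upwards [near (fun a x => a * g0 x) (TopMLoop.cmul continuous_fst
          (hg0.continuous.comp continuous_snd)) b] with c hc'
        exact ⟨Relation.ReflTransGen.single fun x => (hc' x).1,
          Relation.ReflTransGen.single fun x => (hc' x).2⟩)
      ⟨fun _ _ _ h h' => h.trans h'⟩ 1 a
    refine ih.trans ?_
    convert h2 using 2
    ext x
    exact (MLoop.one_mul (g0 x)).symm
  | @right a g0 hg0 ih =>
    have hc : ∀ b : L, Continuous (fun x => g0 x * b) := fun b =>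
      (TopMLoop.continuous_mul_right b).comp hg0.continuous
    have h2 := PreconnectedSpace.induction₂' (α := L)
      (fun b c => Relation.ReflTransGen (fun f g : C(L, L) => ∀ x, (f x, g x) ∈ V)
        ⟨fun x => g0 x * b, hc b⟩ ⟨fun x => g0 x * c, hc c⟩) (by
        intro b
        filter_upwards [near (fun a x => g0 x * a) (TopMLoop.cmul
          (hg0.continuous.comp continuous_snd) continuous_fst) b] with c hc'
        exact ⟨Relation.ReflTransGen.single fun x => (hc' x).1,
          Relation.ReflTransGen.single fun x => (hc' x).2⟩)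
      ⟨fun _ _ _ h h' => h.trans h'⟩ 1 a
    refine ih.trans ?_
    convert h2 using 2
    ext x
    exact (MLoop.mul_one (g0 x)).symm

/-- the element is contracted by translations -/
def Contr (n : L) : Prop := ∀ V ∈ 𝓤 L, ∃ g : L → L, TM g ∧ ∀ x, (g (n * x), g x) ∈ V

theorem contr_of_prox {n : L} (h : ∀ U ∈ 𝓝 (1 : L), ∃ f : L → L, TM f ∧ f n * (f 1)⁻¹ ∈ U) :
    Contr n := by
  intro V hV
  obtain ⟨U, hU, hUV⟩ := close_of_quot hV
  obtain ⟨f, hf, hfU⟩ := h U hU
  obtain ⟨g, k, hg, hk, H⟩ := hf.first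
  refine ⟨g, hg, fun x => ?_⟩
  have h1 : g x = f 1 * k x := by rw [← H, MLoop.one_mul]
  rw [H, h1]
  exact hUV _ _ hfU _

theorem iterate_close (n : L) (m : ℕ) : ∀ V ∈ 𝓤 L, ∃ W ∈ 𝓤 L, ∀ g : L → L,
    (∀ x, (g (n * x), g x) ∈ W) → ∀ k ≤ m, ∀ x, (g ((fun x => n * x)^[k] x), g x) ∈ V := by
  induction m with
  | zero =>
    intro V hV
    refine ⟨V, hV, fun g _ k hk x => ?_⟩
    rw [Nat.le_zero.mp hk]
    exact refl_mem_uniformity hV
  | succ m ih =>
    intro V hV
    obtain ⟨V1, hV1, _, hVV⟩ := comp_symm_mem_uniformity_sets hV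
    obtain ⟨W1, hW1, H⟩ := ih V1 hV1
    refine ⟨W1 ∩ V1, Filter.inter_mem hW1 hV1, fun g hg k hk x => ?_⟩
    rcases Nat.eq_zero_or_pos k with rfl | hk0
    · exact refl_mem_uniformity hV
    · obtain ⟨j, rfl⟩ := Nat.exists_eq_succ_of_ne_zero hk0.ne'
      rw [Nat.succ_eq_add_one, Function.iterate_succ_apply']
      exact hVV ⟨g ((fun x => n * x)^[j] x), (hg _).2,
        H g (fun x => (hg x).1) j (by omega) x⟩

theorem Contr.iterate {n : L} (h : Contr n) (m : ℕ) (V : Set (L × L)) (hV : V ∈ 𝓤 L) :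
    ∃ g : L → L, TM g ∧ ∀ k ≤ m, ∀ x, (g ((fun x => n * x)^[k] x), g x) ∈ V := by
  obtain ⟨W, hW, H⟩ := iterate_close n m V hV
  obtain ⟨g, hg, hgW⟩ := h W hW
  exact ⟨g, hg, H g hgW⟩

theorem Contr.npw {n : L} (h : Contr n) (m : ℕ) : Contr (npw n m) := by
  intro V hV
  obtain ⟨g, hg, H⟩ := h.iterate m V hV
  refine ⟨g, hg, fun x => ?_⟩
  rw [npw_mul]
  exact H m le_rfl x

theorem Contr.nuclear {c : L} (h : Contr c) (hc : LN c) : c = 1 := by
  by_contra hne
  let D : Set L := (fun a : L => (a * c) * a⁻¹) '' Set.univ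
  have hD : IsCompact D := isCompact_univ.image
    (TopMLoop.cmul (TopMLoop.continuous_mul_right c) TopMLoop.cont_inv)
  have h1D : (1 : L) ∉ D := by
    rintro ⟨a, _, ha⟩
    apply hne
    have h1 : (a * c) * a⁻¹ = 1 := ha
    have h2 : a * c = a * 1 := by
      rw [MLoop.mul_one]
      refine MLoop.mul_right_cancel (a := a⁻¹) ?_
      rw [h1, MLoop.mul_inv_self]
    exact MLoop.mul_left_cancel h2
  obtain ⟨V, hV, HV⟩ := quot_of_close (hD.isClosed.isOpen_compl.mem_nhds h1D)
  obtain ⟨g, hg, hgV⟩ := h V hV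
  obtain ⟨d, a, hda, _, H⟩ := hg.nuclear hc
  have h3 := HV _ _ (hgV 1)
  rw [H, MLoop.mul_mul_inv] at h3
  apply h3
  refine ⟨a, Set.mem_univ a, ?_⟩
  change (a * c) * a⁻¹ = d
  rw [← hda, MLoop.mul_mul_inv]

/-- contracted elements of finite order are trivial -/
theorem Contr.torsion [ConnectedSpace L] {n : L} (h : Contr n) {m : ℕ} (hm : 0 < m)
    (hnm : MoufangHaar.npw n m = 1) : n = 1 := by
  classical
  by_contra hne
  have hex : ∃ m : ℕ, 0 < m ∧ MoufangHaar.npw n m = 1 := ⟨m, hm, hnm⟩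
  obtain ⟨hm0, hm1⟩ := Nat.find_spec hex
  set m0 := Nat.find hex with hm0def
  have hmin : ∀ k, 0 < k → k < m0 → MoufangHaar.npw n k ≠ 1 := fun k hk hk' h' =>
    Nat.find_min hex hk' ⟨hk, h'⟩
  have hm01 : m0 ≠ 1 := by
    intro h'
    apply hne
    rw [h'] at hm1
    have : MoufangHaar.npw n 1 = n * 1 := rfl
    rwa [this, MLoop.mul_one] at hm1
  let q := m0.minFac
  have hqp : q.Prime := Nat.minFac_prime hm01
  have : Fact q.Prime := ⟨hqp⟩
  have hqd : q ∣ m0 := Nat.minFac_dvd m0
  obtain ⟨j, hj⟩ := hqd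
  have hj0 : 0 < j := by
    rcases Nat.eq_zero_or_pos j with h' | h'
    · rw [h', Nat.mul_zero] at hj
      omega
    · exact h'
  have hjm : j < m0 := by
    rw [hj]
    have := hqp.one_lt
    nlinarith
  let σ : L → L := fun x => n * x
  have hσm : ∀ x, σ^[m0] x = x := fun x => by
    have h1 := npw_mul n m0 x
    rw [hm1, MLoop.one_mul] at h1
    exact h1.symm
  have hσc : Continuous σ := TopMLoop.continuous_mul_left n
  refine DD.no_contraction (X := L) (q := q) (σ^[j]) (hσc.iterate j) (fun x => ?_) (fun x hx => ?_)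
    (fun V hV => ?_)
  · rw [← Function.iterate_mul, Nat.mul_comm, ← hj, hσm]
  · have h1 := npw_mul n j x
    have h2 : MoufangHaar.npw n j * x = 1 * x := by
      rw [h1, MLoop.one_mul]
      exact hx
    exact hmin j hj0 hjm (MLoop.mul_right_cancel h2)
  · obtain ⟨g, hg, H⟩ := h.iterate m0 V hV
    refine ⟨⟨g, hg.continuous⟩, fun V' hV' => hg.chain V' hV', fun x k => ?_⟩
    change (g ((σ^[j])^[k] x), g x) ∈ V
    rw [← Function.iterate_mul]
    have h1 : σ^[j * k] x = σ^[(j * k) % m0] x := by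
      have h2 : j * k = (j * k) % m0 + m0 * ((j * k) / m0) := (Nat.mod_add_div _ _).symm
      conv_lhs => rw [h2, Function.iterate_add_apply, Function.iterate_mul,
        Function.iterate_fixed (hσm x)]
    rw [h1]
    exact H _ (Nat.mod_lt _ hm0).le x

end unif

end Pool.Agent.MoufangHaar
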