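import Mathlib
import Pool.Agent.Lib.MP_fd6bc6_al.Comp

set_option autoImplicit false

open MeasureTheory Topology

namespace Pool.Agent.MoufangHaar

section

variable {L : Type*} [MLoop L] [TopologicalSpace L] [TopMLoop L]

theorem cc_mul {a a' b b' : L} (ha : connectedComponent a = connectedComponent a')
    (hb : connectedComponent b = connectedComponent b') :
    connectedComponent (a * b) = connectedComponent (a' * b') := by
  have h1 : connectedComponent (a * b) = connectedComponent (a * b') := by
    have hmem : b ∈ connectedComponent b' := by rw [← hb]; exact mem_connectedComponent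
    exact connectedComponent_eq
      ((TopMLoop.continuous_mul_left a).mapsTo_connectedComponent b' hmem) |>.symm
  have h2 : connectedComponent (a * b') = connectedComponent (a' * b') := by
    have hmem : a ∈ connectedComponent a' := by rw [← ha]; exact mem_connectedComponent
    exact connectedComponent_eq
      ((TopMLoop.continuous_mul_right b').mapsTo_connectedComponent a' hmem) |>.symm
  rw [h1, h2]

theorem cc_inv {a a' : L} (ha : connectedComponent a = connectedComponent a') :
    connectedComponent a⁻¹ = connectedComponent a'⁻¹ := by
  have hmem : a ∈ connectedComponent a' := by rw [← ha]; exact mem_connectedComponent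
  exact connectedComponent_eq
    ((TopMLoop.cont_inv (L := L)).mapsTo_connectedComponent a' hmem) |>.symm

instance ccMLoop : MLoop (ConnectedComponents L) where
  mul := Quotient.map₂ (fun a b => a * b) (fun _ _ ha _ _ hb => cc_mul ha hb)
  one := ConnectedComponents.mk 1
  inv := Quotient.map (fun a => a⁻¹) (fun _ _ ha => cc_inv ha)
  one_mul' x := by
    obtain ⟨x, rfl⟩ := ConnectedComponents.surjective_coe x
    exact congrArg ConnectedComponents.mk (MLoop.one_mul x)
  mul_one' x := by
    obtain ⟨x, rfl⟩ := ConnectedComponents.surjective_coe x
    exact congrArg ConnectedComponents.mk (MLoop.mul_one x)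
  inv_mul_cancel_left' x y := by
    obtain ⟨x, rfl⟩ := ConnectedComponents.surjective_coe x
    obtain ⟨y, rfl⟩ := ConnectedComponents.surjective_coe y
    exact congrArg ConnectedComponents.mk (MLoop.inv_mul_left x y)
  mul_inv_cancel_left' x y := by
    obtain ⟨x, rfl⟩ := ConnectedComponents.surjective_coe x
    obtain ⟨y, rfl⟩ := ConnectedComponents.surjective_coe y
    exact congrArg ConnectedComponents.mk (MLoop.mul_inv_left x y)
  moufang' x y z := by
    obtain ⟨x, rfl⟩ := ConnectedComponents.surjective_coe x
    obtain ⟨y, rfl⟩ := ConnectedComponents.surjective_coe y
    obtain ⟨z, rfl⟩ := ConnectedComponents.surjective_coe z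
    exact congrArg ConnectedComponents.mk (MLoop.moufang x y z)

theorem cc_hom : IsMHom (ConnectedComponents.mk : L → ConnectedComponents L) :=
  ⟨fun _ _ => rfl⟩

instance ccTopMLoop [CompactSpace L] [T2Space L] : TopMLoop (ConnectedComponents L) where
  cont_mul := by
    have hc : Continuous (Prod.map ConnectedComponents.mk ConnectedComponents.mk :
        L × L → ConnectedComponents L × ConnectedComponents L) :=
      ConnectedComponents.continuous_coe.prodMap ConnectedComponents.continuous_coe
    have hs : Function.Surjective (Prod.map ConnectedComponents.mk ConnectedComponents.mk :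
        L × L → ConnectedComponents L × ConnectedComponents L) :=
      ConnectedComponents.surjective_coe.prodMap ConnectedComponents.surjective_coe
    have hq : IsQuotientMap (Prod.map ConnectedComponents.mk ConnectedComponents.mk :
        L × L → ConnectedComponents L × ConnectedComponents L) :=
      hc.isClosedMap.isQuotientMap hc hs
    rw [hq.continuous_iff]
    exact ConnectedComponents.continuous_coe.comp (TopMLoop.cont_mul (L := L))
  cont_inv := by
    rw [ConnectedComponents.isQuotientMap_coe.continuous_iff]
    exact ConnectedComponents.continuous_coe.comp (TopMLoop.cont_inv (L := L))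

theorem mk_eq_one_iff (x : L) : (ConnectedComponents.mk x : ConnectedComponents L) = 1 ↔
    x ∈ connectedComponent (1 : L) :=
  ConnectedComponents.coe_eq_coe'

/-- the measure data on the identity component -/
theorem hasHaar_iff_component [CompactSpace L] [T2Space L] [MeasurableSpace L] [BorelSpace L] :
    HasHaar L ↔ ∃ m : Measure L, KerHaar (ConnectedComponents.mk : L → ConnectedComponents L) m := by
  constructor
  · intro h
    obtain ⟨m, hm, _⟩ := exists_kerHaar _ cc_hom ConnectedComponents.continuous_coe h
    exact ⟨m, hm⟩
  · rintro ⟨m, hm⟩
    let : MeasurableSpace (ConnectedComponents L) := borel _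
    have : BorelSpace (ConnectedComponents L) := ⟨rfl⟩
    have hQ : HasInt (ConnectedComponents L) := hasInt_of_td
    exact (extension _ cc_hom ConnectedComponents.continuous_coe
      ConnectedComponents.surjective_coe m hm hQ).hasHaar

end

end Pool.Agent.MoufangHaar
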