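import Mathlib
import Pool.Agent.Lib.MP_fd6bc6_al.Basic

set_option autoImplicit false

open Quaternion

namespace Pool.Agent.MoufangHaar

/-- The octonion product on pairs of quaternions (Cayley-Dickson doubling). -/
noncomputable def omul (x y : ℍ[ℝ] × ℍ[ℝ]) : ℍ[ℝ] × ℍ[ℝ] :=
  (x.1 * y.1 - star y.2 * x.2, y.2 * x.1 + x.2 * star y.1)

/-- The square of the euclidean norm of an octonion. -/
noncomputable def osq (x : ℍ[ℝ] × ℍ[ℝ]) : ℝ := normSq x.1 + normSq x.2

/-- Octonion conjugation. -/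
noncomputable def oconj (x : ℍ[ℝ] × ℍ[ℝ]) : ℍ[ℝ] × ℍ[ℝ] := (star x.1, -x.2)

set_option maxHeartbeats 4000000 in
theorem omul_moufang (x y z : ℍ[ℝ] × ℍ[ℝ]) :
    omul z (omul x (omul z y)) = omul (omul (omul z x) z) y := by
  obtain ⟨x1, x2⟩ := x
  obtain ⟨y1, y2⟩ := y
  obtain ⟨z1, z2⟩ := z
  refine Prod.ext ?_ ?_ <;> ext <;> simp [omul] <;> ring

theorem osq_omul (x y : ℍ[ℝ] × ℍ[ℝ]) : osq (omul x y) = osq x * osq y := by
  obtain ⟨x1, x2⟩ := x
  obtain ⟨y1, y2⟩ := y
  simp [omul, osq, normSq_def']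
  ring

theorem oconj_omul_omul (x y : ℍ[ℝ] × ℍ[ℝ]) :
    omul (oconj x) (omul x y) = osq x • y := by
  obtain ⟨x1, x2⟩ := x
  obtain ⟨y1, y2⟩ := y
  refine Prod.ext ?_ ?_ <;> ext <;> simp [omul, oconj, osq, normSq_def'] <;> ring

theorem omul_oconj_omul (x y : ℍ[ℝ] × ℍ[ℝ]) :
    omul x (omul (oconj x) y) = osq x • y := by
  obtain ⟨x1, x2⟩ := x
  obtain ⟨y1, y2⟩ := y
  refine Prod.ext ?_ ?_ <;> ext <;> simp [omul, oconj, osq, normSq_def'] <;> ring

theorem one_omul (x : ℍ[ℝ] × ℍ[ℝ]) : omul (1, 0) x = x := by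
  obtain ⟨x1, x2⟩ := x
  simp [omul]

theorem omul_one (x : ℍ[ℝ] × ℍ[ℝ]) : omul x (1, 0) = x := by
  obtain ⟨x1, x2⟩ := x
  simp [omul]

theorem osq_oconj (x : ℍ[ℝ] × ℍ[ℝ]) : osq (oconj x) = osq x := by
  simp [osq, oconj]

/-- The seven-dimensional sphere of unit octonions. -/
def S7 : Type := {x : ℍ[ℝ] × ℍ[ℝ] // normSq x.1 + normSq x.2 = 1}

instance : TopologicalSpace S7 := inferInstanceAs
  (TopologicalSpace {x : ℍ[ℝ] × ℍ[ℝ] // normSq x.1 + normSq x.2 = 1})

/-- The product of unit octonions. -/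
noncomputable instance : Mul S7 :=
  ⟨fun x y => ⟨omul x.1 y.1, by
    have h := osq_omul x.1 y.1
    have h1 : osq x.1 = 1 := x.2
    have h2 : osq y.1 = 1 := y.2
    rw [h1, h2, _root_.mul_one] at h
    exact h⟩⟩

noncomputable instance : MLoop S7 where
  one := ⟨(1, 0), by simp⟩
  inv x := ⟨oconj x.1, by
    have h := osq_oconj x.1
    have h1 : osq x.1 = 1 := x.2
    rw [h1] at h
    exact h⟩
  one_mul' x := Subtype.ext (one_omul x.1)
  mul_one' x := Subtype.ext (omul_one x.1)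
  inv_mul_cancel_left' x y := Subtype.ext (by
    have h1 : osq x.1 = 1 := x.2
    have h := oconj_omul_omul x.1 y.1
    rw [h1, one_smul] at h
    exact h)
  mul_inv_cancel_left' x y := Subtype.ext (by
    have h1 : osq x.1 = 1 := x.2
    have h := omul_oconj_omul x.1 y.1
    rw [h1, one_smul] at h
    exact h)
  moufang' x y z := Subtype.ext (omul_moufang x.1 y.1 z.1)

theorem continuous_omul : Continuous (fun p : (ℍ[ℝ] × ℍ[ℝ]) × (ℍ[ℝ] × ℍ[ℝ]) => omul p.1 p.2) := by
  unfold omul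
  fun_prop

theorem continuous_oconj : Continuous oconj := by
  unfold oconj
  fun_prop

theorem continuous_osq : Continuous osq := by
  unfold osq
  exact (continuous_normSq.comp continuous_fst).add (continuous_normSq.comp continuous_snd)

instance : T2Space S7 := inferInstanceAs
  (T2Space {x : ℍ[ℝ] × ℍ[ℝ] // normSq x.1 + normSq x.2 = 1})

theorem norm_le_of_osq (x : ℍ[ℝ] × ℍ[ℝ]) (r : ℝ) (hr : 0 ≤ r) (h : osq x ≤ r ^ 2) : ‖x‖ ≤ r := by
  unfold osq at h
  rw [normSq_eq_norm_mul_self, normSq_eq_norm_mul_self] at h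
  rw [Prod.norm_def]
  refine max_le ?_ ?_
  · nlinarith [norm_nonneg x.1, norm_nonneg x.2, mul_self_nonneg ‖x.2‖]
  · nlinarith [norm_nonneg x.1, norm_nonneg x.2, mul_self_nonneg ‖x.1‖]

instance : CompactSpace S7 := by
  have h : IsCompact {x : ℍ[ℝ] × ℍ[ℝ] | normSq x.1 + normSq x.2 = 1} := by
    refine Metric.isCompact_of_isClosed_isBounded ?_ ?_
    · exact isClosed_eq continuous_osq continuous_const
    · rw [isBounded_iff_forall_norm_le]
      refine ⟨1, fun x hx => norm_le_of_osq x 1 zero_le_one ?_⟩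
      have hx' : osq x = 1 := hx
      rw [hx']
      norm_num
  exact isCompact_iff_compactSpace.mp h

instance : TopMLoop S7 where
  cont_mul := by
    refine Continuous.subtype_mk ?_ _
    exact continuous_omul.comp ((continuous_subtype_val.comp continuous_fst).prodMk
      (continuous_subtype_val.comp continuous_snd))
  cont_inv := by
    refine Continuous.subtype_mk ?_ _
    exact continuous_oconj.comp continuous_subtype_val

end Pool.Agent.MoufangHaar
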