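import Mathlib
import Pool.Agent.Lib.MP_fd6bc6_al.Mean
import Pool.Agent.Lib.MP_fd6bc6_al.Oct

set_option autoImplicit false

open MeasureTheory Topology Quaternion

namespace Pool.Agent.MoufangHaar

/-- A linear automorphism preserving a set of finite nonzero measure preserves Lebesgue measure. -/
theorem map_eq_of_preserves {E : Type*} [NormedAddCommGroup E] [NormedSpace ℝ E]
    [MeasurableSpace E] [BorelSpace E] [FiniteDimensional ℝ E] (μ : Measure E)
    [μ.IsAddHaarMeasure] (T : E ≃ₗ[ℝ] E) (A : Set E) (hA : MeasurableSet A) (hA0 : μ A ≠ 0)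
    (hA1 : μ A ≠ ⊤) (hT : T ⁻¹' A = A) : μ.map T = μ := by
  have hdet : LinearMap.det (T : E →ₗ[ℝ] E) ≠ 0 := (LinearEquiv.isUnit_det' T).ne_zero
  have h := Measure.map_linearMap_addHaar_eq_smul_addHaar μ hdet
  have hmeas : Measurable T := (LinearMap.continuous_of_finiteDimensional
    (T : E →ₗ[ℝ] E)).measurable
  have h2 : (μ.map T) A = μ A := by
    rw [Measure.map_apply hmeas hA, hT]
  have h3 : (μ.map T) A = ENNReal.ofReal |(LinearMap.det (T : E →ₗ[ℝ] E))⁻¹| * μ A := by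
    have h4 := congrArg (fun ν : Measure E => ν A) h
    simpa using h4
  rw [h2] at h3
  have h5 : ENNReal.ofReal |(LinearMap.det (T : E →ₗ[ℝ] E))⁻¹| = 1 := by
    have h6 : 1 * μ A = ENNReal.ofReal |(LinearMap.det (T : E →ₗ[ℝ] E))⁻¹| * μ A := by
      rw [one_mul]; exact h3
    exact ((ENNReal.mul_left_inj hA0 hA1).mp h6).symm
  rw [h5, one_smul] at h
  exact h

theorem osq_smul (c : ℝ) (x : ℍ[ℝ] × ℍ[ℝ]) : osq (c • x) = c ^ 2 * osq x := by
  unfold osq
  simp [normSq_def']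
  ring

theorem omul_add (x y z : ℍ[ℝ] × ℍ[ℝ]) : omul x (y + z) = omul x y + omul x z := by
  unfold omul
  refine Prod.ext ?_ ?_
  · simp [mul_add, add_mul]
    abel
  · simp [mul_add, add_mul]
    abel

theorem omul_smul (c : ℝ) (x y : ℍ[ℝ] × ℍ[ℝ]) : omul x (c • y) = c • omul x y := by
  unfold omul
  refine Prod.ext ?_ ?_
  · simp [smul_sub]
  · simp

/-- left multiplication by a unit octonion -/
noncomputable def mulL (u : S7) : (ℍ[ℝ] × ℍ[ℝ]) ≃ₗ[ℝ] (ℍ[ℝ] × ℍ[ℝ]) where
  toFun x := omul u.1 x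
  invFun x := omul (oconj u.1) x
  map_add' := omul_add _
  map_smul' c x := omul_smul c _ x
  left_inv x := by
    have h1 : osq u.1 = 1 := u.2
    change omul (oconj u.1) (omul u.1 x) = x
    rw [oconj_omul_omul, h1, one_smul]
  right_inv x := by
    have h1 : osq u.1 = 1 := u.2
    change omul u.1 (omul (oconj u.1) x) = x
    rw [omul_oconj_omul, h1, one_smul]

theorem osq_nonneg (x : ℍ[ℝ] × ℍ[ℝ]) : 0 ≤ osq x := add_nonneg normSq_nonneg normSq_nonneg

/-- constructor for unit octonions -/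
def mkS (x : ℍ[ℝ] × ℍ[ℝ]) (h : osq x = 1) : S7 := ⟨x, h⟩

theorem osq_normalize (x : ℍ[ℝ] × ℍ[ℝ]) (h : ¬ osq x = 0) :
    osq ((Real.sqrt (osq x))⁻¹ • x) = 1 := by
  rw [osq_smul, inv_pow, Real.sq_sqrt (osq_nonneg x), inv_mul_cancel₀ h]

/-- radial projection -/
noncomputable def rad (x : ℍ[ℝ] × ℍ[ℝ]) : S7 :=
  if h : osq x = 0 then 1 else mkS ((Real.sqrt (osq x))⁻¹ • x) (osq_normalize x h)

theorem rad_val (x : ℍ[ℝ] × ℍ[ℝ]) (h : osq x ≠ 0) :
    (rad x).1 = (Real.sqrt (osq x))⁻¹ • x := by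
  rw [rad, dif_neg h]
  rfl

theorem rad_mul (u : S7) (x : ℍ[ℝ] × ℍ[ℝ]) (hx : osq x ≠ 0) :
    rad (mulL u x) = u * rad x := by
  have h1 : osq u.1 = 1 := u.2
  have h2 : osq (mulL u x) = osq x := by
    change osq (omul u.1 x) = osq x
    rw [osq_omul, h1, one_mul]
  have h3 : osq (mulL u x) ≠ 0 := by rw [h2]; exact hx
  have h4 : (u * rad x).1 = omul u.1 (rad x).1 := rfl
  refine Subtype.ext ?_
  rw [h4, rad_val _ h3, rad_val _ hx, omul_smul, h2]
  rfl

/-- the shell -/
def shell : Set (ℍ[ℝ] × ℍ[ℝ]) := {x | 1 ≤ osq x ∧ osq x ≤ 4}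

theorem isCompact_shell : IsCompact shell := by
  refine Metric.isCompact_of_isClosed_isBounded ?_ ?_
  · exact (isClosed_le continuous_const continuous_osq).inter
      (isClosed_le continuous_osq continuous_const)
  · rw [isBounded_iff_forall_norm_le]
    refine ⟨2, fun x hx => norm_le_of_osq x 2 (by norm_num) ?_⟩
    have := hx.2
    linarith

theorem osq_ne_zero_of_shell {x : ℍ[ℝ] × ℍ[ℝ]} (hx : x ∈ shell) : osq x ≠ 0 := by
  have h1 := hx.1
  intro h0
  rw [h0] at h1
  linarith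

theorem continuousOn_rad : ContinuousOn rad shell := by
  have hemb : IsEmbedding (Subtype.val :
      {x : ℍ[ℝ] × ℍ[ℝ] // normSq x.1 + normSq x.2 = 1} → ℍ[ℝ] × ℍ[ℝ]) := IsEmbedding.subtypeVal
  refine hemb.continuousOn_iff.mpr ?_
  have h4 : ContinuousOn (fun x : ℍ[ℝ] × ℍ[ℝ] => Real.sqrt (osq x)) shell :=
    (Real.continuous_sqrt.comp continuous_osq).continuousOn
  have h5 : ContinuousOn (fun x : ℍ[ℝ] × ℍ[ℝ] => (Real.sqrt (osq x))⁻¹) shell := by
    refine ContinuousOn.inv₀ h4 fun x hx => ?_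
    have h6 := hx.1
    exact (Real.sqrt_pos.mpr (by linarith)).ne'
  have h3 : ContinuousOn (fun x : ℍ[ℝ] × ℍ[ℝ] => (Real.sqrt (osq x))⁻¹ • x) shell :=
    h5.smul continuousOn_id
  exact h3.congr fun x hx => rad_val x (osq_ne_zero_of_shell hx)

theorem hasMean_S7 : HasMean S7 := by
  let : MeasurableSpace (ℍ[ℝ] × ℍ[ℝ]) := borel _
  have : BorelSpace (ℍ[ℝ] × ℍ[ℝ]) := ⟨rfl⟩
  let : MeasurableSpace S7 := borel _
  have : BorelSpace S7 := ⟨rfl⟩
  let μ : Measure (ℍ[ℝ] × ℍ[ℝ]) := Measure.addHaar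
  have hA : MeasurableSet shell := isCompact_shell.isClosed.measurableSet
  have hA1 : μ shell ≠ ⊤ := isCompact_shell.measure_lt_top.ne
  have hA0 : μ shell ≠ 0 := by
    have ho : IsOpen {x : ℍ[ℝ] × ℍ[ℝ] | 1 < osq x ∧ osq x < 4} :=
      (isOpen_lt continuous_const continuous_osq).inter (isOpen_lt continuous_osq continuous_const)
    have hne : {x : ℍ[ℝ] × ℍ[ℝ] | 1 < osq x ∧ osq x < 4}.Nonempty := by
      refine ⟨((((3 / 2 : ℝ) : ℍ[ℝ]), (0 : ℍ[ℝ])) : ℍ[ℝ] × ℍ[ℝ]), ?_⟩
      have h1 : osq ((((3 / 2 : ℝ) : ℍ[ℝ]), (0 : ℍ[ℝ])) : ℍ[ℝ] × ℍ[ℝ]) = (3 / 2) ^ 2 := by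
        unfold osq
        rw [normSq_coe, map_zero, add_zero]
      constructor
      · rw [h1]; norm_num
      · rw [h1]; norm_num
    have hsub : {x : ℍ[ℝ] × ℍ[ℝ] | 1 < osq x ∧ osq x < 4} ⊆ shell :=
      fun x hx => ⟨hx.1.le, hx.2.le⟩
    exact ((ho.measure_pos μ hne).trans_le (measure_mono hsub)).ne'
  have hpre : ∀ u : S7, (mulL u) ⁻¹' shell = shell := by
    intro u
    ext x
    have h1 : osq u.1 = 1 := u.2
    have h2 : osq (mulL u x) = osq x := by
      change osq (omul u.1 x) = osq x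
      rw [osq_omul, h1, one_mul]
    simp only [shell, Set.mem_preimage, Set.mem_ofPred_eq, h2]
  have hint : ∀ f : C(S7, ℝ), IntegrableOn (fun x => f (rad x)) shell μ := fun f =>
    (f.continuous.comp_continuousOn continuousOn_rad).integrableOn_compact isCompact_shell
  have hreal : (0 : ℝ) < μ.real shell := ENNReal.toReal_pos hA0 hA1
  let Λ : Mean S7 :=
  { toFun := fun f => (μ.real shell)⁻¹ * ∫ x in shell, f (rad x) ∂μ
    add := fun f g => by
      rw [← mul_add]
      congr 1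
      exact integral_add (hint f) (hint g)
    smul := fun c f => by
      rw [mul_left_comm]
      congr 1
      exact integral_const_mul _ _
    mono := fun f g hfg => by
      refine mul_le_mul_of_nonneg_left ?_ (inv_nonneg.mpr hreal.le)
      exact setIntegral_mono (hint f) (hint g) fun x => hfg _
    one := by
      have h1 : ∫ x in shell, (1 : C(S7, ℝ)) (rad x) ∂μ = μ.real shell := by
        simp
      rw [h1, inv_mul_cancel₀ hreal.ne'] }
  have hleft : ∀ (u : S7) (f : C(S7, ℝ)), Λ (cl f u) = Λ f := by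
    intro u f
    change (μ.real shell)⁻¹ * ∫ x in shell, f (u * rad x) ∂μ =
      (μ.real shell)⁻¹ * ∫ x in shell, f (rad x) ∂μ
    congr 1
    have hmap := map_eq_of_preserves μ (mulL u) shell hA hA0 hA1 (hpre u)
    have hmeas : Measurable (mulL u) := (LinearMap.continuous_of_finiteDimensional
      (mulL u : (ℍ[ℝ] × ℍ[ℝ]) →ₗ[ℝ] (ℍ[ℝ] × ℍ[ℝ]))).measurable
    have hmp : MeasurePreserving (mulL u) μ μ := ⟨hmeas, hmap⟩
    have hemb : MeasurableEmbedding (mulL u) :=
      (LinearEquiv.toContinuousLinearEquiv (mulL u)).toHomeomorph.measurableEmbedding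
    have h2 := hmp.setIntegral_preimage_emb hemb (fun x => f (rad x)) shell
    rw [hpre u] at h2
    rw [← h2]
    refine setIntegral_congr_fun hA fun x hx => ?_
    have hx0 : osq x ≠ 0 := osq_ne_zero_of_shell hx
    change f (u * rad x) = f (rad (mulL u x))
    rw [rad_mul u x hx0]
  obtain ⟨ν, hp, hν⟩ := Λ.exists_measure
  refine hasInt_iff_hasMean.mp (hasInt_of_left ν fun u f => ?_)
  have h1 := hν (cl f u)
  simp only [cl_apply] at h1
  rw [h1, hν, hleft]

/-- a group is a Moufang loop -/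
@[reducible] def groupMLoop (G : Type*) [Group G] : MLoop G where
  one_mul' := _root_.one_mul
  mul_one' := _root_.mul_one
  inv_mul_cancel_left' := _root_.inv_mul_cancel_left
  mul_inv_cancel_left' := _root_.mul_inv_cancel_left
  moufang' x y z := by simp only [mul_assoc]

theorem hasMean_group (G : Type*) [Group G] [TopologicalSpace G] [IsTopologicalGroup G]
    [CompactSpace G] [T2Space G] :
    ∃ h : @TopMLoop G (groupMLoop G) _, @HasMean G (groupMLoop G) _ h := by
  let : MLoop G := groupMLoop G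
  have htop : TopMLoop G := ⟨continuous_mul, continuous_inv⟩
  refine ⟨htop, ?_⟩
  let : MeasurableSpace G := borel _
  have : BorelSpace G := ⟨rfl⟩
  let μ : Measure G := Measure.haarMeasure ⊤
  have hp : IsProbabilityMeasure μ := ⟨by
    have := Measure.haarMeasure_self (K₀ := (⊤ : TopologicalSpace.PositiveCompacts G))
    simpa using this⟩
  refine hasInt_iff_hasMean.mp (hasInt_of_left μ fun a f => ?_)
  exact integral_mul_left_eq_self (μ := μ) (fun x => f x) a

end Pool.Agent.MoufangHaar
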