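import Mathlib
import Pool.Agent.Lib.MP_fd6bc6_al.Quot
import Pool.Agent.Lib.MP_fd6bc6_al.Sphere

set_option autoImplicit false

open MeasureTheory Topology

namespace Pool.Agent.MoufangHaar

/-- The structure of a topological Moufang loop on a topological space. -/
structure TopMoufang (L : Type*) [TopologicalSpace L] where
  /-- multiplication -/
  mul : L → L → L
  /-- left division -/
  ldiv : L → L → L
  /-- right division -/
  rdiv : L → L → L
  /-- unit -/
  e : L
  e_mul : ∀ x, mul e x = x
  mul_e : ∀ x, mul x e = x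
  mul_ldiv : ∀ x y, mul x (ldiv x y) = y
  ldiv_mul : ∀ x y, ldiv x (mul x y) = y
  rdiv_mul : ∀ x y, mul (rdiv y x) x = y
  mul_rdiv : ∀ x y, rdiv (mul y x) x = y
  moufang : ∀ x y z, mul z (mul x (mul z y)) = mul (mul (mul z x) z) y
  cont_mul : Continuous (fun p : L × L => mul p.1 p.2)
  cont_ldiv : Continuous (fun p : L × L => ldiv p.1 p.2)
  cont_rdiv : Continuous (fun p : L × L => rdiv p.1 p.2)

/-- There is a Borel probability measure invariant under all left and right translations. -/
def TopMoufang.HasHaar {L : Type*} [TopologicalSpace L] [MeasurableSpace L]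
    (A : TopMoufang L) : Prop :=
  ∃ μ : Measure L, IsProbabilityMeasure μ ∧
    ∀ a : L, μ.map (fun x => A.mul a x) = μ ∧ μ.map (fun x => A.mul x a) = μ

/-- The Moufang loop structure given by a multiplication, divisions and a unit. -/
@[reducible] def ofData {L : Type*} (mul ldiv : L → L → L) (e : L)
    (h1 : ∀ x, mul e x = x) (h2 : ∀ x, mul x e = x)
    (h3 : ∀ x y, mul x (ldiv x y) = y) (h4 : ∀ x y, ldiv x (mul x y) = y)
    (h7 : ∀ x y z, mul z (mul x (mul z y)) = mul (mul (mul z x) z) y) : MLoop L where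
  mul := mul
  one := e
  inv x := ldiv x e
  one_mul' := h1
  mul_one' := h2
  inv_mul_cancel_left' x y := by
    change mul (ldiv x e) (mul x y) = y
    have h := h7 (ldiv x e) y x
    rw [h3, h1] at h
    have h' := congrArg (ldiv x) h
    rwa [h4, h4] at h'
  mul_inv_cancel_left' x y := by
    change mul x (mul (ldiv x e) y) = y
    have key : ∀ w, mul (ldiv x e) (mul x w) = w := by
      intro w
      have h := h7 (ldiv x e) w x
      rw [h3, h1] at h
      have h' := congrArg (ldiv x) h
      rwa [h4, h4] at h'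
    have h := key (ldiv x y)
    rw [h3] at h
    rw [h, h3]
  moufang' := h7

theorem topOfData {L : Type*} [TopologicalSpace L] (mul ldiv : L → L → L) (e : L)
    (h1 : ∀ x, mul e x = x) (h2 : ∀ x, mul x e = x)
    (h3 : ∀ x y, mul x (ldiv x y) = y) (h4 : ∀ x y, ldiv x (mul x y) = y)
    (h7 : ∀ x y z, mul z (mul x (mul z y)) = mul (mul (mul z x) z) y)
    (c1 : Continuous (fun p : L × L => mul p.1 p.2))
    (c2 : Continuous (fun p : L × L => ldiv p.1 p.2)) :
    @TopMLoop L (ofData mul ldiv e h1 h2 h3 h4 h7) _ :=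
  let _ : MLoop L := ofData mul ldiv e h1 h2 h3 h4 h7
  ⟨c1, c2.comp (Continuous.prodMk_left e)⟩

/-- the structure used in the proofs -/
@[reducible] def TopMoufang.toM {L : Type*} [TopologicalSpace L] (A : TopMoufang L) : MLoop L :=
  ofData A.mul A.ldiv A.e A.e_mul A.mul_e A.mul_ldiv A.ldiv_mul A.moufang

theorem TopMoufang.toT {L : Type*} [TopologicalSpace L] (A : TopMoufang L) :
    @TopMLoop L A.toM _ :=
  topOfData A.mul A.ldiv A.e A.e_mul A.mul_e A.mul_ldiv A.ldiv_mul A.moufang A.cont_mul
    A.cont_ldiv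

section

variable {L Q : Type*} [MLoop L] [TopologicalSpace L] [CompactSpace L] [T2Space L] [TopMLoop L]
  [MeasurableSpace L] [BorelSpace L] [MLoop Q] {φ : L → Q}

theorem KerHaar.of_map (m : Measure L) [IsProbabilityMeasure m] (h0 : m {x | φ x = 1}ᶜ = 0)
    (h : ∀ n, φ n = 1 → m.map (fun x => n * x) = m ∧ m.map (fun x => x * n) = m) :
    KerHaar φ m := by
  refine ⟨inferInstance, h0, fun n hn f => ?_, fun n hn f => ?_⟩
  · conv_rhs => rw [← (h n hn).1]
    rw [integral_map (TopMLoop.continuous_mul_left n).measurable.aemeasurable (aesm f _)]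
  · conv_rhs => rw [← (h n hn).2]
    rw [integral_map (TopMLoop.continuous_mul_right n).measurable.aemeasurable (aesm f _)]

theorem KerHaar.map_eq {m : Measure L} (hm : KerHaar φ m) (hreg : m.Regular) (n : L)
    (hn : φ n = 1) : m.map (fun x => n * x) = m ∧ m.map (fun x => x * n) = m := by
  have := hm.prob
  exact ⟨map_homeo_eq_of_regular m (lt n) (hm.left n hn),
    map_homeo_eq_of_regular m (rt n) (hm.right n hn)⟩

/-- a loop with an invariant mean mapped onto the kernel -/
theorem kerHaar_of_image {M : Type*} [MLoop M] [TopologicalSpace M] [TopMLoop M]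
    [CompactSpace M] [T2Space M] (hM : HasMean M) (ψ : M → L) (hψ : IsMHom ψ)
    (hc : Continuous ψ) (hr : Set.range ψ = {x | φ x = 1}) : ∃ m : Measure L, KerHaar φ m := by
  let : MeasurableSpace M := borel M
  have : BorelSpace M := ⟨rfl⟩
  obtain ⟨μ, hp, hμ⟩ := hasInt_iff_hasMean.mpr hM
  have key : ∀ g : C(L, ℝ), ∫ x, g x ∂(μ.map ψ) = ∫ x, g (ψ x) ∂μ := fun g =>
    integral_map hc.measurable.aemeasurable (aesm g _)
  have hmem : ∀ x, φ (ψ x) = 1 := fun x => by
    have : ψ x ∈ {x | φ x = 1} := by rw [← hr]; exact ⟨x, rfl⟩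
    exact this
  have hclosed : IsClosed {x | φ x = 1} := by
    rw [← hr]
    exact (isCompact_range hc).isClosed
  refine ⟨μ.map ψ, Measure.isProbabilityMeasure_map hc.measurable.aemeasurable, ?_,
    fun n hn f => ?_, fun n hn f => ?_⟩
  · rw [ae_map_iff hc.measurable.aemeasurable hclosed.measurableSet]
    exact Filter.Eventually.of_forall hmem
  · obtain ⟨p, rfl⟩ : ∃ p, ψ p = n := by
      have : n ∈ Set.range ψ := by rw [hr]; exact hn
      exact this
    have h1 := key (cl f (ψ p))
    simp only [cl_apply] at h1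
    have h2 := (hμ p (f.comp ⟨ψ, hc⟩)).1
    simp only [ContinuousMap.comp_apply, ContinuousMap.coe_mk, hψ.map_mul] at h2
    rw [h1, key f, h2]
  · obtain ⟨p, rfl⟩ : ∃ p, ψ p = n := by
      have : n ∈ Set.range ψ := by rw [hr]; exact hn
      exact this
    have h1 := key (cr f (ψ p))
    simp only [cr_apply] at h1
    have h2 := (hμ p (f.comp ⟨ψ, hc⟩)).2
    simp only [ContinuousMap.comp_apply, ContinuousMap.coe_mk, hψ.map_mul] at h2
    rw [h1, key f, h2]

end

end Pool.Agent.MoufangHaar
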