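import Mathlib
import Pool.Agent.Lib.MP_fd6bc6_al.Data
import Pool.Agent.Lib.MP_fd6bc6_al.Lim

set_option autoImplicit false

open MeasureTheory Topology

namespace Pool.Agent.MoufangHaar

universe u

/-- The topological Moufang loop is a continuous homomorphic image of the product of a compact
Hausdorff group and a power of the loop of unit octonions. -/
def TopMoufang.IsClassical {M : Type u} [TopologicalSpace M] (B : TopMoufang M) : Prop :=
  ∃ (G I : Type u) (_ : Group G) (_ : TopologicalSpace G) (_ : IsTopologicalGroup G)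
    (_ : CompactSpace G) (_ : T2Space G) (ψ : G × (I → S7) → M),
    Continuous ψ ∧ Function.Surjective ψ ∧ ∀ p q, ψ (p * q) = B.mul (ψ p) (ψ q)

/-- The identity component is a projective limit of such loops: it has continuous
homomorphisms with arbitrarily small kernels onto them. -/
def TopMoufang.ProClassicalComponent {L : Type u} [TopologicalSpace L] (A : TopMoufang L) :
    Prop :=
  ∀ U : Set L, IsOpen U → A.e ∈ U →
    ∃ (M : Type u) (_ : TopologicalSpace M) (_ : T2Space M) (B : TopMoufang M) (ρ : L → M),
      B.IsClassical ∧ ContinuousOn ρ (connectedComponent A.e) ∧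
      (∀ x ∈ connectedComponent A.e, ∀ y ∈ connectedComponent A.e,
        ρ (A.mul x y) = B.mul (ρ x) (ρ y)) ∧
      ρ '' connectedComponent A.e = Set.univ ∧
      ∀ x ∈ connectedComponent A.e, ρ x = B.e → x ∈ U

theorem hasMean_of_classical {M : Type u} [TopologicalSpace M] [T2Space M] (B : TopMoufang M)
    (h : B.IsClassical) : @HasMean M B.toM _ B.toT := by
  obtain ⟨G, I, iG, tG, topG, cG, t2G, ψ, hc, hs, hmul⟩ := h
  let : MLoop M := B.toM
  have : TopMLoop M := B.toT
  obtain ⟨htop, hG⟩ := hasMean_group G
  let : MLoop G := groupMLoop G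
  have : TopMLoop G := htop
  have hS : HasMean (I → S7) := HasMean.pi fun _ => hasMean_S7
  have hP : HasMean (G × (I → S7)) := HasMean.prod hG hS
  exact HasMean.image ψ ⟨hmul⟩ hc hs hP

section

variable {L : Type*} [MLoop L] [TopologicalSpace L] [TopMLoop L]

/-- the identity component as a loop -/
instance compMLoop : MLoop (connectedComponent (1 : L)) where
  mul x y := ⟨x.1 * y.1, by
    rw [← mk_eq_one_iff]
    have hx := (mk_eq_one_iff x.1).mpr x.2
    have hy := (mk_eq_one_iff y.1).mpr y.2
    rw [cc_hom.map_mul, hx, hy, MLoop.one_mul]⟩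
  one := ⟨1, mem_connectedComponent⟩
  inv x := ⟨x.1⁻¹, by
    rw [← mk_eq_one_iff]
    have hx := (mk_eq_one_iff x.1).mpr x.2
    rw [cc_hom.map_inv, hx]
    have h := MLoop.inv_mul_self (1 : ConnectedComponents L)
    rwa [MLoop.mul_one] at h⟩
  one_mul' x := Subtype.ext (MLoop.one_mul x.1)
  mul_one' x := Subtype.ext (MLoop.mul_one x.1)
  inv_mul_cancel_left' x y := Subtype.ext (MLoop.inv_mul_left x.1 y.1)
  mul_inv_cancel_left' x y := Subtype.ext (MLoop.mul_inv_left x.1 y.1)
  moufang' x y z := Subtype.ext (MLoop.moufang x.1 y.1 z.1)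

instance compTop : TopMLoop (connectedComponent (1 : L)) where
  cont_mul := Continuous.subtype_mk (TopMLoop.cmul (continuous_subtype_val.comp continuous_fst)
    (continuous_subtype_val.comp continuous_snd)) _
  cont_inv := Continuous.subtype_mk (TopMLoop.cinv continuous_subtype_val) _

end

theorem hasHaar_of_proClassical {L : Type u} [TopologicalSpace L] [CompactSpace L] [T2Space L]
    [MeasurableSpace L] [BorelSpace L] (A : TopMoufang L) (h : A.ProClassicalComponent) :
    A.HasHaar := by
  let : MLoop L := A.toM
  have : TopMLoop L := A.toT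
  have hcomp : CompactSpace (connectedComponent (1 : L)) :=
    isCompact_iff_compactSpace.mp (isClosed_connectedComponent.isCompact)
  have hK : HasMean (connectedComponent (1 : L)) := by
    refine HasMean.lim fun U hU h1 => ?_
    obtain ⟨V, hV, rfl⟩ := isOpen_induced_iff.mp hU
    obtain ⟨M, tM, t2M, B, ρ, hB, hρc, hρm, hρs, hρk⟩ := h V hV h1
    refine ⟨M, B.toM, tM, t2M, B.toT, fun x => ρ x.1, hasMean_of_classical B hB, ?_, ?_, ?_, ?_⟩
    · exact @IsMHom.mk _ _ _ B.toM _ fun x y => hρm x.1 x.2 y.1 y.2
    · exact continuousOn_iff_continuous_domRestrict.mp hρc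
    · intro m
      have hm : m ∈ ρ '' connectedComponent (1 : L) := by
        change m ∈ ρ '' connectedComponent A.e
        rw [hρs]
        exact Set.mem_univ m
      obtain ⟨x, hx, hxm⟩ := hm
      exact ⟨⟨x, hx⟩, hxm⟩
    · intro x hx
      exact hρk x.1 x.2 hx
  have hker : ∃ m : Measure L,
      KerHaar (ConnectedComponents.mk : L → ConnectedComponents L) m := by
    refine kerHaar_of_image hK (Subtype.val : connectedComponent (1 : L) → L) ⟨fun _ _ => rfl⟩
      continuous_subtype_val ?_
    rw [Subtype.range_coe]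
    ext x
    exact (mk_eq_one_iff x).symm
  exact hasHaar_iff_component.mpr hker

end Pool.Agent.MoufangHaar
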