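import Mathlib
import Pool.Agent.Lib.MP_fd6bc6_al.Mlt
import Pool.Agent.Lib.MP_fd6bc6_al.Classical

set_option autoImplicit false
set_option linter.unusedSectionVars false

open MeasureTheory Topology Uniformity

namespace Pool.Agent.MoufangHaar

section

variable {L : Type*} [MLoop L] [TopologicalSpace L] [CompactSpace L] [T2Space L] [TopMLoop L]

/-- the set of means in the space of all functions on the continuous functions -/
def PS (L : Type*) [TopologicalSpace L] : Set (C(L, ℝ) → ℝ) :=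
  {Λ | (∀ f g, Λ (f + g) = Λ f + Λ g) ∧ (∀ (c : ℝ) f, Λ (c • f) = c * Λ f) ∧
    (∀ f g, f ≤ g → Λ f ≤ Λ g) ∧ Λ 1 = 1}

/-- the mean of an element -/
def toMean {Λ : C(L, ℝ) → ℝ} (h : Λ ∈ PS L) : Mean L := ⟨Λ, h.1, h.2.1, h.2.2.1, h.2.2.2⟩

theorem PS_abs {Λ : C(L, ℝ) → ℝ} (h : Λ ∈ PS L) (f g : C(L, ℝ)) : |Λ f - Λ g| ≤ ‖f - g‖ :=
  (toMean h).abs_sub_le f g _ fun x => by
    have := (f - g).norm_coe_le_norm x
    rwa [Real.norm_eq_abs] at this

theorem PS_closed : IsClosed (PS L) := by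
  have h : PS L = (⋂ (f : C(L, ℝ)) (g : C(L, ℝ)), {Λ | Λ (f + g) = Λ f + Λ g}) ∩
      ((⋂ (c : ℝ) (f : C(L, ℝ)), {Λ | Λ (c • f) = c * Λ f}) ∩
      ((⋂ (f : C(L, ℝ)) (g : C(L, ℝ)) (_ : f ≤ g), {Λ | Λ f ≤ Λ g}) ∩ {Λ | Λ 1 = 1})) := by
    ext Λ
    simp only [PS, Set.mem_inter_iff, Set.mem_iInter]
    rfl
  rw [h]
  refine IsClosed.inter ?_ (IsClosed.inter ?_ (IsClosed.inter ?_ ?_))
  · exact isClosed_iInter fun f => isClosed_iInter fun g =>
      isClosed_eq (continuous_apply _) ((continuous_apply f).add (continuous_apply g))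
  · exact isClosed_iInter fun c => isClosed_iInter fun f =>
      isClosed_eq (continuous_apply _) (continuous_const.mul (continuous_apply f))
  · exact isClosed_iInter fun f => isClosed_iInter fun g => isClosed_iInter fun _ =>
      isClosed_le (continuous_apply f) (continuous_apply g)
  · exact isClosed_eq (continuous_apply _) continuous_const

theorem PS_compact : IsCompact (PS L) := by
  have h1 : IsCompact (Set.univ.pi fun f : C(L, ℝ) => Set.Icc (-‖f‖) ‖f‖) :=
    isCompact_univ_pi fun f => isCompact_Icc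
  refine h1.of_isClosed_subset PS_closed fun Λ hΛ f _ => ?_
  have h2 := PS_abs hΛ f 0
  have h3 : Λ 0 = 0 := by
    have := hΛ.2.1 0 0
    rwa [zero_smul, zero_mul] at this
  rw [h3, sub_zero, sub_zero] at h2
  exact abs_le.mp h2

theorem PS_convex : Convex ℝ (PS L) := by
  intro Λ hΛ M hM a b ha hb hab
  refine ⟨fun f g => ?_, fun c f => ?_, fun f g hfg => ?_, ?_⟩
  · simp only [Pi.add_apply, Pi.smul_apply, smul_eq_mul, hΛ.1, hM.1]
    ring
  · simp only [Pi.add_apply, Pi.smul_apply, smul_eq_mul, hΛ.2.1, hM.2.1]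
    ring
  · simp only [Pi.add_apply, Pi.smul_apply, smul_eq_mul]
    have h1 := mul_le_mul_of_nonneg_left (hΛ.2.2.1 f g hfg) ha
    have h2 := mul_le_mul_of_nonneg_left (hM.2.2.1 f g hfg) hb
    linarith
  · simp only [Pi.add_apply, Pi.smul_apply, smul_eq_mul, hΛ.2.2.2, hM.2.2.2]
    linarith

/-- the push-forward by a continuous map -/
noncomputable def pf (g : C(L, L)) : (C(L, ℝ) → ℝ) →L[ℝ] (C(L, ℝ) → ℝ) :=
  ContinuousLinearMap.pi fun f => ContinuousLinearMap.proj (f.comp g)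

theorem pf_apply (g : C(L, L)) (Λ : C(L, ℝ) → ℝ) (f : C(L, ℝ)) :
    pf g Λ f = Λ (f.comp g) := rfl

theorem pf_mem (g : C(L, L)) {Λ : C(L, ℝ) → ℝ} (h : Λ ∈ PS L) : pf g Λ ∈ PS L :=
  ⟨fun f f' => h.1 (f.comp g) (f'.comp g), fun c f => h.2.1 c (f.comp g),
    fun f f' hf => h.2.2.1 (f.comp g) (f'.comp g) fun x => hf (g x), h.2.2.2⟩

/-- a left invariant mean gives an invariant measure -/
theorem hasMean_of_left {Λ : C(L, ℝ) → ℝ} (h : Λ ∈ PS L)
    (hinv : ∀ (a : L) (f : C(L, ℝ)), Λ (cl f a) = Λ f) : HasMean L := by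
  let : MeasurableSpace L := borel L
  have : BorelSpace L := ⟨rfl⟩
  obtain ⟨μ, hp, hμ⟩ := (toMean h).exists_measure
  refine hasInt_iff_hasMean.mp (hasInt_of_left μ fun a f => ?_)
  have h1 := hμ (cl f a)
  simp only [cl_apply] at h1
  rw [h1, hμ]
  exact hinv a f

theorem cl_continuous (f : C(L, ℝ)) : Continuous (fun b : L => cl f b) := by
  let F : C(L, C(L, ℝ)) := ContinuousMap.curry ⟨fun p : L × L => f (p.1 * p.2),
    f.continuous.comp TopMLoop.cont_mul⟩
  exact F.continuous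

theorem contOn (f : C(L, ℝ)) (a : L) (S : Set (L → L)) :
    ContinuousOn (fun p : (L → L) × (C(L, ℝ) → ℝ) => p.2 (cl f (p.1 a))) (S ×ˢ PS L) := by
  intro p0 hp0
  rw [ContinuousWithinAt, tendsto_iff_dist_tendsto_zero]
  have h1 : Filter.Tendsto (fun p : (L → L) × (C(L, ℝ) → ℝ) =>
      ‖cl f (p.1 a) - cl f (p0.1 a)‖ + |p.2 (cl f (p0.1 a)) - p0.2 (cl f (p0.1 a))|)
      (𝓝[S ×ˢ PS L] p0) (𝓝 0) := by
    have hc : Continuous (fun p : (L → L) × (C(L, ℝ) → ℝ) =>
        ‖cl f (p.1 a) - cl f (p0.1 a)‖ + |p.2 (cl f (p0.1 a)) - p0.2 (cl f (p0.1 a))|) := by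
      refine Continuous.add ?_ ?_
      · exact (((cl_continuous f).comp ((continuous_apply a).comp continuous_fst)).sub
          continuous_const).norm
      · exact (((continuous_apply _).comp continuous_snd).sub continuous_const).abs
    have h2 := hc.tendsto p0
    simp only [sub_self, norm_zero, abs_zero, add_zero] at h2
    exact h2.mono_left nhdsWithin_le_nhds
  refine squeeze_zero' (Filter.Eventually.of_forall fun _ => dist_nonneg) ?_ h1
  filter_upwards [self_mem_nhdsWithin] with p hp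
  rw [Real.dist_eq]
  have h3 := PS_abs hp.2 (cl f (p.1 a)) (cl f (p0.1 a))
  have h4 := abs_sub_le (p.2 (cl f (p.1 a))) (p.2 (cl f (p0.1 a))) (p0.2 (cl f (p0.1 a)))
  linarith

/-- If all limits of translations are injective, there is an invariant mean. -/
theorem hasMean_of_injective
    (hinj : ∀ p ∈ Ellis.clo {g : L → L | TM g}, Function.Injective p) : HasMean L := by
  let G : Set ((C(L, ℝ) → ℝ) →L[ℝ] (C(L, ℝ) → ℝ)) := {φ | ∃ g : C(L, L), TM (g : L → L) ∧ φ = pf g}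
  obtain ⟨z, hz, q, hq, H⟩ := FA.strongly_proximal G
    ⟨ContinuousMap.id L, TM.id, rfl⟩
    (by
      rintro φ ⟨g, hg, rfl⟩ ψ ⟨h, hh, rfl⟩
      exact ⟨g.comp h, hg.comp hh, rfl⟩)
    (PS L) PS_compact PS_convex
    ⟨fun f => f 1, fun _ _ => rfl, fun _ _ => rfl, fun _ _ h => h 1, rfl⟩
    (by
      rintro φ ⟨g, hg, rfl⟩ Λ hΛ
      exact pf_mem g hΛ)
  -- the limiting map and the limiting mean
  have key : ∃ A : L → L, A ∈ Ellis.clo {g : L → L | TM g} ∧ ∃ w ∈ PS L,
      ∀ (a : L) (f : C(L, ℝ)), w (cl f (A a)) = z f := by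
    classical
    have hK0 : IsCompact (Ellis.clo {g : L → L | TM g} ×ˢ PS L) :=
      (isClosed_closure.isCompact).prod PS_compact
    let t : L × C(L, ℝ) × ℕ → Set ((L → L) × (C(L, ℝ) → ℝ)) := fun i =>
      (Ellis.clo {g : L → L | TM g} ×ˢ PS L) ∩
        (fun p : (L → L) × (C(L, ℝ) → ℝ) => p.2 (cl i.2.1 (p.1 i.1))) ⁻¹'
          {r : ℝ | |r - z i.2.1| ≤ 1 / ((i.2.2 : ℝ) + 1)}
    have htc : ∀ i, IsClosed (t i) := fun i =>
      (contOn i.2.1 i.1 _).preimage_isClosed_of_isClosed hK0.isClosed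
        (isClosed_le (continuous_id.sub continuous_const).abs continuous_const)
    have hfin : ∀ u : Finset (L × C(L, ℝ) × ℕ),
        ((Ellis.clo {g : L → L | TM g} ×ˢ PS L) ∩ ⋂ i ∈ u, t i).Nonempty := by
      intro u
      let l : List ((C(L, ℝ) → ℝ) →L[ℝ] (C(L, ℝ) → ℝ)) :=
        u.toList.map fun i => pf ⟨fun x => i.1 * x, TopMLoop.continuous_mul_left i.1⟩
      let U : Set (C(L, ℝ) → ℝ) := ⋂ i ∈ u, {Λ | |Λ i.2.1 - z i.2.1| < 1 / ((i.2.2 : ℝ) + 1)}
      have hU : U ∈ 𝓝 z := by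
        refine (Filter.biInter_finset_mem u).mpr fun i _ => ?_
        refine (isOpen_lt ((continuous_apply i.2.1).sub continuous_const).abs
          continuous_const).mem_nhds ?_
        change |z i.2.1 - z i.2.1| < 1 / ((i.2.2 : ℝ) + 1)
        rw [sub_self, abs_zero]
        positivity
      obtain ⟨φ, ⟨g, hg, rfl⟩, hgU⟩ := H l (by
        intro h hh
        obtain ⟨i, _, rfl⟩ := List.mem_map.mp hh
        exact ⟨_, TM.left i.1 TM.id, rfl⟩) U hU
      obtain ⟨f', h', hf', hh', Hg⟩ := TM.third hg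
      have hA : f' ∈ Ellis.clo {g : L → L | TM g} := subset_closure hf'
      have hw : pf ⟨h', hh'.continuous⟩ q ∈ PS L := pf_mem _ hq
      refine ⟨(f', pf ⟨h', hh'.continuous⟩ q), ⟨hA, hw⟩, ?_⟩
      simp only [Set.mem_iInter]
      intro i hi
      refine ⟨⟨hA, hw⟩, ?_⟩
      have h2 := hgU (pf ⟨fun x => i.1 * x, TopMLoop.continuous_mul_left i.1⟩)
        (List.mem_map.mpr ⟨i, Finset.mem_toList.mpr hi, rfl⟩)
      simp only [U, Set.mem_iInter] at h2
      have h3 := h2 i hi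
      have h4 : (pf g (pf ⟨fun x => i.1 * x, TopMLoop.continuous_mul_left i.1⟩ q)) i.2.1 =
          (pf ⟨h', hh'.continuous⟩ q) (cl i.2.1 (f' i.1)) := by
        change q _ = q _
        congr 1
        ext x
        change i.2.1 (g (i.1 * x)) = i.2.1 (f' i.1 * h' x)
        rw [Hg]
      change |(pf ⟨h', hh'.continuous⟩ q) (cl i.2.1 (f' i.1)) - z i.2.1| ≤ 1 / ((i.2.2 : ℝ) + 1)
      rw [← h4]
      exact le_of_lt h3
    obtain ⟨⟨A, w⟩, ⟨hA, hw⟩, hAw⟩ := hK0.inter_iInter_nonempty t htc hfin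
    refine ⟨A, hA, w, hw, fun a f => ?_⟩
    simp only [Set.mem_iInter] at hAw
    have h0 : |w (cl f (A a)) - z f| ≤ 0 := by
      refine le_of_forall_pos_le_add fun ε hε => ?_
      obtain ⟨n, hn⟩ := exists_nat_one_div_lt hε
      have h2 : |w (cl f (A a)) - z f| ≤ 1 / ((n : ℝ) + 1) := (hAw (a, f, n)).2
      linarith
    have h1 := abs_nonpos_iff.mp h0
    linarith
  obtain ⟨A, hA, w, hw, hAw⟩ := key
  have hs := Ellis.surjective (M := {g : L → L | TM g}) (fun g hg => TM.continuous hg)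
    (fun f hf g hg => (TM.comp (f := f) (g := g) hf hg : TM (fun x => f (g x)))) hinj hA
  have h1 : ∀ f, w f = z f := fun f => by
    obtain ⟨a, ha⟩ := hs 1
    rw [← hAw a f, ha]
    congr 1
    ext x
    change f x = f (1 * x)
    rw [MLoop.one_mul]
  refine hasMean_of_left hz fun a f => ?_
  obtain ⟨b, hb⟩ := hs a
  rw [← h1 (cl f a), ← hb, hAw b f]

/-- limits of translations are homotopisms -/
theorem clo_homotopism {p : L → L} (hp : p ∈ Ellis.clo {g : L → L | TM g}) :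
    ∃ A B : L → L, ∀ x y, p (x * y) = A x * B y := by
  classical
  have hch : ∀ g : L → L, ∃ fh : (L → L) × (L → L), TM g → ∀ x y, g (x * y) = fh.1 x * fh.2 y := by
    intro g
    by_cases hg : TM g
    · obtain ⟨f, h, _, _, H⟩ := hg.third
      exact ⟨(f, h), fun _ => H⟩
    · exact ⟨(id, id), fun h => absurd h hg⟩
  choose F hF using hch
  have hne : (𝓝[{g : L → L | TM g}] p).NeBot := mem_closure_iff_nhdsWithin_neBot.mp hp
  let U : Ultrafilter (L → L) := Ultrafilter.of (𝓝[{g : L → L | TM g}] p)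
  have hU : (U : Filter (L → L)) ≤ 𝓝[{g : L → L | TM g}] p := Ultrafilter.of_le _
  obtain ⟨AB, _, hAB⟩ := isCompact_univ.ultrafilter_le_nhds (U.map F) (by simp)
  have hAB' : Filter.Tendsto F U (𝓝 AB) := hAB
  refine ⟨AB.1, AB.2, fun x y => ?_⟩
  have h1 : Filter.Tendsto (fun g : L → L => g (x * y)) U (𝓝 (p (x * y))) :=
    ((continuous_apply (x * y)).tendsto p).mono_left (hU.trans nhdsWithin_le_nhds)
  have h2 : Filter.Tendsto (fun g : L → L => (F g).1 x * (F g).2 y) U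
      (𝓝 (AB.1 x * AB.2 y)) := by
    have hc : Continuous (fun q : (L → L) × (L → L) => q.1 x * q.2 y) :=
      TopMLoop.cmul ((continuous_apply x).comp continuous_fst)
        ((continuous_apply y).comp continuous_snd)
    exact (hc.tendsto AB).comp hAB'
  have h3 : ∀ᶠ g in (U : Filter (L → L)), (F g).1 x * (F g).2 y = g (x * y) := by
    have h4 : ∀ᶠ g in 𝓝[{g : L → L | TM g}] p, TM g := self_mem_nhdsWithin
    exact (h4.filter_mono hU).mono fun g hg => (hF g hg x y).symm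
  exact tendsto_nhds_unique h1 (h2.congr' h3)

/-- Without invariant mean there is a homotopism which is a limit of translations and identifies
the unit with another element. -/
theorem exists_homotopism (h : ¬ HasMean L) : ∃ p : L → L,
    p ∈ Ellis.clo {g : L → L | TM g} ∧ (∃ n, n ≠ 1 ∧ p n = p 1) ∧
      ∃ A B : L → L, ∀ x y, p (x * y) = A x * B y := by
  have h1 : ∃ p ∈ Ellis.clo {g : L → L | TM g}, ¬ Function.Injective p := by
    by_contra hcon
    push Not at hcon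
    exact h (hasMean_of_injective hcon)
  obtain ⟨p, hp, hpi⟩ := h1
  unfold Function.Injective at hpi
  push Not at hpi
  obtain ⟨x, y, hxy, hne⟩ := hpi
  have hp' : (fun t => p (x * t)) ∈ Ellis.clo {g : L → L | TM g} := by
    refine Ellis.clo_comp (M := {g : L → L | TM g}) (fun g hg => TM.continuous hg)
      (fun f hf g hg => (TM.comp (f := f) (g := g) hf hg : TM (fun x => f (g x)))) hp
      (subset_closure (TM.left x TM.id))
  refine ⟨fun t => p (x * t), hp', ⟨x⁻¹ * y, fun h' => hne ?_, ?_⟩, clo_homotopism hp'⟩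
  · have := MLoop.mul_inv_left x y
    rw [h', MLoop.mul_one] at this
    exact this
  · change p (x * (x⁻¹ * y)) = p (x * 1)
    rw [MLoop.mul_inv_left, MLoop.mul_one, hxy]

/-- finitely many elements identified with the unit are simultaneously contracted -/
theorem prox_of_homotopism {p : L → L} (hp : p ∈ Ellis.clo {g : L → L | TM g})
    (F : Finset L) (hF : ∀ n ∈ F, p n = p 1) (U : Set L) (hU : U ∈ 𝓝 (1 : L)) :
    ∃ f : L → L, TM f ∧ ∀ n ∈ F, f n * (f 1)⁻¹ ∈ U := by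
  have h1 : ∀ᶠ f in 𝓝 p, ∀ n ∈ F, f n * (f 1)⁻¹ ∈ U := by
    rw [Filter.eventually_all_finset]
    intro n hn
    have hc : Continuous (fun f : L → L => f n * (f 1)⁻¹) :=
      TopMLoop.cmul (continuous_apply n) (TopMLoop.cinv (continuous_apply 1))
    have hpU : U ∈ 𝓝 (p n * (p 1)⁻¹) := by
      rw [hF n hn, MLoop.mul_inv_self]
      exact hU
    exact hc.continuousAt.eventually hpU
  obtain ⟨f, hfU, hf⟩ := mem_closure_iff_nhds.mp hp _ h1
  exact ⟨f, hf, hfU⟩

end

section component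

variable {L : Type*} [TopologicalSpace L]

/-- powers of an element of a topological Moufang loop -/
def TopMoufang.pow (A : TopMoufang L) (n : L) (k : ℕ) : L := (A.mul n)^[k] A.e

/-- Composites of left and right translations by elements of a set. -/
inductive TopMoufang.Trans (A : TopMoufang L) (S : Set L) : (L → L) → Prop
  | id : TopMoufang.Trans A S (fun x => x)
  | left (a : L) (ha : a ∈ S) {g : L → L} : TopMoufang.Trans A S g →
      TopMoufang.Trans A S (fun x => A.mul a (g x))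
  | right (a : L) (ha : a ∈ S) {g : L → L} : TopMoufang.Trans A S g →
      TopMoufang.Trans A S (fun x => A.mul (g x) a)

/-- The element associates with all elements of a set (for a Moufang loop the left, middle and
right nuclei coincide). -/
def TopMoufang.Nuclear (A : TopMoufang L) (S : Set L) (c : L) : Prop :=
  ∀ x ∈ S, ∀ y ∈ S, A.mul (A.mul c x) y = A.mul c (A.mul x y)

/-- The set is a normal subloop of the subloop given by another set: it is closed under the
operations and under the inner mappings. -/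
structure TopMoufang.IsNormal (A : TopMoufang L) (C N : Set L) : Prop where
  sub : N ⊆ C
  one : A.e ∈ N
  mul : ∀ a ∈ N, ∀ b ∈ N, A.mul a b ∈ N
  ldiv : ∀ a ∈ N, ∀ b ∈ N, A.ldiv a b ∈ N
  rdiv : ∀ a ∈ N, ∀ b ∈ N, A.rdiv a b ∈ N
  conj : ∀ n ∈ N, ∀ x ∈ C, A.rdiv (A.mul x n) x ∈ N
  innR : ∀ n ∈ N, ∀ x ∈ C, ∀ y ∈ C, A.rdiv (A.mul (A.mul n x) y) (A.mul x y) ∈ N
  innL : ∀ n ∈ N, ∀ x ∈ C, ∀ y ∈ C, A.ldiv (A.mul x y) (A.mul x (A.mul y n)) ∈ N

theorem contracted [CompactSpace L] [T2Space L] [MeasurableSpace L] [BorelSpace L]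
    (A : TopMoufang L) (h : ¬ A.HasHaar) :
    ∃ N : Set L, A.IsNormal (connectedComponent A.e) N ∧ N ≠ {A.e} ∧
      (∀ n ∈ N, n ≠ A.e → ∀ m : ℕ, 0 < m →
        ¬ A.Nuclear (connectedComponent A.e) (A.pow n m)) ∧
      (∀ F : Finset L, (F : Set L) ⊆ N → ∀ U ∈ 𝓝 A.e, ∃ g : L → L,
        A.Trans (connectedComponent A.e) g ∧
        ∀ n ∈ F, ∀ x ∈ connectedComponent A.e, A.rdiv (g (A.mul n x)) (g x) ∈ U) := by
  classical
  let : MLoop L := A.toM
  have : TopMLoop L := A.toT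
  have hrdiv : ∀ a b : L, A.rdiv a b = a * b⁻¹ := fun a b => by
    refine MLoop.mul_right_cancel (a := b) ?_
    rw [MLoop.mul_inv_mul]
    exact A.rdiv_mul _ _
  have hldiv : ∀ a b : L, A.ldiv a b = a⁻¹ * b := fun a b => by
    refine MLoop.mul_left_cancel (a := a) ?_
    rw [MLoop.mul_inv_left]
    exact A.mul_ldiv _ _
  have hcomp : CompactSpace (connectedComponent (1 : L)) :=
    isCompact_iff_compactSpace.mp (isClosed_connectedComponent.isCompact)
  have hconn : ConnectedSpace (connectedComponent (1 : L)) :=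
    isConnected_iff_connectedSpace.mp isConnected_connectedComponent
  have hK : ¬ HasMean (connectedComponent (1 : L)) := by
    intro hK
    apply h
    have hker : ∃ m : Measure L,
        KerHaar (ConnectedComponents.mk : L → ConnectedComponents L) m := by
      refine kerHaar_of_image hK (Subtype.val : connectedComponent (1 : L) → L)
        ⟨fun _ _ => rfl⟩ continuous_subtype_val ?_
      rw [Subtype.range_coe]
      ext x
      exact (mk_eq_one_iff x).symm
    exact hasHaar_iff_component.mpr hker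
  obtain ⟨p, hp, ⟨n0, hn0, hpn0⟩, P, Q, hPQ⟩ := exists_homotopism hK
  let : UniformSpace (connectedComponent (1 : L)) := uniformSpaceOfCompactR1
  have hC : ∀ n : connectedComponent (1 : L), p n = p 1 → Contr n := fun n hn =>
    contr_of_prox fun U hU => by
      obtain ⟨f, hf, hfU⟩ := prox_of_homotopism hp {n} (by simpa using hn) U hU
      exact ⟨f, hf, hfU n (Finset.mem_singleton_self n)⟩
  have hpow : ∀ (n : connectedComponent (1 : L)) (m : ℕ), (npw n m).1 = A.pow n.1 m := by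
    intro n m
    induction m with
    | zero => rfl
    | succ m ih =>
      unfold npw TopMoufang.pow at *
      rw [Function.iterate_succ_apply', Function.iterate_succ_apply', ← ih]
      rfl
  have htr : ∀ g : connectedComponent (1 : L) → connectedComponent (1 : L), TM g →
      ∃ G : L → L, A.Trans (connectedComponent A.e) G ∧ ∀ x, G x.1 = (g x).1 := by
    intro g hg
    induction hg with
    | id => exact ⟨_, .id, fun _ => rfl⟩
    | @left a g0 _ ih =>
      obtain ⟨G, hG, H⟩ := ih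
      refine ⟨_, .left a.1 a.2 hG, fun x => ?_⟩
      change A.mul a.1 (G x.1) = A.mul a.1 (g0 x).1
      rw [H]
    | @right a g0 _ ih =>
      obtain ⟨G, hG, H⟩ := ih
      refine ⟨_, .right a.1 a.2 hG, fun x => ?_⟩
      change A.mul (G x.1) a.1 = A.mul (g0 x).1 a.1
      rw [H]
  -- the congruence
  have hP : ∀ x y, p x = p y → P x = P y := fun x y hxy => by
    have h1 := hPQ x 1
    have h2 := hPQ y 1
    rw [MLoop.mul_one] at h1 h2
    exact MLoop.mul_right_cancel (h1.symm.trans (hxy.trans h2))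
  have hQ : ∀ x y, p x = p y → Q x = Q y := fun x y hxy => by
    have h1 := hPQ 1 x
    have h2 := hPQ 1 y
    rw [MLoop.one_mul] at h1 h2
    exact MLoop.mul_left_cancel (h1.symm.trans (hxy.trans h2))
  have cmul : ∀ x x' y y', p x = p x' → p y = p y' → p (x * y) = p (x' * y') := by
    intro x x' y y' hx hy
    rw [hPQ, hPQ, hP x x' hx, hQ y y' hy]
  have cinv : ∀ x x', p x = p x' → p x⁻¹ = p x'⁻¹ := by
    intro x x' hx
    have h1 : p (x * x⁻¹) = p (x * x'⁻¹) := by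
      rw [MLoop.mul_inv_self, ← MLoop.mul_inv_self x', cmul x' x x'⁻¹ x'⁻¹ hx.symm rfl]
    rw [hPQ, hPQ] at h1
    have h2 := MLoop.mul_left_cancel h1
    have h3 := hPQ 1 x⁻¹
    have h4 := hPQ 1 x'⁻¹
    rw [MLoop.one_mul] at h3 h4
    rw [h3, h4, h2]
  let N : Set L := {n | ∃ h : n ∈ connectedComponent (1 : L), p ⟨n, h⟩ = p 1}
  have hN : ∀ n : connectedComponent (1 : L), n.1 ∈ N ↔ p n = p 1 := fun n =>
    ⟨fun ⟨_, h⟩ => h, fun h => ⟨n.2, h⟩⟩
  refine ⟨N, ⟨fun n hn => hn.1, ⟨mem_connectedComponent, rfl⟩, ?_, ?_, ?_, ?_, ?_, ?_⟩, ?_, ?_, ?_⟩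
  · rintro a ⟨ha, hpa⟩ b ⟨hb, hpb⟩
    have h1 : p (⟨a, ha⟩ * ⟨b, hb⟩) = p (1 * 1) := cmul _ _ _ _ hpa hpb
    rw [MLoop.one_mul] at h1
    exact (hN (⟨a, ha⟩ * ⟨b, hb⟩)).mpr h1
  · rintro a ⟨ha, hpa⟩ b ⟨hb, hpb⟩
    have h1 : p ((⟨a, ha⟩ : connectedComponent (1 : L))⁻¹ * ⟨b, hb⟩) = p (1⁻¹ * 1) :=
      cmul _ _ _ _ (cinv _ _ hpa) hpb
    rw [MLoop.inv_mul_self] at h1
    rw [hldiv]
    exact (hN ((⟨a, ha⟩ : connectedComponent (1 : L))⁻¹ * ⟨b, hb⟩)).mpr h1
  · rintro a ⟨ha, hpa⟩ b ⟨hb, hpb⟩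
    have h1 : p (⟨a, ha⟩ * (⟨b, hb⟩ : connectedComponent (1 : L))⁻¹) = p (1 * 1⁻¹) :=
      cmul _ _ _ _ hpa (cinv _ _ hpb)
    rw [MLoop.mul_inv_self] at h1
    rw [hrdiv]
    exact (hN (⟨a, ha⟩ * (⟨b, hb⟩ : connectedComponent (1 : L))⁻¹)).mpr h1
  · rintro n ⟨hn, hpn⟩ x hx
    have h1 : p ((⟨x, hx⟩ * ⟨n, hn⟩) * (⟨x, hx⟩ : connectedComponent (1 : L))⁻¹) =
        p ((⟨x, hx⟩ * 1) * (⟨x, hx⟩ : connectedComponent (1 : L))⁻¹) :=
      cmul _ _ _ _ (cmul _ _ _ _ rfl hpn) rfl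
    rw [MLoop.mul_one, MLoop.mul_inv_self] at h1
    rw [hrdiv]
    exact (hN ((⟨x, hx⟩ * ⟨n, hn⟩) * (⟨x, hx⟩ : connectedComponent (1 : L))⁻¹)).mpr h1
  · rintro n ⟨hn, hpn⟩ x hx y hy
    have h1 : p (((⟨n, hn⟩ * ⟨x, hx⟩) * ⟨y, hy⟩) *
        ((⟨x, hx⟩ : connectedComponent (1 : L)) * ⟨y, hy⟩)⁻¹) =
        p (((1 * ⟨x, hx⟩) * ⟨y, hy⟩) *
        ((⟨x, hx⟩ : connectedComponent (1 : L)) * ⟨y, hy⟩)⁻¹) :=
      cmul _ _ _ _ (cmul _ _ _ _ (cmul _ _ _ _ hpn rfl) rfl) rfl
    rw [MLoop.one_mul, MLoop.mul_inv_self] at h1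
    rw [hrdiv]
    exact (hN (((⟨n, hn⟩ * ⟨x, hx⟩) * ⟨y, hy⟩) *
        ((⟨x, hx⟩ : connectedComponent (1 : L)) * ⟨y, hy⟩)⁻¹)).mpr h1
  · rintro n ⟨hn, hpn⟩ x hx y hy
    have h1 : p (((⟨x, hx⟩ : connectedComponent (1 : L)) * ⟨y, hy⟩)⁻¹ *
        (⟨x, hx⟩ * (⟨y, hy⟩ * ⟨n, hn⟩))) =
        p (((⟨x, hx⟩ : connectedComponent (1 : L)) * ⟨y, hy⟩)⁻¹ *
        (⟨x, hx⟩ * (⟨y, hy⟩ * 1))) :=
      cmul _ _ _ _ rfl (cmul _ _ _ _ rfl (cmul _ _ _ _ rfl hpn))
    rw [MLoop.mul_one, MLoop.inv_mul_self] at h1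
    rw [hldiv]
    exact (hN (((⟨x, hx⟩ : connectedComponent (1 : L)) * ⟨y, hy⟩)⁻¹ *
        (⟨x, hx⟩ * (⟨y, hy⟩ * ⟨n, hn⟩)))).mpr h1
  · intro hNe
    have h1 : n0.1 ∈ N := (hN n0).mpr hpn0
    rw [hNe] at h1
    exact hn0 (Subtype.ext h1)
  · rintro n ⟨hn, hpn⟩ hne m hm hnuc
    have hLN : LN (npw (⟨n, hn⟩ : connectedComponent (1 : L)) m) := by
      intro x y
      apply Subtype.ext
      have h1 := hnuc x.1 x.2 y.1 y.2
      have h2 := hpow ⟨n, hn⟩ m
      rw [← h2] at h1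
      exact h1
    have h1 := (hC ⟨n, hn⟩ hpn).torsion hm (((hC ⟨n, hn⟩ hpn).npw m).nuclear hLN)
    exact hne (congrArg Subtype.val h1)
  · intro F hF U hU
    have hU' : (Subtype.val ⁻¹' U : Set (connectedComponent (1 : L))) ∈
        𝓝 (1 : connectedComponent (1 : L)) :=
      continuous_subtype_val.continuousAt hU
    obtain ⟨V, hV, HV⟩ := quot_of_close hU'
    obtain ⟨U1, hU1, HU1⟩ := close_of_quot hV
    let F' : Finset (connectedComponent (1 : L)) := F.attach.image fun n => ⟨n.1, (hF n.2).1⟩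
    obtain ⟨f, hf, hfU⟩ := prox_of_homotopism hp F' (by
      intro n hn
      obtain ⟨m, _, rfl⟩ := Finset.mem_image.mp hn
      exact (hF m.2).2) U1 hU1
    obtain ⟨g, k, hg, _, Hg⟩ := hf.first
    obtain ⟨G, hG, H⟩ := htr g hg
    refine ⟨G, hG, fun n hn x hx => ?_⟩
    rw [hrdiv]
    have hnC : n ∈ connectedComponent (1 : L) := (hF hn).1
    have h3 : G (A.mul n x) = (g (⟨n, hnC⟩ * ⟨x, hx⟩)).1 := H (⟨n, hnC⟩ * ⟨x, hx⟩)
    have h4 : G x = (g ⟨x, hx⟩).1 := H ⟨x, hx⟩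
    rw [h3, h4]
    have h5 : g ⟨x, hx⟩ = f 1 * k ⟨x, hx⟩ := by rw [← Hg, MLoop.one_mul]
    have h6 : (g (⟨n, hnC⟩ * ⟨x, hx⟩), g ⟨x, hx⟩) ∈ V := by
      rw [Hg, h5]
      exact HU1 _ _ (hfU ⟨n, hnC⟩ (Finset.mem_image.mpr ⟨⟨n, hn⟩, Finset.mem_attach _ _, rfl⟩)) _
    exact HV _ _ h6

/-- the connected component of a normal subloop -/
theorem TopMoufang.IsNormal.component {A : TopMoufang L} {C N : Set L} (h : A.IsNormal C N)
    (hC : IsPreconnected C) (heC : A.e ∈ C)
    (hnuc : ∃ n ∈ N, ¬ A.Nuclear C n) :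
    A.IsNormal C (connectedComponentIn N A.e) ∧ connectedComponentIn N A.e ≠ {A.e} ∧
      IsConnected (connectedComponentIn N A.e) := by
  have hsub : connectedComponentIn N A.e ⊆ N := connectedComponentIn_subset N A.e
  have hpre : IsPreconnected (connectedComponentIn N A.e) := isPreconnected_connectedComponentIn
  have he : A.e ∈ connectedComponentIn N A.e := mem_connectedComponentIn h.one
  have hrd : ∀ x, A.rdiv x x = A.e := fun x => by
    have := A.mul_rdiv x A.e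
    rwa [A.e_mul] at this
  have hld : ∀ x, A.ldiv x x = A.e := fun x => by
    have := A.ldiv_mul x A.e
    rwa [A.mul_e] at this
  -- a continuous map of a preconnected set into the subloop
  have key1 : ∀ (F : L → L), Continuous F → F A.e = A.e → (∀ n ∈ N, F n ∈ N) →
      ∀ n ∈ connectedComponentIn N A.e, F n ∈ connectedComponentIn N A.e := by
    intro F hF hFe hFN n hn
    refine (hpre.image F hF.continuousOn).subset_connectedComponentIn ⟨A.e, he, hFe⟩ ?_ ⟨n, hn, rfl⟩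
    rintro _ ⟨m, hm, rfl⟩
    exact hFN m (hsub hm)
  have key2 : ∀ (F : L × L → L), Continuous F → F (A.e, A.e) = A.e →
      (∀ a ∈ N, ∀ b ∈ N, F (a, b) ∈ N) → ∀ a ∈ connectedComponentIn N A.e,
      ∀ b ∈ connectedComponentIn N A.e, F (a, b) ∈ connectedComponentIn N A.e := by
    intro F hF hFe hFN a ha b hb
    refine ((hpre.prod hpre).image F hF.continuousOn).subset_connectedComponentIn
      ⟨(A.e, A.e), ⟨he, he⟩, hFe⟩ ?_ ⟨(a, b), ⟨ha, hb⟩, rfl⟩
    rintro _ ⟨⟨m, m'⟩, ⟨hm, hm'⟩, rfl⟩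
    exact hFN m (hsub hm) m' (hsub hm')
  have cm : ∀ {X : Type _} [TopologicalSpace X] {f g : X → L}, Continuous f → Continuous g →
      Continuous (fun x => A.mul (f x) (g x)) := fun hf hg => A.cont_mul.comp (hf.prodMk hg)
  have cr : ∀ {X : Type _} [TopologicalSpace X] {f g : X → L}, Continuous f → Continuous g →
      Continuous (fun x => A.rdiv (f x) (g x)) := fun hf hg => A.cont_rdiv.comp (hf.prodMk hg)
  refine ⟨⟨hsub.trans h.sub, he, ?_, ?_, ?_, ?_, ?_, ?_⟩, ?_, ⟨⟨A.e, he⟩, hpre⟩⟩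
  · exact key2 _ A.cont_mul (A.mul_e _) h.mul
  · exact key2 _ A.cont_ldiv (hld _) h.ldiv
  · exact key2 _ A.cont_rdiv (hrd _) h.rdiv
  · intro n hn x hx
    exact key1 (fun n => A.rdiv (A.mul x n) x) (cr (cm continuous_const continuous_id)
      continuous_const) (by simp only [A.mul_e, hrd]) (fun n hn => h.conj n hn x hx) n hn
  · intro n hn x hx y hy
    exact key1 (fun n => A.rdiv (A.mul (A.mul n x) y) (A.mul x y))
      (cr (cm (cm continuous_id continuous_const) continuous_const) continuous_const)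
      (by simp only [A.e_mul, hrd]) (fun n hn => h.innR n hn x hx y hy) n hn
  · intro n hn x hx y hy
    exact key1 (fun n => A.ldiv (A.mul x y) (A.mul x (A.mul y n)))
      (A.cont_ldiv.comp (continuous_const.prodMk (cm continuous_const
        (cm continuous_const continuous_id))))
      (by simp only [A.mul_e, hld]) (fun n hn => h.innL n hn x hx y hy) n hn
  · intro hEq
    obtain ⟨n, hn, hnn⟩ := hnuc
    apply hnn
    intro x hx y hy
    let F : L × L → L := fun p => A.rdiv (A.rdiv (A.mul (A.mul n p.1) p.2) (A.mul p.1 p.2)) n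
    have hF : Continuous F := cr (cr (cm (cm continuous_const continuous_fst) continuous_snd)
      (cm continuous_fst continuous_snd)) continuous_const
    have hFe : F (A.e, A.e) = A.e := by
      change A.rdiv (A.rdiv (A.mul (A.mul n A.e) A.e) (A.mul A.e A.e)) n = A.e
      rw [A.mul_e, A.mul_e, A.mul_e]
      have h1 : A.rdiv n A.e = n := by
        have := A.mul_rdiv A.e n
        rwa [A.mul_e] at this
      rw [h1, hrd]
    have h2 : F '' (C ×ˢ C) ⊆ connectedComponentIn N A.e := by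
      refine ((hC.prod hC).image F hF.continuousOn).subset_connectedComponentIn
        ⟨(A.e, A.e), ⟨heC, heC⟩, hFe⟩ ?_
      rintro _ ⟨⟨a, b⟩, ⟨ha, hb⟩, rfl⟩
      exact h.rdiv _ (h.innR n hn a ha b hb) n hn
    rw [hEq] at h2
    have h3 : F (x, y) = A.e := h2 ⟨(x, y), ⟨hx, hy⟩, rfl⟩
    have h4 : A.rdiv (A.mul (A.mul n x) y) (A.mul x y) = n := by
      have h5 := A.rdiv_mul n (A.rdiv (A.mul (A.mul n x) y) (A.mul x y))
      have h6 : A.mul (F (x, y)) n = A.rdiv (A.mul (A.mul n x) y) (A.mul x y) := h5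
      rw [← h6, h3, A.e_mul]
    have h7 := A.rdiv_mul (A.mul x y) (A.mul (A.mul n x) y)
    rw [h4] at h7
    exact h7.symm

theorem contracted_connected [CompactSpace L] [T2Space L] [MeasurableSpace L] [BorelSpace L]
    (A : TopMoufang L) (h : ¬ A.HasHaar) :
    ∃ N : Set L, A.IsNormal (connectedComponent A.e) N ∧ IsConnected N ∧ N ≠ {A.e} ∧
      (∀ n ∈ N, n ≠ A.e → ∀ m : ℕ, 0 < m →
        ¬ A.Nuclear (connectedComponent A.e) (A.pow n m)) ∧
      (∀ F : Finset L, (F : Set L) ⊆ N → ∀ U ∈ 𝓝 A.e, ∃ g : L → L,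
        A.Trans (connectedComponent A.e) g ∧
        ∀ n ∈ F, ∀ x ∈ connectedComponent A.e, A.rdiv (g (A.mul n x)) (g x) ∈ U) := by
  obtain ⟨N, hN, hNe, hnuc, hcon⟩ := contracted A h
  have hne : ∃ n ∈ N, n ≠ A.e := by
    by_contra hcon
    push Not at hcon
    apply hNe
    ext x
    exact ⟨fun hx => hcon x hx, fun hx => by rw [hx]; exact hN.one⟩
  obtain ⟨n, hn, hne⟩ := hne
  have h1 : A.pow n 1 = n := A.mul_e n
  obtain ⟨h2, h3, h4⟩ := hN.component isPreconnected_connectedComponent mem_connectedComponent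
    ⟨n, hn, by have := hnuc n hn hne 1 one_pos; rwa [h1] at this⟩
  have hsub : connectedComponentIn N A.e ⊆ N := connectedComponentIn_subset N A.e
  exact ⟨_, h2, h4, h3, fun n hn => hnuc n (hsub hn), fun F hF => hcon F (hF.trans hsub)⟩

end component

end Pool.Agent.MoufangHaar
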